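import Pool.Agent.W57.SW.Count
import Pool.Agent.H174R3.D6.TaskLS

set_option autoImplicit false

/-! Composite numbers without a small witness, power saving beyond `x^(1/2)`: general lemmas. -/

namespace Pool.Agent.L0h54.EX

open Finset Real Pool.Agent.H379R2.W Pool.Agent.W57.SW

/-- the odd primes up to `(log x)^2` -/
noncomputable def W (x : ℕ) : Finset ℕ := opr ⌊(log x) ^ (2 : ℝ)⌋₊

/-- the same symbols -/
def Same (x a b : ℕ) : Prop := ∀ ℓ ∈ W x, jacobiSym (ℓ : ℤ) a = jacobiSym (ℓ : ℤ) b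

/-- nonzero symbols -/
def Nz (x a : ℕ) : Prop := ∀ ℓ ∈ W x, jacobiSym (ℓ : ℤ) a ≠ 0

lemma Same.symm {x a b : ℕ} (h : Same x a b) : Same x b a := fun ℓ hℓ => (h ℓ hℓ).symm

lemma Same.trans {x a b c : ℕ} (h : Same x a b) (h' : Same x b c) : Same x a c :=
  fun ℓ hℓ => (h ℓ hℓ).trans (h' ℓ hℓ)

lemma Same.nz {x a b : ℕ} (h : Same x a b) (hb : Nz x b) : Nz x a :=
  fun ℓ hℓ => by rw [h ℓ hℓ]; exact hb ℓ hℓ

lemma nz_one (x : ℕ) : Nz x 1 := fun ℓ _ => by simp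

/-- sums over sparse families -/
lemma ws (α σ : ℝ) (hα : 0 ≤ α) (hσ : α < σ) : ∃ C : ℝ, 0 < C ∧
    ∀ (ι : Type) (A : Finset ι) (f : ι → ℝ) (K : ℝ), 0 ≤ K → (∀ a ∈ A, 1 ≤ f a) →
    (∀ y : ℝ, 1 ≤ y → ((A.filter (fun a => f a ≤ y)).card : ℝ) ≤ K * y ^ α) →
    ∑ a ∈ A, (f a) ^ (-σ) ≤ C * K := by
  classical
  obtain ⟨r, hr⟩ : ∃ r : ℝ, r = (2 : ℝ) ^ (α - σ) := ⟨_, rfl⟩
  have hr0 : 0 < r := by rw [hr]; positivity
  have hr1 : r < 1 := by
    rw [hr]; exact rpow_lt_one_of_one_lt_of_neg (by norm_num) (by linarith)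
  refine ⟨2 ^ α * (1 - r)⁻¹, by
    have : 0 < 1 - r := by linarith
    positivity, ?_⟩
  intro ι A f K hK hf hA
  have hσ0 : 0 < σ := by linarith
  set j : ι → ℕ := fun a => Nat.log 2 ⌊f a⌋₊ with hj
  have hj1 : ∀ a ∈ A, (2 : ℝ) ^ (j a) ≤ f a := by
    intro a ha
    have h1 := hf a ha
    have h2 : 1 ≤ ⌊f a⌋₊ := Nat.le_floor (by exact_mod_cast h1)
    have h3 : 2 ^ (j a) ≤ ⌊f a⌋₊ := Nat.pow_log_le_self 2 (by omega)
    have h4 : ((2 ^ (j a) : ℕ) : ℝ) ≤ ⌊f a⌋₊ := by exact_mod_cast h3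
    push_cast at h4
    exact h4.trans (Nat.floor_le (by linarith))
  have hj2 : ∀ a ∈ A, f a ≤ (2 : ℝ) ^ (j a + 1) := by
    intro a _
    have h3 : ⌊f a⌋₊ < 2 ^ (j a + 1) := Nat.lt_pow_succ_log_self (by norm_num) _
    have h4 : ((⌊f a⌋₊ + 1 : ℕ) : ℝ) ≤ ((2 ^ (j a + 1) : ℕ) : ℝ) := by exact_mod_cast h3
    push_cast at h4
    exact (Nat.lt_floor_add_one _).le.trans h4
  have h1 : ∑ a ∈ A, (f a) ^ (-σ) ≤ ∑ a ∈ A, ((2 : ℝ) ^ (j a)) ^ (-σ) := by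
    apply sum_le_sum
    intro a ha
    exact rpow_le_rpow_of_nonpos (by positivity) (hj1 a ha) (by linarith)
  refine h1.trans ?_
  rw [← sum_fiberwise_of_maps_to (g := j) (t := A.image j) (fun a ha => mem_image_of_mem j ha)]
  have h2 : ∀ i ∈ A.image j, ∑ a ∈ A with j a = i, ((2 : ℝ) ^ (j a)) ^ (-σ) ≤
      K * 2 ^ α * r ^ i := by
    intro i _
    have e1 : ∑ a ∈ A with j a = i, ((2 : ℝ) ^ (j a)) ^ (-σ) =
        ((A.filter (fun a => j a = i)).card : ℝ) * ((2 : ℝ) ^ i) ^ (-σ) := by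
      rw [← nsmul_eq_mul, ← sum_const]
      apply sum_congr rfl
      intro a ha
      rw [(mem_filter.mp ha).2]
    rw [e1]
    have e2 : ((A.filter (fun a => j a = i)).card : ℝ) ≤ K * ((2 : ℝ) ^ (i + 1)) ^ α := by
      refine le_trans ?_ (hA ((2 : ℝ) ^ (i + 1)) (one_le_pow₀ (by norm_num)))
      have : (A.filter (fun a => j a = i)) ⊆ A.filter (fun a => f a ≤ (2 : ℝ) ^ (i + 1)) := by
        intro a ha
        rw [mem_filter] at ha ⊢
        refine ⟨ha.1, ?_⟩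
        have := hj2 a ha.1
        rwa [ha.2] at this
      exact_mod_cast card_le_card this
    refine (mul_le_mul_of_nonneg_right e2 (by positivity)).trans (le_of_eq ?_)
    rw [hr, ← rpow_natCast 2 (i + 1), ← rpow_natCast 2 i, ← rpow_mul (by norm_num),
      ← rpow_mul (by norm_num), ← rpow_natCast (2 ^ (α - σ)) i, ← rpow_mul (by norm_num),
      mul_assoc, mul_assoc, ← rpow_add (by norm_num), ← rpow_add (by norm_num)]
    congr 2
    push_cast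
    ring
  refine (sum_le_sum h2).trans ?_
  rw [← mul_sum]
  have h3 : ∑ i ∈ A.image j, r ^ i ≤ (1 - r)⁻¹ := by
    rw [← tsum_geometric_of_lt_one hr0.le hr1]
    exact (summable_geometric_of_lt_one hr0.le hr1).sum_le_tsum _ fun i _ => by positivity
  calc K * 2 ^ α * ∑ i ∈ A.image j, r ^ i ≤ K * 2 ^ α * (1 - r)⁻¹ :=
        mul_le_mul_of_nonneg_left h3 (by positivity)
    _ = _ := by ring

/-- sums over sparse sets of integers with weights `(x/d)^β` -/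
lemma Qsum (α β σ lam : ℝ) (hα : 0 ≤ α) (hσ : α < σ) (hβ : β ≤ σ) : ∃ C : ℝ, 0 < C ∧
    ∀ (x : ℝ), 1 ≤ x → ∀ (D : Finset ℕ) (R : ℝ), 0 ≤ R →
    (∀ d ∈ D, 1 ≤ d ∧ (d : ℝ) * x ^ lam ≤ x) →
    (∀ X : ℕ, 1 ≤ X → ((D.filter (fun d : ℕ => d ≤ X)).card : ℝ) ≤ R * (X : ℝ) ^ α) →
    ∑ d ∈ D, (x / d) ^ β ≤ C * R * x ^ (σ - lam * (σ - β)) := by
  obtain ⟨C, hC, h⟩ := ws α σ hα hσ
  refine ⟨C, hC, ?_⟩
  intro x hx D R hR hD hrank
  have hx0 : 0 < x := by linarith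
  have h1 := h ℕ D (fun d : ℕ => (d : ℝ)) R hR (fun d hd => by exact_mod_cast (hD d hd).1) (by
    intro y hy
    have hy1 : 1 ≤ ⌊y⌋₊ := Nat.le_floor (by exact_mod_cast hy)
    have e1 := hrank ⌊y⌋₊ hy1
    have e2 : D.filter (fun d : ℕ => (d : ℝ) ≤ y) = D.filter (fun d : ℕ => d ≤ ⌊y⌋₊) := by
      apply filter_congr
      intro d _
      exact (Nat.le_floor_iff (by linarith)).symm
    rw [e2]
    refine e1.trans (mul_le_mul_of_nonneg_left ?_ hR)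
    exact rpow_le_rpow (Nat.cast_nonneg _) (Nat.floor_le (by linarith)) hα)
  have h2 : ∀ d ∈ D, (x / d) ^ β ≤ x ^ (σ - lam * (σ - β)) * (d : ℝ) ^ (-σ) := by
    intro d hd
    obtain ⟨a1, a2⟩ := hD d hd
    have hd0 : (0 : ℝ) < d := by exact_mod_cast a1
    have e1 : (x / d) ^ β = (x / d) ^ σ * (x / d) ^ (-(σ - β)) := by
      rw [← rpow_add (by positivity)]; congr 1; ring
    have e2 : x ^ lam ≤ x / d := by rw [le_div_iff₀ hd0]; linarith
    have e3 : (x / d) ^ (-(σ - β)) ≤ (x ^ lam) ^ (-(σ - β)) :=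
      rpow_le_rpow_of_nonpos (by positivity) e2 (by linarith)
    rw [e1]
    refine (mul_le_mul_of_nonneg_left e3 (by positivity)).trans (le_of_eq ?_)
    rw [div_rpow hx0.le hd0.le, ← rpow_mul hx0.le, rpow_neg hd0.le, rpow_sub hx0,
      mul_neg, rpow_neg hx0.le]
    field_simp
  refine (sum_le_sum h2).trans ?_
  rw [← mul_sum]
  calc x ^ (σ - lam * (σ - β)) * ∑ d ∈ D, (d : ℝ) ^ (-σ) ≤
        x ^ (σ - lam * (σ - β)) * (C * R) := mul_le_mul_of_nonneg_left h1 (by positivity)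
    _ = _ := by ring

/-- counting by a covering -/
lemma cover_count {ι γ κ : Type} (S : Finset ℕ) (D : Finset ι) (Γ : ι → Finset γ)
    (E : ι → γ → Finset κ) (F : ι → γ → κ → ℕ)
    (h : ∀ n ∈ S, ∃ d ∈ D, ∃ g ∈ Γ d, ∃ e ∈ E d g, F d g e = n) :
    (S.card : ℝ) ≤ ∑ d ∈ D, ∑ g ∈ Γ d, ((E d g).card : ℝ) := by
  classical
  have h1 : S ⊆ D.biUnion (fun d => (Γ d).biUnion (fun g => (E d g).image (F d g))) := by
    intro n hn
    obtain ⟨d, hd, g, hg, e, he, hn'⟩ := h n hn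
    rw [mem_biUnion]
    refine ⟨d, hd, ?_⟩
    rw [mem_biUnion]
    exact ⟨g, hg, mem_image.mpr ⟨e, he, hn'⟩⟩
  have h2 := (card_le_card h1).trans card_biUnion_le
  have h3 : S.card ≤ ∑ d ∈ D, ∑ g ∈ Γ d, (E d g).card := by
    refine h2.trans (sum_le_sum fun d _ => ?_)
    exact card_biUnion_le.trans (sum_le_sum fun g _ => card_image_le)
  exact_mod_cast h3

/-- the minimal divisor above `y` -/
lemma exists_div (m : ℕ) (y : ℝ) (hm : 1 ≤ m) (hy : y ≤ m) : ∃ e : ℕ, e ∣ m ∧ y ≤ e ∧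
    ∀ r : ℕ, r.Prime → r ∣ e → ((e / r : ℕ) : ℝ) < y := by
  classical
  have hne : (m.divisors.filter (fun e : ℕ => y ≤ (e : ℝ))).Nonempty :=
    ⟨m, by rw [mem_filter, Nat.mem_divisors]; exact ⟨⟨dvd_rfl, by omega⟩, hy⟩⟩
  obtain ⟨e, he, hmin⟩ := exists_min_image (m.divisors.filter (fun e : ℕ => y ≤ (e : ℝ))) id hne
  rw [mem_filter, Nat.mem_divisors] at he
  refine ⟨e, he.1.1, he.2, fun r hr hre => ?_⟩
  by_contra hc
  push Not at hc
  have he0 : 0 < e := Nat.pos_of_dvd_of_pos he.1.1 (by omega)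
  have h1 : e / r ∣ m := (Nat.div_dvd_of_dvd hre).trans he.1.1
  have h2 := hmin (e / r) (by
    rw [mem_filter, Nat.mem_divisors]; exact ⟨⟨h1, by omega⟩, hc⟩)
  have h3 : e / r < e := Nat.div_lt_self he0 hr.one_lt
  simp only [id] at h2
  omega

end Pool.Agent.L0h54.EX
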