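import Pool.Agent.L0h54.EX.Struct

set_option autoImplicit false

/-! Every number without a small witness is in one of the six classes. -/

namespace Pool.Agent.L0h54.EX

open Finset Real Pool.Agent.H379R2.W Pool.Agent.W57.SW

lemma mem_Rx_of_Dx {x m : ℕ} {τ κ : ℝ} (h : m ∈ Dx x) : m ∈ Rx x τ κ := by
  rw [mem_Rx]
  exact ⟨(mem_Dx.mp h).1, Or.inl h⟩

theorem cases_smooth : ∃ x0 : ℕ, ∀ x : ℕ, x0 ≤ x → ∀ (n : ℕ) (E : Finset ℕ), Dat x n E →
    (∀ q : ℕ, q.Prime → q ∣ n → (q : ℝ) ≤ (x : ℝ) ^ (1 / 300 : ℝ)) → IsS1 x n ∨ IsS2 x n := by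
  classical
  refine ⟨100, ?_⟩
  intro x hx n E h hsm
  have hxpos : (0 : ℝ) < x := by exact_mod_cast (by omega : 0 < x)
  have hx1' : (1 : ℝ) < x := by exact_mod_cast (by omega : 1 < x)
  have hx100 : (100 : ℝ) ≤ x := by exact_mod_cast hx
  set G : ℕ → ℕ := fun q => Nat.gcd (q - 1) (n - 1) with hG
  obtain ⟨L, hL⟩ : ∃ L : ℕ, L = n.primeFactors.lcm G := ⟨_, rfl⟩
  have hn1 := h.pos
  have hn0 : n ≠ 0 := by omega
  rcases le_or_gt ((x : ℝ) ^ (8 / 300 : ℝ)) L with hbig | hsmall
  · -- the first smooth class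
    left
    have hxn : (x : ℝ) ^ (1 / 100 : ℝ) ≤ n := by
      have h1 : (x : ℝ) ^ (1 / 100 : ℝ) * (x : ℝ) ^ (1 / 2 : ℝ) ≤ x := by
        rw [← rpow_add hxpos]
        calc (x : ℝ) ^ (1 / 100 + 1 / 2 : ℝ) ≤ (x : ℝ) ^ (1 : ℝ) :=
              rpow_le_rpow_of_exponent_le hx1'.le (by norm_num)
          _ = x := rpow_one _
      have h2 : 2 ≤ (x : ℝ) ^ (1 / 2 : ℝ) := by
        rw [← sqrt_eq_rpow]
        apply le_sqrt_of_sq_le
        linarith
      have h3 : 0 < (x : ℝ) ^ (1 / 100 : ℝ) := by positivity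
      have h4 := h.lt
      nlinarith
    obtain ⟨e, he1, he2, he3⟩ := exists_div n ((x : ℝ) ^ (1 / 100 : ℝ)) hn1 hxn
    obtain ⟨d, hd⟩ := he1
    have hnde : n = d * e := by rw [hd, mul_comm]
    have hdn : d ∣ n := ⟨e, hnde⟩
    have hen : e ∣ n := ⟨d, hd⟩
    have he1' : (1 : ℝ) < e := lt_of_lt_of_le (one_lt_rpow hx1' (by norm_num)) he2
    have he1n : 1 < e := by exact_mod_cast he1'
    have hele : (e : ℝ) ≤ (x : ℝ) ^ (4 / 300 : ℝ) := by
      have hr := Nat.minFac_prime (show e ≠ 1 by omega)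
      have hre := Nat.minFac_dvd e
      have h1 := he3 _ hr hre
      have h2 := hsm _ hr (hre.trans hen)
      have h3 : (e : ℝ) = (e.minFac : ℝ) * ((e / e.minFac : ℕ) : ℝ) := by
        have : e.minFac * (e / e.minFac) = e := Nat.mul_div_cancel' hre
        exact_mod_cast this.symm
      rw [h3]
      calc (e.minFac : ℝ) * ((e / e.minFac : ℕ) : ℝ) ≤
          (x : ℝ) ^ (1 / 300 : ℝ) * (x : ℝ) ^ (1 / 100 : ℝ) :=
            mul_le_mul h2 h1.le (Nat.cast_nonneg _) (by positivity)
        _ = _ := by rw [← rpow_add hxpos]; norm_num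
    have hd0 : 1 ≤ d := (h.dvd_facts hdn).1
    have hd2 : 2 ≤ d := by
      by_contra hc
      have hd1 : d = 1 := by omega
      have h1 := h.lt
      rw [hnde, hd1, one_mul] at h1
      have h2 : (x : ℝ) ^ (4 / 300 : ℝ) * (x : ℝ) ^ (1 / 2 : ℝ) ≤ x := by
        rw [← rpow_add hxpos]
        calc (x : ℝ) ^ (4 / 300 + 1 / 2 : ℝ) ≤ (x : ℝ) ^ (1 : ℝ) :=
              rpow_le_rpow_of_exponent_le hx1'.le (by norm_num)
          _ = x := rpow_one _
      have h3 : 2 ≤ (x : ℝ) ^ (1 / 2 : ℝ) := by
        rw [← sqrt_eq_rpow]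
        apply le_sqrt_of_sq_le
        linarith
      have h4 : 0 < (x : ℝ) ^ (4 / 300 : ℝ) := by positivity
      nlinarith
    obtain ⟨Ld, hLd⟩ : ∃ Ld : ℕ, Ld = d.primeFactors.lcm G := ⟨_, rfl⟩
    obtain ⟨Le, hLe⟩ : ∃ Le : ℕ, Le = e.primeFactors.lcm G := ⟨_, rfl⟩
    have hdvd : L ∣ Ld * Le := by
      rw [hL]
      apply Finset.lcm_dvd
      intro q hq
      rw [Nat.mem_primeFactors] at hq
      have h1 := hq.2.1
      rw [hnde] at h1
      rcases hq.1.dvd_mul.mp h1 with h2 | h2
      · have h3 : G q ∣ Ld := by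
          rw [hLd]
          exact Finset.dvd_lcm (Nat.mem_primeFactors.mpr ⟨hq.1, h2, by omega⟩)
        exact h3.mul_right _
      · have h3 : G q ∣ Le := by
          rw [hLe]
          exact Finset.dvd_lcm (Nat.mem_primeFactors.mpr ⟨hq.1, h2, by omega⟩)
        exact h3.mul_left _
    have hGpos : ∀ q : ℕ, q.Prime → q ∣ n → 1 ≤ G q := fun q hq hqn => h.gp_pos hq hqn
    have hLe1 : Le ≤ e ∧ 0 < Le := by
      have h1 : Le ∣ ∏ q ∈ e.primeFactors, G q := by
        rw [hLe]
        exact Finset.lcm_dvd fun q hq => dvd_prod_of_mem _ hq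
      have h2 : 0 < ∏ q ∈ e.primeFactors, G q := by
        apply prod_pos
        intro q hq
        rw [Nat.mem_primeFactors] at hq
        exact hGpos q hq.1 (hq.2.1.trans hen)
      have h3 : ∏ q ∈ e.primeFactors, G q ≤ e := by
        calc ∏ q ∈ e.primeFactors, G q ≤ ∏ q ∈ e.primeFactors, q := by
              apply prod_le_prod' fun q hq => ?_
              have hq' := Nat.prime_of_mem_primeFactors hq
              have := Nat.le_of_dvd (by have := hq'.two_le; omega)
                (Nat.gcd_dvd_left (q - 1) (n - 1))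
              show Nat.gcd (q - 1) (n - 1) ≤ q
              omega
          _ ≤ e := Nat.le_of_dvd (by omega) (Nat.prod_primeFactors_dvd e)
      exact ⟨(Nat.le_of_dvd h2 h1).trans h3, Nat.pos_of_dvd_of_pos h1 h2⟩
    have hLd0 : 0 < Ld := by
      have h1 : Ld ∣ ∏ q ∈ d.primeFactors, G q := by
        rw [hLd]
        exact Finset.lcm_dvd fun q hq => dvd_prod_of_mem _ hq
      have h2 : 0 < ∏ q ∈ d.primeFactors, G q := by
        apply prod_pos
        intro q hq
        rw [Nat.mem_primeFactors] at hq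
        exact hGpos q hq.1 (hq.2.1.trans hdn)
      exact Nat.pos_of_dvd_of_pos h1 h2
    have hLdle : (x : ℝ) ^ (4 / 300 : ℝ) ≤ Ld := by
      have h1 := Nat.le_of_dvd (Nat.mul_pos hLd0 hLe1.2) hdvd
      have h2 : L ≤ Ld * e := h1.trans (Nat.mul_le_mul_left _ hLe1.1)
      have h3 : (L : ℝ) ≤ Ld * e := by exact_mod_cast h2
      have h4 : (Ld : ℝ) * e ≤ Ld * (x : ℝ) ^ (4 / 300 : ℝ) :=
        mul_le_mul_of_nonneg_left hele (Nat.cast_nonneg _)
      have h5 : (x : ℝ) ^ (8 / 300 : ℝ) = (x : ℝ) ^ (4 / 300 : ℝ) * (x : ℝ) ^ (4 / 300 : ℝ) := by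
        rw [← rpow_add hxpos]; norm_num
      rw [h5] at hbig
      have h6 : (x : ℝ) ^ (4 / 300 : ℝ) * (x : ℝ) ^ (4 / 300 : ℝ) ≤
          Ld * (x : ℝ) ^ (4 / 300 : ℝ) := by linarith
      exact le_of_mul_le_mul_right h6 (by positivity)
    refine ⟨d, e, Ld, hnde, ?_, hd2, he2, hele, ?_, hLdle, ?_⟩
    · -- membership
      rcases Nat.even_or_odd ((E.filter (fun q => q ∣ d)).card) with hev | hod
      · exact mem_Rx_of_Dx (h.even_mem hdn hev)
      · have hne : (E.filter (fun q => q ∣ d)).Nonempty := by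
          rw [← Finset.card_pos]; exact hod.pos
        obtain ⟨q, hq⟩ := hne
        rw [mem_filter] at hq
        obtain ⟨hqE, d', hd'⟩ := hq
        obtain ⟨hqp, hqn⟩ := h.E_sub q hqE
        have hd'n : d' ∣ n := (Dvd.intro_left q hd'.symm).trans hdn
        have hfil : E.filter (fun r => r ∣ d') = (E.filter (fun r => r ∣ d)).erase q := by
          ext r
          rw [mem_erase, mem_filter, mem_filter]
          constructor
          · rintro ⟨a, b⟩
            refine ⟨?_, a, by rw [hd']; exact b.mul_left q⟩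
            rintro rfl
            have h2 : r * r ∣ n := by
              refine Dvd.dvd.trans ?_ hdn
              rw [hd']
              exact Nat.mul_dvd_mul dvd_rfl b
            exact hqp.one_lt.ne' (Nat.isUnit_iff.mp (h.sq r h2))
          · rintro ⟨a, b, c⟩
            refine ⟨b, ?_⟩
            have hr := h.E_sub r b
            rw [hd'] at c
            rcases hr.1.dvd_mul.mp c with h2 | h2
            · exact absurd ((Nat.prime_dvd_prime_iff_eq hr.1 hqp).mp h2) a
            · exact h2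
        have hev : Even ((E.filter (fun r => r ∣ d')).card) := by
          rw [hfil, card_erase_of_mem (mem_filter.mpr ⟨hqE, d', hd'⟩)]
          obtain ⟨c, hc⟩ := hod
          rw [hc]
          exact ⟨c, by omega⟩
        rw [mem_Rx]
        refine ⟨⟨hd0, (h.dvd_facts hdn).2.1⟩, Or.inr ⟨q, d', hqp, (h.dvd_facts hqn).2.2.1, hd',
          h.even_mem hd'n hev, Or.inl (hsm q hqp hqn)⟩⟩
    · rw [Nat.mem_divisors]
      refine ⟨?_, (Nat.totient_pos.mpr (by omega)).ne'⟩
      rw [hLd]
      apply Finset.lcm_dvd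
      intro q hq
      rw [Nat.mem_primeFactors] at hq
      have h1 := Nat.totient_dvd_of_dvd hq.2.1
      rw [Nat.totient_prime hq.1] at h1
      exact (Nat.gcd_dvd_left _ _).trans h1
    · rw [← hnde]
      apply h.modeq
      rw [hLd]
      exact Finset.lcm_dvd fun q _ => Nat.gcd_dvd_right _ _
  · -- the second smooth class
    right
    obtain ⟨b, hb⟩ := h.E_ne
    obtain ⟨hbp, hbn⟩ := h.E_sub b hb
    have hL1 : 1 ≤ L := by
      have h1 : L ∣ ∏ q ∈ n.primeFactors, G q := by
        rw [hL]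
        exact Finset.lcm_dvd fun q hq => dvd_prod_of_mem _ hq
      have h2 : 0 < ∏ q ∈ n.primeFactors, G q := by
        apply prod_pos
        intro q hq
        rw [Nat.mem_primeFactors] at hq
        exact h.gp_pos hq.1 hq.2.1
      exact Nat.pos_of_dvd_of_pos h1 h2
    refine ⟨h.sq, L, b, hL1, hsmall.le, hsm b hbp hbn, h.nz b hbp hbn, ?_⟩
    intro p hp hpn
    refine ⟨(h.dvd_facts hpn).2.2.1, ?_, ?_⟩
    · by_cases hpE : p ∈ E
      · exact Or.inr (h.E_same p hpE b hb)
      · exact Or.inl (h.out p hp hpn hpE)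
    · refine (h.gp p hp hpn).trans ?_
      have h1 : G p ∣ L := by
        rw [hL]
        exact Finset.dvd_lcm (Nat.mem_primeFactors.mpr ⟨hp, hpn, hn0⟩)
      have h2 : Nat.gcd (p - 1) (n - 1) ∣ Nat.gcd (p - 1) L :=
        Nat.dvd_gcd (Nat.gcd_dvd_left _ _) h1
      have h3 := Nat.le_of_dvd (Nat.gcd_pos_of_pos_right _ hL1) h2
      exact_mod_cast h3

/-- a divisor of moderate size -/
lemma small_div {x : ℕ} (hx : 2 ≤ x) {p m : ℕ} (hm1 : 1 ≤ m) (hp : (x : ℝ) ^ (1 / 300 : ℝ) < p)
    (hmp : ∀ q : ℕ, q.Prime → q ∣ m → q ≤ p) (hm : (x : ℝ) ^ (1 / 700 : ℝ) ≤ m) :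
    ∃ e : ℕ, e ∣ m ∧ (x : ℝ) ^ (1 / 700 : ℝ) ≤ e ∧ e ≤ p := by
  have hxpos : (0 : ℝ) < x := by exact_mod_cast (by omega : 0 < x)
  have hx1' : (1 : ℝ) < x := by exact_mod_cast (by omega : 1 < x)
  obtain ⟨e, he1, he2, he3⟩ := exists_div m ((x : ℝ) ^ (1 / 700 : ℝ)) hm1 hm
  refine ⟨e, he1, he2, ?_⟩
  have he1' : (1 : ℝ) < e := lt_of_lt_of_le (one_lt_rpow hx1' (by norm_num)) he2
  have he1n : 1 < e := by exact_mod_cast he1'
  by_cases hep : e.Prime
  · exact hmp e hep he1
  · have hr := Nat.minFac_prime (show e ≠ 1 by omega)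
    have hre := Nat.minFac_dvd e
    have h1 := he3 _ hr hre
    have h2 := Nat.minFac_le_div (by omega : 0 < e) hep
    have h3 : (e : ℝ) = (e.minFac : ℝ) * ((e / e.minFac : ℕ) : ℝ) := by
      have : e.minFac * (e / e.minFac) = e := Nat.mul_div_cancel' hre
      exact_mod_cast this.symm
    have h4 : ((e.minFac : ℕ) : ℝ) ≤ ((e / e.minFac : ℕ) : ℝ) := by exact_mod_cast h2
    have h5 : (e : ℝ) ≤ p := by
      refine le_trans ?_ hp.le
      rw [h3]
      calc (e.minFac : ℝ) * ((e / e.minFac : ℕ) : ℝ) ≤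
          (x : ℝ) ^ (1 / 700 : ℝ) * (x : ℝ) ^ (1 / 700 : ℝ) :=
            mul_le_mul (h4.trans h1.le) h1.le (Nat.cast_nonneg _) (by positivity)
        _ = (x : ℝ) ^ (1 / 700 + 1 / 700 : ℝ) := by rw [← rpow_add hxpos]
        _ ≤ _ := rpow_le_rpow_of_exponent_le hx1'.le (by norm_num)
    exact_mod_cast h5

theorem cases_large : ∃ x0 : ℕ, ∀ x : ℕ, x0 ≤ x → ∀ (n : ℕ) (E : Finset ℕ), Dat x n E →
    ∀ p : ℕ, p.Prime → p ∣ n → (∀ q : ℕ, q.Prime → q ∣ n → q ≤ p) →
    (x : ℝ) ^ (1 / 300 : ℝ) < p → IsAC x n ∨ IsB x n ∨ IsD1 x n ∨ IsD2 x n := by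
  classical
  refine ⟨2, ?_⟩
  intro x hx n E h p hp hpn hmax hpx
  have hxpos : (0 : ℝ) < x := by exact_mod_cast (by omega : 0 < x)
  have hx1' : (1 : ℝ) < x := by exact_mod_cast (by omega : 1 < x)
  have hp700 : (x : ℝ) ^ (1 / 700 : ℝ) ≤ p :=
    (rpow_le_rpow_of_exponent_le hx1'.le (by norm_num)).trans hpx.le
  have hp5 : (x : ℝ) ^ (1 / 100000 : ℝ) ≤ p :=
    (rpow_le_rpow_of_exponent_le hx1'.le (by norm_num)).trans hpx.le
  obtain ⟨m, hnm⟩ := hpn
  have hpn : p ∣ n := ⟨m, hnm⟩
  have hmn : m ∣ n := Dvd.intro_left p hnm.symm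
  have hm2 := h.big p m hp hnm
  have hfm := h.filter_prime hp hnm
  -- the case of a prime with a large group as the only prime of minimal level
  have hB : ∀ q : ℕ, q ∈ E → E = {q} → ¬ Sm x (1 / 100000) q →
      (x : ℝ) ^ (1 / 100000 : ℝ) ≤ q → IsB x n := by
    intro q hqE hE hSm hqx
    obtain ⟨hq, r, hr⟩ := h.E_sub q hqE
    have hqn : q ∣ n := ⟨r, hr⟩
    have hrn : r ∣ n := Dvd.intro_left q hr.symm
    have hr2 := h.big q r hq hr
    have hfr := h.filter_prime hq hr
    have hrD : r ∈ Dx x := by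
      apply h.even_mem hrn
      rw [hfr, hE]
      simp
    refine ⟨r, q, Nat.gcd (q - 1) (n - 1), by rw [hr, mul_comm], hrD, hr2, hq.two_le, hqx, ?_, ?_,
      ?_⟩
    · rw [Nat.mem_divisors]
      exact ⟨h.gcd_cofactor hq hr, by omega⟩
    · exact ((Nat.modEq_iff_dvd' hq.one_lt.le).mpr (Nat.gcd_dvd_left _ _)).symm
    · by_contra hc
      push Not at hc
      exact hSm ⟨_, h.gp_pos hq hqn, hc.le, h.lv q hq hqn⟩
  -- splitting off a prime of minimal level from `m`
  have hsplit : ∀ q ∈ E, q ≠ p → ∃ m' : ℕ, m = q * m' ∧ m' ∣ n ∧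
      E.filter (fun r => r ∣ m') = (E.erase p).erase q := by
    intro q hqE hqp
    obtain ⟨hq, hqn⟩ := h.E_sub q hqE
    have hqm : q ∣ m := by
      rw [hnm] at hqn
      rcases hq.dvd_mul.mp hqn with h2 | h2
      · exact absurd ((Nat.prime_dvd_prime_iff_eq hq hp).mp h2) hqp
      · exact h2
    obtain ⟨m', hm'⟩ := hqm
    refine ⟨m', hm', (Dvd.intro_left q hm'.symm).trans hmn, ?_⟩
    exact h.filter_two hp hq (by rw [hnm, hm'])
  have hmRx : ∀ q m' : ℕ, q.Prime → q ∣ n → m = q * m' → m' ∈ Dx x →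
      Ex x (1 / 100000) (1 / 100000) m' q → m ∈ Rx x (1 / 100000) (1 / 100000) := by
    intro q m' hq hqn hm' hD hEx
    rw [mem_Rx]
    exact ⟨⟨by omega, (h.dvd_facts hmn).2.1⟩,
      Or.inr ⟨q, m', hq, (h.dvd_facts hqn).2.2.1, hm', hD, hEx⟩⟩
  by_cases hpE : p ∈ E
  · -- `p` is of minimal level
    have hcard : (E.erase p).card = E.card - 1 := card_erase_of_mem hpE
    have hE1 : 1 ≤ E.card := Finset.card_pos.mpr h.E_ne
    by_cases hk1 : E.card = 1
    · have hE : E = {p} := by
        obtain ⟨q, hq⟩ := card_eq_one.mp hk1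
        rw [hq, mem_singleton] at hpE
        rw [hq, hpE]
      by_cases hSm : Sm x (1 / 100000) p
      · -- a divisor of the cofactor
        left
        have hm1 : (x : ℝ) ^ (1 / 700 : ℝ) ≤ m := by
          have h1 := h.gp p hp hpn
          have h2 := Nat.le_of_dvd (by omega) (h.gcd_cofactor hp hnm)
          have h3 : ((Nat.gcd (p - 1) (n - 1) : ℕ) : ℝ) ≤ m := by
            exact_mod_cast (by omega : Nat.gcd (p - 1) (n - 1) ≤ m)
          refine le_trans ?_ (h1.trans h3)
          have h4 := rpow_le_rpow (by positivity) hpx.le (show (0 : ℝ) ≤ 1 / 2 - 1 / 100 by norm_num)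
          refine le_trans ?_ h4
          rw [← rpow_mul hxpos.le]
          exact rpow_le_rpow_of_exponent_le hx1'.le (by norm_num)
        obtain ⟨e, he1, he2, he3⟩ := small_div hx (by omega : 1 ≤ m) hpx
          (fun q hq hqm => hmax q hq (hqm.trans hmn)) hm1
        obtain ⟨f, hf⟩ := he1
        have hen : e ∣ n := (Dvd.intro f hf.symm).trans hmn
        have hfn : f ∣ n := (Dvd.intro_left e hf.symm).trans hmn
        have hnd : n = (p * f) * e := by rw [hnm, hf]; ring
        have hpfn : p * f ∣ n := ⟨e, hnd⟩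
        have hnot : ∀ c : ℕ, c ∣ m → Even ((E.filter (fun q => q ∣ c)).card) := by
          intro c hc
          have : E.filter (fun q => q ∣ c) = ∅ := by
            rw [filter_eq_empty_iff]
            intro q hq hqc
            have h1 : q ∈ E.filter (fun r => r ∣ m) := mem_filter.mpr ⟨hq, hqc.trans hc⟩
            rw [hfm, hE] at h1
            simp at h1
          rw [this]; simp
        have hfD : f ∈ Dx x := h.even_mem hfn (hnot f (Dvd.intro_left e hf.symm))
        have heD : e ∈ Dx x := h.even_mem hen (hnot e (Dvd.intro f hf.symm))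
        apply h.AC_C hp hnd (Dvd.intro f rfl) _ he2 he3 (mem_Dx.mp heD).2.2.2
        rw [mem_Rx]
        exact ⟨⟨(h.dvd_facts hpfn).1, (h.dvd_facts hpfn).2.1⟩,
          Or.inr ⟨p, f, hp, (h.dvd_facts hpn).2.2.1, rfl, hfD, Or.inr (Or.inl hSm)⟩⟩
      · right; left
        exact hB p hpE hE hSm hp5
    · -- another prime of minimal level
      have hne : (E.erase p).Nonempty := by
        rw [← Finset.card_pos, hcard]; omega
      obtain ⟨q, hq⟩ := hne
      rw [mem_erase] at hq
      obtain ⟨hqp, hqE⟩ := hq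
      obtain ⟨hqpr, hqn⟩ := h.E_sub q hqE
      obtain ⟨m', hm', hm'n, hfm'⟩ := hsplit q hqE hqp
      have hcard2 : ((E.erase p).erase q).card = E.card - 2 := by
        rw [card_erase_of_mem (mem_erase.mpr ⟨hqp, hqE⟩), hcard]; omega
      have hqm : q ∈ m.primeFactors :=
        Nat.mem_primeFactors.mpr ⟨hqpr, ⟨m', hm'⟩, by omega⟩
      rcases Nat.even_or_odd E.card with hev | hod
      · -- even
        have hm'D : m' ∈ Dx x := by
          apply h.even_mem hm'n
          rw [hfm', hcard2]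
          obtain ⟨c, hc⟩ := hev
          exact ⟨c - 1, by omega⟩
        by_cases hk2 : E.card = 2
        · have hE2 : ∀ r ∈ E, r = p ∨ r = q := by
            intro r hr
            by_contra hc
            push Not at hc
            have h1 : r ∈ (E.erase p).erase q := by
              rw [mem_erase, mem_erase]; exact ⟨hc.2, hc.1, hr⟩
            have h2 := Finset.card_pos.mpr ⟨r, h1⟩
            omega
          by_cases hm'x : (x : ℝ) ^ (1 / 700 : ℝ) ≤ m'
          · -- a divisor of the cofactor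
            left
            obtain ⟨e, he1, he2, he3⟩ := small_div hx (h.dvd_facts hm'n).1 hpx
              (fun r hr hrm => hmax r hr (hrm.trans hm'n)) hm'x
            obtain ⟨f, hf⟩ := he1
            have hem' : e ∣ m' := Dvd.intro f hf.symm
            have hen : e ∣ n := hem'.trans hm'n
            have hnd : n = (p * q * f) * e := by rw [hnm, hm', hf]; ring
            have hpfn : p * q * f ∣ n := ⟨e, hnd⟩
            have heD : e ∈ Dx x := by
              apply h.even_mem hen
              have : E.filter (fun r => r ∣ e) = ∅ := by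
                rw [filter_eq_empty_iff]
                intro r hr hre
                have h1 : r ∈ E.filter (fun r => r ∣ m') := mem_filter.mpr ⟨hr, hre.trans hem'⟩
                rw [hfm'] at h1
                have h2 := Finset.card_pos.mpr ⟨r, h1⟩
                omega
              rw [this]; simp
            have hdD : p * q * f ∈ Dx x := by
              apply h.even_mem hpfn
              have : E.filter (fun r => r ∣ p * q * f) = E := by
                rw [filter_eq_self]
                intro r hr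
                rcases hE2 r hr with h1 | h1
                · rw [h1, mul_assoc]; exact Dvd.intro _ rfl
                · rw [h1]; exact (dvd_mul_left q p).mul_right f
              rw [this]; exact hev
            exact h.AC_C hp hnd (by rw [mul_assoc]; exact Dvd.intro _ rfl)
              (mem_Rx_of_Dx hdD) he2 he3 (mem_Dx.mp heD).2.2.2
          · push Not at hm'x
            have hqltp : q < p := lt_of_le_of_ne (hmax q hqpr hqn) hqp
            have hsame := h.E_same p hpE q hqE
            by_cases hm1 : m' = 1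
            · -- two primes
              right; right; left
              rw [hm1, mul_one] at hm'
              rw [hm'] at hnm
              refine ⟨p, q, Nat.gcd (p - 1) (n - 1), hnm, hp, hqpr, hqltp,
                (h.dvd_facts hpn).2.2.1, (h.dvd_facts hqn).2.2.1, hsame, h.nz q hqpr hqn,
                Nat.gcd_dvd_left _ _, h.gcd_cofactor hp hnm, h.gp p hp hpn, h.lv p hp hpn⟩
            · right; right; right
              have hm'1 := (h.dvd_facts hm'n).1
              have hn2 : n = q * (p * m') := by rw [hnm, hm']; ring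
              refine ⟨p, q, m', Nat.gcd (p - 1) (n - 1), Nat.gcd (q - 1) (n - 1),
                by rw [hnm, hm']; ring, hp, hqpr, hqltp, by omega, ?_, Nat.gcd_dvd_left _ _, ?_,
                Nat.gcd_dvd_left _ _, h.gcd_cofactor hqpr hn2, h.lv p hp hpn, h.lv q hqpr hqn,
                h.gp p hp hpn, h.gp q hqpr hqn⟩
              · exact hm'x.le.trans (rpow_le_rpow_of_exponent_le hx1'.le (by norm_num))
              · rw [← hm']; exact h.gcd_cofactor hp hnm
        · -- at least four
          left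
          have hne2 : ((E.erase p).erase q).Nonempty := by
            rw [← Finset.card_pos, hcard2]
            obtain ⟨c, hc⟩ := hev
            omega
          obtain ⟨q', hq'⟩ := hne2
          rw [← hfm', mem_filter] at hq'
          have hq'p := h.E_sub q' hq'.1
          exact h.AC_A hp hnm (hmRx q m' hqpr hqn hm' hm'D
            (Or.inr (Or.inr ⟨q', hq'p.1, hq'.2, h.E_same q hqE q' hq'.1⟩))) hp700
            (h.E_same p hpE q hqE) (h.nz q hqpr hqn) (Or.inr hqm)
      · -- odd
        left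
        have hmD : m ∈ Dx x := by
          apply h.even_mem hmn
          rw [hfm, hcard]
          obtain ⟨c, hc⟩ := hod
          exact ⟨c, by omega⟩
        exact h.AC_A hp hnm (mem_Rx_of_Dx hmD) hp700 (h.E_same p hpE q hqE) (h.nz q hqpr hqn)
          (Or.inr hqm)
  · -- `p` is not of minimal level
    have hp1 := h.out p hp hpn hpE
    have hErase : E.erase p = E := erase_eq_of_notMem hpE
    rw [hErase] at hfm
    rcases Nat.even_or_odd E.card with hev | hod
    · left
      have hmD : m ∈ Dx x := by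
        apply h.even_mem hmn
        rw [hfm]; exact hev
      exact h.AC_A hp hnm (mem_Rx_of_Dx hmD) hp700 hp1 (nz_one x) (Or.inl rfl)
    · obtain ⟨q, hqE⟩ := h.E_ne
      obtain ⟨hqpr, hqn⟩ := h.E_sub q hqE
      have hqp : q ≠ p := fun h => hpE (h ▸ hqE)
      obtain ⟨m', hm', hm'n, hfm'⟩ := hsplit q hqE hqp
      rw [hErase] at hfm'
      have hm'D : m' ∈ Dx x := by
        apply h.even_mem hm'n
        rw [hfm', card_erase_of_mem hqE]
        obtain ⟨c, hc⟩ := hod
        exact ⟨c, by omega⟩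
      by_cases hk1 : E.card = 1
      · by_cases hEx : (q : ℝ) ≤ (x : ℝ) ^ (1 / 100000 : ℝ) ∨ Sm x (1 / 100000) q
        · left
          refine h.AC_A hp hnm (hmRx q m' hqpr hqn hm' hm'D ?_) hp700 hp1 (nz_one x) (Or.inl rfl)
          rcases hEx with h1 | h1
          · exact Or.inl h1
          · exact Or.inr (Or.inl h1)
        · push Not at hEx
          right; left
          apply hB q hqE _ hEx.2 hEx.1.le
          obtain ⟨r, hr⟩ := card_eq_one.mp hk1
          rw [hr, mem_singleton] at hqE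
          rw [hr, hqE]
      · left
        have hne2 : (E.erase q).Nonempty := by
          rw [← Finset.card_pos, card_erase_of_mem hqE]
          have := Finset.card_pos.mpr ⟨q, hqE⟩
          omega
        obtain ⟨q', hq'⟩ := hne2
        rw [← hfm', mem_filter] at hq'
        have hq'p := h.E_sub q' hq'.1
        exact h.AC_A hp hnm (hmRx q m' hqpr hqn hm' hm'D
          (Or.inr (Or.inr ⟨q', hq'p.1, hq'.2, h.E_same q hqE q' hq'.1⟩))) hp700
          hp1 (nz_one x) (Or.inl rfl)

end Pool.Agent.L0h54.EX
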