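import Pool.Agent.L0h54.EX.Rset

set_option autoImplicit false

/-! The main class: a divisor with known symbols in a known residue class. -/

namespace Pool.Agent.L0h54.EX

open Finset Real Pool.Agent.W57.SW

/-- possible moduli -/
def Gm (d : ℕ) : Finset ℕ := (d - 1).divisors ∪ d.primeFactors.biUnion (fun p => (p - 1).divisors)

lemma log_fac (ε : ℝ) (hε : 0 < ε) {x : ℝ} (hx : 1 ≤ x) :
    1 + 2 * log x ≤ (1 + 2 / ε) * x ^ ε := by
  have h1 := log_le_rpow_div (by linarith : 0 ≤ x) hε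
  have h2 : 1 ≤ x ^ ε := one_le_rpow hx hε.le
  have h3 : 2 * (x ^ ε / ε) = 2 / ε * x ^ ε := by ring
  linarith

lemma pf_card {d x : ℕ} (hd : 1 ≤ d) (hdx : d ≤ x) : (d.primeFactors.card : ℝ) ≤ 2 * log x := by
  have h6 := card_pf_le hd
  have h7 : log (d : ℝ) ≤ log x :=
    log_le_log (by exact_mod_cast hd) (by exact_mod_cast hdx)
  have : 0 ≤ log (x : ℝ) := log_natCast_nonneg x
  nlinarith

lemma Gm_card (ε : ℝ) (hε : 0 < ε) : ∃ K : ℝ, 0 < K ∧ ∀ x d : ℕ, 2 ≤ d → d ≤ x →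
    (((Gm d) ×ˢ (insert 1 d.primeFactors)).card : ℝ) ≤ K * (x : ℝ) ^ ε := by
  obtain ⟨C, hC, hdiv⟩ := Helper112.divisor_bound (ε / 4) (by positivity)
  refine ⟨C * (1 + 2 / (ε / 4)) ^ 2, by positivity, ?_⟩
  intro x d hd hdx
  have hx1 : (1 : ℝ) ≤ x := by exact_mod_cast (by omega : 1 ≤ x)
  have hx0 : (0 : ℝ) < x := by linarith
  obtain ⟨D, hD⟩ : ∃ D : ℝ, D = C * (x : ℝ) ^ (ε / 4) := ⟨_, rfl⟩
  obtain ⟨L, hL⟩ : ∃ L : ℝ, L = log (x : ℝ) := ⟨_, rfl⟩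
  have hL0 : 0 ≤ L := by rw [hL]; exact log_natCast_nonneg x
  have hdv : ∀ m : ℕ, 1 ≤ m → m ≤ x → (m.divisors.card : ℝ) ≤ D := by
    intro m hm hmx
    refine (hdiv m hm).trans ?_
    rw [hD]
    apply mul_le_mul_of_nonneg_left _ hC.le
    exact rpow_le_rpow (Nat.cast_nonneg _) (by exact_mod_cast hmx) (by positivity)
  have hpf := pf_card (by omega : 1 ≤ d) hdx
  rw [← hL] at hpf
  have hD0 : 0 ≤ D := by rw [hD]; positivity
  have h1 : ((Gm d).card : ℝ) ≤ D * (1 + 2 * L) := by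
    have e1 : (Gm d).card ≤ (d - 1).divisors.card + ∑ p ∈ d.primeFactors, (p - 1).divisors.card := by
      rw [Gm]
      exact (card_union_le _ _).trans (Nat.add_le_add_left card_biUnion_le _)
    have e2 : ((Gm d).card : ℝ) ≤ ((d - 1).divisors.card : ℝ) +
        ∑ p ∈ d.primeFactors, ((p - 1).divisors.card : ℝ) := by exact_mod_cast e1
    have e3 : ∑ p ∈ d.primeFactors, ((p - 1).divisors.card : ℝ) ≤ ∑ _p ∈ d.primeFactors, D := by
      apply sum_le_sum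
      intro p hp
      rw [Nat.mem_primeFactors] at hp
      have := hp.1.two_le
      have := Nat.le_of_dvd (by omega) hp.2.1
      exact hdv _ (by omega) (by omega)
    rw [sum_const, nsmul_eq_mul] at e3
    have e4 := hdv (d - 1) (by omega) (by omega)
    have e5 : (d.primeFactors.card : ℝ) * D ≤ 2 * L * D := mul_le_mul_of_nonneg_right hpf hD0
    linarith
  have h2 : ((insert 1 d.primeFactors).card : ℝ) ≤ 1 + 2 * L := by
    have e1 := card_insert_le 1 d.primeFactors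
    have e2 : ((insert 1 d.primeFactors).card : ℝ) ≤ d.primeFactors.card + 1 := by
      exact_mod_cast e1
    linarith
  have h3 := log_fac (ε / 4) (by positivity) hx1
  rw [← hL] at h3
  rw [card_product]
  push_cast
  calc ((Gm d).card : ℝ) * ((insert 1 d.primeFactors).card : ℝ) ≤
      (D * (1 + 2 * L)) * (1 + 2 * L) := mul_le_mul h1 h2 (Nat.cast_nonneg _) (by positivity)
    _ = D * ((1 + 2 * L) * (1 + 2 * L)) := by ring
    _ ≤ D * (((1 + 2 / (ε / 4)) * (x : ℝ) ^ (ε / 4)) * ((1 + 2 / (ε / 4)) * (x : ℝ) ^ (ε / 4))) := by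
        apply mul_le_mul_of_nonneg_left _ hD0
        exact mul_le_mul h3 h3 (by positivity) (by positivity)
    _ = C * (1 + 2 / (ε / 4)) ^ 2 * ((x : ℝ) ^ (ε / 4) * (x : ℝ) ^ (ε / 4) * (x : ℝ) ^ (ε / 4)) := by
        rw [hD]; ring
    _ = C * (1 + 2 / (ε / 4)) ^ 2 * (x : ℝ) ^ (ε / 4 + ε / 4 + ε / 4) := by
        rw [rpow_add hx0, rpow_add hx0]
    _ ≤ _ := by
        apply mul_le_mul_of_nonneg_left _ (by positivity)
        exact rpow_le_rpow_of_exponent_le hx1 (by linarith)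

/-- the numbers in the main class -/
def IsAC (x n : ℕ) : Prop := ∃ d e g b : ℕ, n = d * e ∧ d ∈ Rx x (1 / 100000) (1 / 100000) ∧
  2 ≤ d ∧ (x : ℝ) ^ (1 / 700 : ℝ) ≤ e ∧ Odd e ∧ Same x e b ∧ Nz x b ∧
  (b = 1 ∨ b ∈ d.primeFactors) ∧ d * e ≡ 1 [MOD g] ∧ (e : ℝ) ^ (1 / 2 - 1 / 100 : ℝ) ≤ g ∧ g ∈ Gm d

lemma eps_bound : ((1 : ℝ) / 2 + 1 / 100) * (3 / 4 + 1 / 100) ≤ 39 / 100 := by norm_num

theorem clsAC : ∃ K : ℝ, 0 < K ∧ ∃ x0 : ℕ, ∀ x : ℕ, x0 ≤ x → ∀ S : Finset ℕ,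
    (∀ n ∈ S, (x : ℝ) / 2 < n ∧ n ≤ x ∧ IsAC x n) →
    (S.card : ℝ) ≤ K * (x : ℝ) ^ (1 / 2 - 1 / 20000 : ℝ) := by
  classical
  obtain ⟨K1, hK1, x1, hx1⟩ := rank_Rx (1 / 100000) (by norm_num) (by norm_num)
  obtain ⟨K2, hK2, hG⟩ := Gm_card (1 / 100000) (by norm_num)
  obtain ⟨x2, hx2⟩ := lin (1 / 100) (by norm_num) (by norm_num)
  obtain ⟨C, hC, hQ⟩ := Qsum (1 / 2 + 2 * (1 / 100000)) (39 / 100) (1 / 2 + 3 * (1 / 100000))
    (1 / 700) (by norm_num) (by norm_num) (by norm_num)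
  obtain ⟨K3, hK3⟩ : ∃ K3 : ℝ, K3 = 1 + 2 / (1 / 100000 : ℝ) := ⟨_, rfl⟩
  have hK30 : 0 < K3 := by rw [hK3]; norm_num
  refine ⟨K2 * (144 * K3) * (C * (K1 * K3)), by positivity, max (max x1 x2) 3, ?_⟩
  intro x hx S hS
  have hxx1 : x1 ≤ x := (le_max_left _ _).trans ((le_max_left _ _).trans hx)
  have hxx2 : x2 ≤ x := (le_max_right _ _).trans ((le_max_left _ _).trans hx)
  have hx3 : 3 ≤ x := (le_max_right _ _).trans hx
  have hlogx : 1 ≤ log (x : ℝ) := one_le_log hx3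
  have hxpos : (0 : ℝ) < x := by exact_mod_cast (by omega : 0 < x)
  have hx1' : (1 : ℝ) ≤ x := by exact_mod_cast (by omega : 1 ≤ x)
  obtain ⟨L, hL⟩ : ∃ L : ℝ, L = log (x : ℝ) := ⟨_, rfl⟩
  have hLK : L ≤ K3 * (x : ℝ) ^ (1 / 100000 : ℝ) := by
    have := log_fac (1 / 100000) (by norm_num) hx1'
    rw [← hL, ← hK3] at this
    rw [← hL] at hlogx
    linarith
  obtain ⟨D, hD⟩ : ∃ D : Finset ℕ, D = (Rx x (1 / 100000) (1 / 100000)).filter
      (fun d : ℕ => 2 ≤ d ∧ (d : ℝ) * (x : ℝ) ^ (1 / 700 : ℝ) ≤ x) := ⟨_, rfl⟩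
  have hcov := cover_count S D (fun d => ((Gm d) ×ˢ (insert 1 d.primeFactors)).filter
      (fun gb => ((x : ℝ) / (2 * d)) ^ (1 / 2 - 1 / 100 : ℝ) ≤ gb.1 ∧ Nz x gb.2))
    (fun d gb => (Icc 1 ⌊(x : ℝ) / d⌋₊).filter
      (fun e => Odd e ∧ Same x e gb.2 ∧ d * e ≡ 1 [MOD gb.1])) (fun d _ e => d * e) (by
      intro n hn
      obtain ⟨h1, h2, d, e, g, b, h3, h4, h5, h6, h7, h8, h9, h10, h11, h12, h13⟩ := hS n hn
      have hd0 : (0 : ℝ) < d := by exact_mod_cast (by omega : 0 < d)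
      have he0 : 1 ≤ e := by
        rcases Nat.eq_zero_or_pos e with h | h
        · rw [h] at h7; exact absurd h7 (by decide)
        · exact h
      have he1 : (0 : ℝ) < e := by exact_mod_cast he0
      have hde : (d : ℝ) * e ≤ x := by
        have : d * e ≤ x := by rw [← h3]; exact h2
        exact_mod_cast this
      refine ⟨d, ?_, (g, b), ?_, e, ?_, h3.symm⟩
      · rw [hD, mem_filter]
        refine ⟨h4, h5, ?_⟩
        exact (mul_le_mul_of_nonneg_left h6 hd0.le).trans hde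
      · rw [mem_filter, mem_product, mem_insert]
        refine ⟨⟨h13, h10⟩, ?_, h9⟩
        refine le_trans ?_ h12
        apply rpow_le_rpow (by positivity) _ (by norm_num)
        rw [div_le_iff₀ (by positivity)]
        rw [h3] at h1
        push_cast at h1
        linarith
      · rw [mem_filter, mem_Icc]
        refine ⟨⟨he0, Nat.le_floor ?_⟩, h7, h8, h11⟩
        rw [le_div_iff₀ hd0]
        linarith)
  have hDm : ∀ d ∈ D, 2 ≤ d ∧ d ≤ x ∧ (d : ℝ) * (x : ℝ) ^ (1 / 700 : ℝ) ≤ x ∧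
      d ∈ Rx x (1 / 100000) (1 / 100000) := by
    intro d hd
    rw [hD, mem_filter] at hd
    exact ⟨hd.2.1, (mem_Rx.mp hd.1).1.2, hd.2.2, hd.1⟩
  -- the number of `e`
  have hE : ∀ d ∈ D, ∀ gb ∈ ((Gm d) ×ˢ (insert 1 d.primeFactors)).filter
      (fun gb => ((x : ℝ) / (2 * d)) ^ (1 / 2 - 1 / 100 : ℝ) ≤ gb.1 ∧ Nz x gb.2),
      (((Icc 1 ⌊(x : ℝ) / d⌋₊).filter
        (fun e => Odd e ∧ Same x e gb.2 ∧ d * e ≡ 1 [MOD gb.1])).card : ℝ) ≤
      144 * L * ((x : ℝ) / d) ^ (39 / 100 : ℝ) := by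
    intro d hd gb hgb
    obtain ⟨hd2, hdx, _, _⟩ := hDm d hd
    rw [mem_filter, mem_product] at hgb
    obtain ⟨⟨hg, hb⟩, hgl, hbz⟩ := hgb
    have hd0 : (0 : ℝ) < d := by exact_mod_cast (by omega : 0 < d)
    obtain ⟨y, hy⟩ : ∃ y : ℝ, y = (x : ℝ) / d := ⟨_, rfl⟩
    have hy1 : 1 ≤ y := by
      rw [hy, one_le_div hd0]; exact_mod_cast hdx
    have hy0 : 0 < y := by linarith
    have hgx : 1 ≤ gb.1 ∧ gb.1 ≤ x := by
      rw [Gm, mem_union, mem_biUnion] at hg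
      rcases hg with hg | ⟨p, hp, hg⟩
      · have h1 := Nat.divisor_le hg
        have h2 := Nat.pos_of_mem_divisors hg
        omega
      · have h1 := Nat.divisor_le hg
        have h2 := Nat.pos_of_mem_divisors hg
        rw [Nat.mem_primeFactors] at hp
        have := Nat.le_of_dvd (by omega) hp.2.1
        omega
    have hg0 : (0 : ℝ) < gb.1 := by exact_mod_cast hgx.1
    rw [← hy]
    have hYx : ⌊y⌋₊ ≤ x := by
      apply Nat.floor_le_of_le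
      rw [hy]
      exact div_le_self hxpos.le (by exact_mod_cast (by omega : 1 ≤ d))
    have hbound : 48 * L * (((⌊y⌋₊ : ℕ) : ℝ) / gb.1 + 1) ^ (3 / 4 + 1 / 100 : ℝ) ≤
        144 * L * y ^ (39 / 100 : ℝ) := by
      have e1 : ((x : ℝ) / (2 * d)) = y / 2 := by rw [hy]; field_simp
      rw [e1] at hgl
      have e2 : y / gb.1 ≤ 2 * y ^ (1 / 2 + 1 / 100 : ℝ) := by
        rw [div_le_iff₀ hg0]
        have e3 : y ^ (1 / 2 - 1 / 100 : ℝ) / 2 ≤ gb.1 := by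
          refine le_trans ?_ hgl
          rw [div_rpow hy0.le (by norm_num)]
          apply div_le_div_of_nonneg_left (by positivity) (by positivity)
          calc (2 : ℝ) ^ (1 / 2 - 1 / 100 : ℝ) ≤ (2 : ℝ) ^ (1 : ℝ) :=
                rpow_le_rpow_of_exponent_le (by norm_num) (by norm_num)
            _ = 2 := rpow_one _
        have e4 : y = y ^ (1 / 2 + 1 / 100 : ℝ) * y ^ (1 / 2 - 1 / 100 : ℝ) := by
          rw [← rpow_add hy0]; norm_num
        have e5 : 0 < y ^ (1 / 2 + 1 / 100 : ℝ) := by positivity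
        calc y = y ^ (1 / 2 + 1 / 100 : ℝ) * y ^ (1 / 2 - 1 / 100 : ℝ) := e4
          _ = 2 * y ^ (1 / 2 + 1 / 100 : ℝ) * (y ^ (1 / 2 - 1 / 100 : ℝ) / 2) := by ring
          _ ≤ _ := mul_le_mul_of_nonneg_left e3 (by positivity)
      have e6 : ((⌊y⌋₊ : ℕ) : ℝ) / gb.1 + 1 ≤ 3 * y ^ (1 / 2 + 1 / 100 : ℝ) := by
        have e7 : ((⌊y⌋₊ : ℕ) : ℝ) / gb.1 ≤ y / gb.1 :=
          div_le_div_of_nonneg_right (Nat.floor_le hy0.le) hg0.le
        have e8 : 1 ≤ y ^ (1 / 2 + 1 / 100 : ℝ) := one_le_rpow hy1 (by norm_num)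
        linarith
      have e9 : (((⌊y⌋₊ : ℕ) : ℝ) / gb.1 + 1) ^ (3 / 4 + 1 / 100 : ℝ) ≤
          3 * y ^ (39 / 100 : ℝ) := by
        calc (((⌊y⌋₊ : ℕ) : ℝ) / gb.1 + 1) ^ (3 / 4 + 1 / 100 : ℝ) ≤
            (3 * y ^ (1 / 2 + 1 / 100 : ℝ)) ^ (3 / 4 + 1 / 100 : ℝ) :=
              rpow_le_rpow (by positivity) e6 (by norm_num)
          _ = 3 ^ (3 / 4 + 1 / 100 : ℝ) * y ^ ((1 / 2 + 1 / 100 : ℝ) * (3 / 4 + 1 / 100)) := by
              rw [mul_rpow (by norm_num) (by positivity), ← rpow_mul hy0.le]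
          _ ≤ 3 * y ^ (39 / 100 : ℝ) := by
              apply mul_le_mul _ _ (by positivity) (by norm_num)
              · calc (3 : ℝ) ^ (3 / 4 + 1 / 100 : ℝ) ≤ (3 : ℝ) ^ (1 : ℝ) :=
                    rpow_le_rpow_of_exponent_le (by norm_num) (by norm_num)
                  _ = 3 := rpow_one _
              · exact rpow_le_rpow_of_exponent_le hy1 eps_bound
      have hL0 : 0 ≤ L := by rw [hL]; linarith
      calc 48 * L * (((⌊y⌋₊ : ℕ) : ℝ) / gb.1 + 1) ^ (3 / 4 + 1 / 100 : ℝ) ≤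
          48 * L * (3 * y ^ (39 / 100 : ℝ)) := mul_le_mul_of_nonneg_left e9 (by positivity)
        _ = _ := by ring
    refine le_trans ?_ hbound
    rcases ((Icc 1 ⌊y⌋₊).filter
        (fun e => Odd e ∧ Same x e gb.2 ∧ d * e ≡ 1 [MOD gb.1])).eq_empty_or_nonempty with h0 | h0
    · rw [h0]
      simp only [card_empty, Nat.cast_zero]
      have hL0 : 0 ≤ L := by rw [hL]; linarith
      positivity
    · obtain ⟨e0, he0⟩ := h0
      rw [mem_filter] at he0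
      rw [hL]
      apply hx2 x hxx2 gb.1 ⌊y⌋₊ gb.2 e0 hgx.1 hgx.2 hYx hbz
      intro e he
      rw [mem_filter, mem_Icc] at he
      refine ⟨he.1.2, he.2.1, ?_, he.2.2.1⟩
      have h1 : d * e ≡ d * e0 [MOD gb.1] := he.2.2.2.trans he0.2.2.2.symm
      apply Nat.ModEq.cancel_left_of_coprime _ h1
      -- `d` is invertible
      have h2 := he0.2.2.2
      have h3 : Nat.gcd gb.1 (d * e0) = Nat.gcd gb.1 1 := by
        rw [Nat.gcd_comm gb.1, Nat.gcd_comm gb.1]; exact h2.gcd_eq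
      rw [Nat.gcd_one_right] at h3
      exact Nat.Coprime.coprime_mul_right_right h3
  have h1 : ∀ d ∈ D, ∑ gb ∈ ((Gm d) ×ˢ (insert 1 d.primeFactors)).filter
      (fun gb => ((x : ℝ) / (2 * d)) ^ (1 / 2 - 1 / 100 : ℝ) ≤ gb.1 ∧ Nz x gb.2),
      (((Icc 1 ⌊(x : ℝ) / d⌋₊).filter
        (fun e => Odd e ∧ Same x e gb.2 ∧ d * e ≡ 1 [MOD gb.1])).card : ℝ) ≤
      (K2 * (x : ℝ) ^ (1 / 100000 : ℝ) * (144 * L)) * ((x : ℝ) / d) ^ (39 / 100 : ℝ) := by
    intro d hd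
    refine (sum_le_sum (hE d hd)).trans ?_
    rw [sum_const, nsmul_eq_mul]
    obtain ⟨hd2, hdx, _, _⟩ := hDm d hd
    have h2 : ((((Gm d) ×ˢ (insert 1 d.primeFactors)).filter
      (fun gb => ((x : ℝ) / (2 * d)) ^ (1 / 2 - 1 / 100 : ℝ) ≤ gb.1 ∧ Nz x gb.2)).card : ℝ) ≤
        K2 * (x : ℝ) ^ (1 / 100000 : ℝ) := by
      refine le_trans ?_ (hG x d hd2 hdx)
      exact_mod_cast card_filter_le _ _
    have hL0 : 0 ≤ L := by rw [hL]; linarith
    calc _ ≤ K2 * (x : ℝ) ^ (1 / 100000 : ℝ) * (144 * L * ((x : ℝ) / d) ^ (39 / 100 : ℝ)) :=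
          mul_le_mul_of_nonneg_right h2 (by positivity)
      _ = _ := by ring
  have h2 := hcov.trans (sum_le_sum h1)
  rw [← mul_sum] at h2
  have h3 := hQ x hx1' D (K1 * log x * (x : ℝ) ^ (1 / 100000 / 2 : ℝ)) (by positivity) (by
    intro d hd
    obtain ⟨a1, a2, a3, _⟩ := hDm d hd
    exact ⟨by omega, a3⟩) (by
    intro X hX
    refine le_trans ?_ (hx1 x hxx1 (1 / 100000) (by norm_num) X hX)
    have : D.filter (fun d : ℕ => d ≤ X) ⊆
        (Rx x (1 / 100000) (1 / 100000)).filter (fun d : ℕ => d ≤ X) := by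
      intro d hd
      rw [mem_filter] at hd
      exact mem_filter.mpr ⟨(hDm d hd.1).2.2.2, hd.2⟩
    exact_mod_cast card_le_card this)
  have hL0 : 0 ≤ L := by rw [hL]; linarith
  have h4 := h2.trans (mul_le_mul_of_nonneg_left h3 (by positivity))
  refine h4.trans ?_
  rw [← hL]
  obtain ⟨a, ha⟩ : ∃ a : ℝ, a = (x : ℝ) ^ (1 / 100000 : ℝ) := ⟨_, rfl⟩
  obtain ⟨b, hb⟩ : ∃ b : ℝ, b = (x : ℝ) ^ (1 / 100000 / 2 : ℝ) := ⟨_, rfl⟩
  obtain ⟨c, hc⟩ : ∃ c : ℝ, c = (x : ℝ) ^ ((1 / 2 + 3 * (1 / 100000) : ℝ) -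
    1 / 700 * ((1 / 2 + 3 * (1 / 100000)) - 39 / 100)) := ⟨_, rfl⟩
  rw [← ha, ← hb, ← hc]
  rw [← ha] at hLK
  have ha0 : 0 < a := by rw [ha]; positivity
  have hb0 : 0 < b := by rw [hb]; positivity
  have hc0 : 0 < c := by rw [hc]; positivity
  have hfin : a * a * a * b * c ≤ (x : ℝ) ^ (1 / 2 - 1 / 20000 : ℝ) := by
    rw [ha, hb, hc, ← rpow_add hxpos, ← rpow_add hxpos, ← rpow_add hxpos, ← rpow_add hxpos]
    apply rpow_le_rpow_of_exponent_le hx1'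
    norm_num
  calc K2 * a * (144 * L) * (C * (K1 * L * b) * c) ≤
      K2 * a * (144 * (K3 * a)) * (C * (K1 * (K3 * a) * b) * c) := by
        apply mul_le_mul
        · exact mul_le_mul_of_nonneg_left (by linarith) (by positivity)
        · apply mul_le_mul_of_nonneg_right _ hc0.le
          apply mul_le_mul_of_nonneg_left _ hC.le
          apply mul_le_mul_of_nonneg_right _ hb0.le
          exact mul_le_mul_of_nonneg_left hLK hK1.le
        · positivity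
        · positivity
    _ = K2 * (144 * K3) * (C * (K1 * K3)) * (a * a * a * b * c) := by ring
    _ ≤ _ := mul_le_mul_of_nonneg_left hfin (by positivity)

end Pool.Agent.L0h54.EX
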