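import Pool.Agent.L0h54.EX.ClsAC

set_option autoImplicit false

/-! The class with a large group at the only prime of minimal level. -/

namespace Pool.Agent.L0h54.EX

open Finset Real Pool.Agent.W57.SW

/-- the numbers in the second class -/
def IsB (x n : ℕ) : Prop := ∃ m q g : ℕ, n = m * q ∧ m ∈ Dx x ∧ 2 ≤ m ∧ 2 ≤ q ∧
  (x : ℝ) ^ (1 / 100000 : ℝ) ≤ q ∧ g ∈ (m - 1).divisors ∧ q ≡ 1 [MOD g] ∧
  (q : ℝ) ^ (1 / 2 + 1 / 100000 : ℝ) ≤ g

lemma card_mod_one {g Y : ℕ} (hg : 1 ≤ g) (T : Finset ℕ)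
    (hT : ∀ q ∈ T, 2 ≤ q ∧ q ≤ Y ∧ q ≡ 1 [MOD g]) : (T.card : ℝ) ≤ (Y : ℝ) / g := by
  have h1 : T.card ≤ Y / g := by
    have : T.card ≤ (Icc 1 (Y / g)).card := by
      apply card_le_card_of_injOn (fun q => (q - 1) / g)
      · intro q hq
        rw [mem_coe] at hq
        obtain ⟨a1, a2, a3⟩ := hT q hq
        have h2 : g ∣ q - 1 := (Nat.modEq_iff_dvd' (by omega)).mp a3.symm
        obtain ⟨c, hc⟩ := h2
        rw [mem_coe, mem_Icc]
        simp only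
        constructor
        · rw [Nat.le_div_iff_mul_le (by omega), one_mul]
          exact Nat.le_of_dvd (by omega) ⟨c, hc⟩
        · exact Nat.div_le_div_right (by omega)
      · intro q hq q' hq' h
        rw [mem_coe] at hq hq'
        obtain ⟨a1, a2, a3⟩ := hT q hq
        obtain ⟨b1, b2, b3⟩ := hT q' hq'
        have h2 : g ∣ q - 1 := (Nat.modEq_iff_dvd' (by omega)).mp a3.symm
        have h3 : g ∣ q' - 1 := (Nat.modEq_iff_dvd' (by omega)).mp b3.symm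
        have h4 : q - 1 = q' - 1 := by
          rw [← Nat.div_mul_cancel h2, ← Nat.div_mul_cancel h3]
          simp only at h
          rw [h]
        omega
    rwa [Nat.card_Icc, Nat.add_sub_cancel] at this
  have h2 : (T.card : ℝ) ≤ ((Y / g : ℕ) : ℝ) := by exact_mod_cast h1
  exact h2.trans Nat.cast_div_le

theorem clsB : ∃ K : ℝ, 0 < K ∧ ∃ x0 : ℕ, ∀ x : ℕ, x0 ≤ x → ∀ S : Finset ℕ,
    (∀ n ∈ S, (x : ℝ) / 2 < n ∧ n ≤ x ∧ IsB x n) →
    (S.card : ℝ) ≤ K * (x : ℝ) ^ (1 / 2 - 1 / 20000000000 : ℝ) := by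
  classical
  obtain ⟨K1, hK1, hrank⟩ := rank_Dx (1 / 100000000000) (by norm_num)
  obtain ⟨K2, hK2, hdiv⟩ := Helper112.divisor_bound (1 / 100000000000) (by norm_num)
  obtain ⟨C, hC, hQ⟩ := Qsum (1 / 2 + 1 / 100000000000) (1 / 2 - 1 / 100000)
    (1 / 2 + 2 * (1 / 100000000000)) (1 / 100000) (by norm_num) (by norm_num) (by norm_num)
  refine ⟨K2 * 2 * (C * K1), by positivity, 3, ?_⟩
  intro x hx3 S hS
  have hxpos : (0 : ℝ) < x := by exact_mod_cast (by omega : 0 < x)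
  have hx1' : (1 : ℝ) ≤ x := by exact_mod_cast (by omega : 1 ≤ x)
  obtain ⟨D, hD⟩ : ∃ D : Finset ℕ, D = (Dx x).filter
      (fun d : ℕ => 2 ≤ d ∧ (d : ℝ) * (x : ℝ) ^ (1 / 100000 : ℝ) ≤ x) := ⟨_, rfl⟩
  have hcov := cover_count S D (fun m => (m - 1).divisors.filter
      (fun g : ℕ => ((x : ℝ) / (2 * m)) ^ (1 / 2 + 1 / 100000 : ℝ) ≤ (g : ℝ)))
    (fun m g => (Icc 2 ⌊(x : ℝ) / m⌋₊).filter
      (fun q => q ≡ 1 [MOD g])) (fun m _ q => m * q) (by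
      intro n hn
      obtain ⟨h1, h2, m, q, g, h3, h4, h5, h6, h7, h8, h9, h10⟩ := hS n hn
      have hd0 : (0 : ℝ) < m := by exact_mod_cast (by omega : 0 < m)
      have he1 : (0 : ℝ) < q := by exact_mod_cast (by omega : 0 < q)
      have hde : (m : ℝ) * q ≤ x := by
        have : m * q ≤ x := by rw [← h3]; exact h2
        exact_mod_cast this
      refine ⟨m, ?_, g, ?_, q, ?_, h3.symm⟩
      · rw [hD, mem_filter]
        refine ⟨h4, h5, ?_⟩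
        exact (mul_le_mul_of_nonneg_left h7 hd0.le).trans hde
      · rw [mem_filter]
        refine ⟨h8, ?_⟩
        refine le_trans ?_ h10
        apply rpow_le_rpow (by positivity) _ (by norm_num)
        rw [div_le_iff₀ (by positivity)]
        rw [h3] at h1
        push_cast at h1
        linarith
      · rw [mem_filter, mem_Icc]
        refine ⟨⟨h6, Nat.le_floor ?_⟩, h9⟩
        rw [le_div_iff₀ hd0]
        linarith)
  have hDm : ∀ d ∈ D, 2 ≤ d ∧ d ≤ x ∧ (d : ℝ) * (x : ℝ) ^ (1 / 100000 : ℝ) ≤ x ∧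
      d ∈ Dx x := by
    intro d hd
    rw [hD, mem_filter] at hd
    exact ⟨hd.2.1, (mem_Dx.mp hd.1).1.2, hd.2.2, hd.1⟩
  have hE : ∀ m ∈ D, ∀ g ∈ (m - 1).divisors.filter
      (fun g : ℕ => ((x : ℝ) / (2 * m)) ^ (1 / 2 + 1 / 100000 : ℝ) ≤ (g : ℝ)),
      (((Icc 2 ⌊(x : ℝ) / m⌋₊).filter (fun q => q ≡ 1 [MOD g])).card : ℝ) ≤
      2 * ((x : ℝ) / m) ^ (1 / 2 - 1 / 100000 : ℝ) := by
    intro m hm g hg
    obtain ⟨hd2, hdx, _, _⟩ := hDm m hm
    rw [mem_filter] at hg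
    obtain ⟨hg, hgl⟩ := hg
    have hd0 : (0 : ℝ) < m := by exact_mod_cast (by omega : 0 < m)
    obtain ⟨y, hy⟩ : ∃ y : ℝ, y = (x : ℝ) / m := ⟨_, rfl⟩
    have hy1 : 1 ≤ y := by
      rw [hy, one_le_div hd0]; exact_mod_cast hdx
    have hy0 : 0 < y := by linarith
    have hg1 := Nat.pos_of_mem_divisors hg
    have hg0 : (0 : ℝ) < g := by exact_mod_cast hg1
    rw [← hy]
    have h1 := card_mod_one (Y := ⌊y⌋₊) hg1 ((Icc 2 ⌊y⌋₊).filter (fun q => q ≡ 1 [MOD g])) (by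
      intro q hq
      rw [mem_filter, mem_Icc] at hq
      exact ⟨hq.1.1, hq.1.2, hq.2⟩)
    refine h1.trans ?_
    have e1 : ((x : ℝ) / (2 * m)) = y / 2 := by rw [hy]; field_simp
    rw [e1] at hgl
    have e7 : ((⌊y⌋₊ : ℕ) : ℝ) / g ≤ y / g :=
      div_le_div_of_nonneg_right (Nat.floor_le hy0.le) hg0.le
    refine e7.trans ?_
    rw [div_le_iff₀ hg0]
    have e3 : y ^ (1 / 2 + 1 / 100000 : ℝ) / 2 ≤ g := by
      refine le_trans ?_ hgl
      rw [div_rpow hy0.le (by norm_num)]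
      apply div_le_div_of_nonneg_left (by positivity) (by positivity)
      calc (2 : ℝ) ^ (1 / 2 + 1 / 100000 : ℝ) ≤ (2 : ℝ) ^ (1 : ℝ) :=
            rpow_le_rpow_of_exponent_le (by norm_num) (by norm_num)
        _ = 2 := rpow_one _
    have e4 : y = y ^ (1 / 2 - 1 / 100000 : ℝ) * y ^ (1 / 2 + 1 / 100000 : ℝ) := by
      rw [← rpow_add hy0]; norm_num
    calc y = y ^ (1 / 2 - 1 / 100000 : ℝ) * y ^ (1 / 2 + 1 / 100000 : ℝ) := e4
      _ = 2 * y ^ (1 / 2 - 1 / 100000 : ℝ) * (y ^ (1 / 2 + 1 / 100000 : ℝ) / 2) := by ring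
      _ ≤ _ := mul_le_mul_of_nonneg_left e3 (by positivity)
  have h1 : ∀ m ∈ D, ∑ g ∈ (m - 1).divisors.filter
      (fun g : ℕ => ((x : ℝ) / (2 * m)) ^ (1 / 2 + 1 / 100000 : ℝ) ≤ (g : ℝ)),
      (((Icc 2 ⌊(x : ℝ) / m⌋₊).filter (fun q => q ≡ 1 [MOD g])).card : ℝ) ≤
      (K2 * (x : ℝ) ^ (1 / 100000000000 : ℝ) * 2) * ((x : ℝ) / m) ^ (1 / 2 - 1 / 100000 : ℝ) := by
    intro m hm
    refine (sum_le_sum (hE m hm)).trans ?_
    rw [sum_const, nsmul_eq_mul]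
    obtain ⟨hd2, hdx, _, _⟩ := hDm m hm
    have h2 : (((m - 1).divisors.filter
      (fun g : ℕ => ((x : ℝ) / (2 * m)) ^ (1 / 2 + 1 / 100000 : ℝ) ≤ (g : ℝ))).card : ℝ) ≤
        K2 * (x : ℝ) ^ (1 / 100000000000 : ℝ) := by
      have h3 : (((m - 1).divisors.filter
        (fun g : ℕ => ((x : ℝ) / (2 * m)) ^ (1 / 2 + 1 / 100000 : ℝ) ≤ (g : ℝ))).card : ℝ) ≤
          (m - 1).divisors.card := by exact_mod_cast card_filter_le _ _
      refine h3.trans ((hdiv (m - 1) (by omega)).trans ?_)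
      apply mul_le_mul_of_nonneg_left _ hK2.le
      apply rpow_le_rpow (Nat.cast_nonneg _) _ (by norm_num)
      exact_mod_cast (by omega : m - 1 ≤ x)
    calc _ ≤ K2 * (x : ℝ) ^ (1 / 100000000000 : ℝ) *
          (2 * ((x : ℝ) / m) ^ (1 / 2 - 1 / 100000 : ℝ)) :=
          mul_le_mul_of_nonneg_right h2 (by positivity)
      _ = _ := by ring
  have h2 := hcov.trans (sum_le_sum h1)
  rw [← mul_sum] at h2
  have h3 := hQ x hx1' D K1 hK1.le (by
    intro d hd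
    obtain ⟨a1, a2, a3, _⟩ := hDm d hd
    exact ⟨by omega, a3⟩) (by
    intro X hX
    refine le_trans ?_ (hrank x X hX)
    have : D.filter (fun d : ℕ => d ≤ X) ⊆ (Dx x).filter (fun d : ℕ => d ≤ X) := by
      intro d hd
      rw [mem_filter] at hd
      exact mem_filter.mpr ⟨(hDm d hd.1).2.2.2, hd.2⟩
    exact_mod_cast card_le_card this)
  have h4 := h2.trans (mul_le_mul_of_nonneg_left h3 (by positivity))
  refine h4.trans ?_
  obtain ⟨a, ha⟩ : ∃ a : ℝ, a = (x : ℝ) ^ (1 / 100000000000 : ℝ) := ⟨_, rfl⟩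
  obtain ⟨c, hc⟩ : ∃ c : ℝ, c = (x : ℝ) ^ ((1 / 2 + 2 * (1 / 100000000000) : ℝ) -
    1 / 100000 * ((1 / 2 + 2 * (1 / 100000000000)) - (1 / 2 - 1 / 100000))) := ⟨_, rfl⟩
  rw [← ha, ← hc]
  have hfin : a * c ≤ (x : ℝ) ^ (1 / 2 - 1 / 20000000000 : ℝ) := by
    rw [ha, hc, ← rpow_add hxpos]
    apply rpow_le_rpow_of_exponent_le hx1'
    norm_num
  calc K2 * a * 2 * (C * K1 * c) = K2 * 2 * (C * K1) * (a * c) := by ring
    _ ≤ _ := mul_le_mul_of_nonneg_left hfin (by positivity)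

end Pool.Agent.L0h54.EX
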