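import Pool.Agent.L0h54.EX.Pairs

set_option autoImplicit false

/-! Products of two primes of minimal level and a small cofactor. -/

namespace Pool.Agent.L0h54.EX

open Finset Real Pool.Agent.W57.SW

/-- two primes of minimal level and a small cofactor -/
def IsD2 (x n : ℕ) : Prop := ∃ p q m g h : ℕ, n = p * q * m ∧ p.Prime ∧ q.Prime ∧ q < p ∧ 2 ≤ m ∧
  (m : ℝ) ≤ (x : ℝ) ^ (1 / 600 : ℝ) ∧ g ∣ p - 1 ∧ g ∣ q * m - 1 ∧ h ∣ q - 1 ∧ h ∣ p * m - 1 ∧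
  Lv x p g ∧ Lv x q h ∧ (p : ℝ) ^ (1 / 2 - 1 / 100 : ℝ) ≤ g ∧ (q : ℝ) ^ (1 / 2 - 1 / 100 : ℝ) ≤ h

lemma modeq_lcm {g h a b : ℕ} (h1 : a ≡ b [MOD g]) (h2 : a ≡ b [MOD h]) :
    a ≡ b [MOD Nat.lcm g h] := by
  rw [Nat.modEq_iff_dvd] at h1 h2 ⊢
  rw [Int.natCast_dvd] at h1 h2 ⊢
  exact Nat.lcm_dvd h1 h2

/-- the number of solutions of a pair of congruences -/
lemma two_cong {g h m Y : ℕ} (hg : 1 ≤ g) (hh : 1 ≤ h) (hm : 2 ≤ m) (T : Finset ℕ)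
    (hT : ∀ q ∈ T, 1 ≤ q ∧ q ≤ Y ∧ q * m ≡ 1 [MOD g] ∧ q ≡ 1 [MOD h]) :
    (T.card : ℝ) ≤ (Y : ℝ) * m / (g * h) + 1 := by
  rcases T.eq_empty_or_nonempty with h0 | ⟨q0, hq0⟩
  · rw [h0]
    simp only [card_empty, Nat.cast_zero]
    positivity
  · obtain ⟨_, _, c3, c4⟩ := hT q0 hq0
    have hco : Nat.Coprime g m := by
      have h3 : Nat.gcd g (q0 * m) = Nat.gcd g 1 := by
        rw [Nat.gcd_comm g, Nat.gcd_comm g]; exact c3.gcd_eq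
      rw [Nat.gcd_one_right] at h3
      exact Nat.Coprime.coprime_mul_left_right h3
    have h1 := card_mod (L := Nat.lcm g h) (Y := Y) (c := q0) T (by
      intro q hq
      obtain ⟨_, d2, d3, d4⟩ := hT q hq
      refine ⟨d2, modeq_lcm ?_ (d4.trans c4.symm)⟩
      exact Nat.ModEq.cancel_right_of_coprime hco (d3.trans c3.symm))
    refine h1.trans ?_
    -- the gcd divides `m - 1`
    have hgcd : Nat.gcd g h ≤ m := by
      have e1 : q0 * m ≡ 1 [MOD Nat.gcd g h] := c3.of_dvd (Nat.gcd_dvd_left g h)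
      have e2 : q0 ≡ 1 [MOD Nat.gcd g h] := c4.of_dvd (Nat.gcd_dvd_right g h)
      have e3 : q0 * m ≡ 1 * m [MOD Nat.gcd g h] := e2.mul_right m
      have e4 : 1 ≡ m [MOD Nat.gcd g h] := by
        have := e1.symm.trans e3
        rwa [one_mul] at this
      have e5 : Nat.gcd g h ∣ m - 1 := (Nat.modEq_iff_dvd' (by omega)).mp e4
      have := Nat.le_of_dvd (by omega) e5
      omega
    have hlcm : Nat.gcd g h * Nat.lcm g h = g * h := Nat.gcd_mul_lcm g h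
    have hl0 : 0 < Nat.lcm g h := Nat.lcm_pos hg hh
    have hl0' : (0 : ℝ) < Nat.lcm g h := by exact_mod_cast hl0
    have hgh : (0 : ℝ) < (g : ℝ) * h := by
      have a1 : (0 : ℝ) < g := by exact_mod_cast hg
      have a2 : (0 : ℝ) < h := by exact_mod_cast hh
      positivity
    have e6 : (g : ℝ) * h ≤ m * Nat.lcm g h := by
      have : g * h ≤ m * Nat.lcm g h := by rw [← hlcm]; exact Nat.mul_le_mul_right _ hgcd
      exact_mod_cast this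
    have e7 : (Y : ℝ) / Nat.lcm g h ≤ (Y : ℝ) * m / (g * h) := by
      rw [div_le_div_iff₀ hl0' hgh]
      calc (Y : ℝ) * (g * h) ≤ Y * (m * Nat.lcm g h) :=
            mul_le_mul_of_nonneg_left e6 (Nat.cast_nonneg _)
        _ = _ := by ring
    linarith

/-- large primes -/
lemma p_large : ∃ x0 : ℕ, ∀ x : ℕ, x0 ≤ x → ∀ p q m : ℕ, (x : ℝ) / 2 < (p * q * m : ℕ) → q < p →
    (m : ℝ) ≤ (x : ℝ) ^ (1 / 600 : ℝ) → (x : ℝ) ^ (49 / 100 : ℝ) ≤ p ∧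
      (x : ℝ) / 2 < (p : ℝ) * p * m := by
  have hev : ∀ᶠ x : ℝ in Filter.atTop, 2 ≤ x ^ (1 / 100 : ℝ) :=
    (tendsto_rpow_atTop (show (0 : ℝ) < 1 / 100 by norm_num)).eventually
      (Filter.eventually_ge_atTop 2)
  obtain ⟨x1, hx1⟩ := Filter.eventually_atTop.mp hev
  refine ⟨max 1 ⌈x1⌉₊, ?_⟩
  intro x hx p q m h1 h2 h3
  have hxx1 : x1 ≤ x := Nat.ceil_le.mp ((le_max_right _ _).trans hx)
  have hx1' : (1 : ℝ) ≤ x := by exact_mod_cast (le_max_left _ _).trans hx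
  have hxpos : (0 : ℝ) < x := by linarith
  have h4 := hx1 x hxx1
  have h5 : (x : ℝ) / 2 < (p : ℝ) * p * m := by
    refine h1.trans_le ?_
    have : p * q * m ≤ p * p * m := Nat.mul_le_mul_right _ (Nat.mul_le_mul_left _ h2.le)
    exact_mod_cast this
  refine ⟨?_, h5⟩
  by_contra hc
  push Not at hc
  have h6 : (p : ℝ) * p * m ≤ (x : ℝ) ^ (49 / 100 : ℝ) * (x : ℝ) ^ (49 / 100 : ℝ) *
      (x : ℝ) ^ (1 / 600 : ℝ) := by
    apply mul_le_mul _ h3 (Nat.cast_nonneg _) (by positivity)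
    exact mul_le_mul hc.le hc.le (Nat.cast_nonneg _) (by positivity)
  have h7 : (x : ℝ) ^ (49 / 100 : ℝ) * (x : ℝ) ^ (49 / 100 : ℝ) * (x : ℝ) ^ (1 / 600 : ℝ) *
      (x : ℝ) ^ (1 / 100 : ℝ) ≤ x := by
    rw [← rpow_add hxpos, ← rpow_add hxpos, ← rpow_add hxpos]
    calc (x : ℝ) ^ (49 / 100 + 49 / 100 + 1 / 600 + 1 / 100 : ℝ) ≤ (x : ℝ) ^ (1 : ℝ) :=
          rpow_le_rpow_of_exponent_le hx1' (by norm_num)
      _ = x := rpow_one _
  have h8 : 0 ≤ (p : ℝ) * p * m := by positivity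
  nlinarith

lemma clsD2a : ∃ K : ℝ, 0 < K ∧ ∃ x0 : ℕ, ∀ x : ℕ, x0 ≤ x → ∀ S : Finset ℕ,
    (∀ n ∈ S, (x : ℝ) / 2 < n ∧ n ≤ x ∧ ∃ p q m g h : ℕ, n = p * q * m ∧ p.Prime ∧ q.Prime ∧
      q < p ∧ 2 ≤ m ∧ (m : ℝ) ≤ (x : ℝ) ^ (1 / 600 : ℝ) ∧ g ∣ p - 1 ∧ g ∣ q * m - 1 ∧ h ∣ q - 1 ∧
      h ∣ p * m - 1 ∧ Lv x p g ∧ Lv x q h ∧ (p : ℝ) ^ (1 / 2 - 1 / 100 : ℝ) ≤ g ∧
      (q : ℝ) ^ (1 / 2 - 1 / 100 : ℝ) ≤ h ∧ (g : ℝ) ≤ (x : ℝ) ^ (47 / 100 : ℝ)) →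
    (S.card : ℝ) ≤ K * (x : ℝ) ^ (1 / 2 - 1 / 1000 : ℝ) := by
  classical
  obtain ⟨x1, hx1⟩ := p_large
  obtain ⟨K2, hK2, x2, hx2⟩ := pair_count (1 / 1000) (by norm_num)
  obtain ⟨K3, hK3, hdiv⟩ := Helper112.divisor_bound (1 / 1000) (by norm_num)
  refine ⟨K2 * (K3 * 5), by positivity, max (max x1 x2) 3, ?_⟩
  intro x hx S hS
  have hxx1 : x1 ≤ x := (le_max_left _ _).trans ((le_max_left _ _).trans hx)
  have hxx2 : x2 ≤ x := (le_max_right _ _).trans ((le_max_left _ _).trans hx)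
  have hx3 : 3 ≤ x := (le_max_right _ _).trans hx
  have hxpos : (0 : ℝ) < x := by exact_mod_cast (by omega : 0 < x)
  have hx1' : (1 : ℝ) ≤ x := by exact_mod_cast (by omega : 1 ≤ x)
  obtain ⟨U, hU⟩ : ∃ U : ℕ, U = ⌊(x : ℝ) ^ (1 / 600 : ℝ)⌋₊ := ⟨_, rfl⟩
  have hUle : (U : ℝ) ≤ (x : ℝ) ^ (1 / 600 : ℝ) := by
    rw [hU]; exact Nat.floor_le (by positivity)
  obtain ⟨A, hA⟩ : ∃ A : Finset (ℕ × ℕ), A = ((Icc 1 x) ×ˢ (Icc 1 x)).filter
      (fun a => PG x a ∧ (a.2 : ℝ) ≤ (x : ℝ) ^ (47 / 100 : ℝ) ∧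
        (x : ℝ) ^ (49 / 100 : ℝ) ≤ a.1 ∧ (a.1 : ℝ) ^ (1 / 2 - 1 / 100 : ℝ) ≤ a.2) := ⟨_, rfl⟩
  obtain ⟨D, hD⟩ : ∃ D : Finset ((ℕ × ℕ) × ℕ), D = (A ×ˢ (Icc 2 U)).filter
      (fun a => (x : ℝ) / 2 < (a.1.1 : ℝ) * a.1.1 * a.2 ∧ a.1.1 * a.2 ≤ x) := ⟨_, rfl⟩
  have hcov := cover_count S D
    (fun a => (a.1.1 * a.2 - 1).divisors.filter
      (fun h : ℕ => ((x : ℝ) / (2 * (a.1.1 * a.2))) ^ (1 / 2 - 1 / 100 : ℝ) ≤ (h : ℝ)))
    (fun a h => (Icc 1 ⌊(x : ℝ) / (a.1.1 * a.2)⌋₊).filter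
      (fun q => q * a.2 ≡ 1 [MOD a.1.2] ∧ q ≡ 1 [MOD h]))
    (fun a _ q => a.1.1 * q * a.2) (by
      intro n hn
      obtain ⟨h1, h2, p, q, m, g, h, h3, h4, h5, h6, h7, h8, h9, h10, h11, h12, h13, h14, h15,
        h16, h17⟩ := hS n hn
      have hp0 : (0 : ℝ) < p := by exact_mod_cast h4.pos
      have hq1 := h5.one_lt.le
      have hq0 : (0 : ℝ) < q := by exact_mod_cast h5.pos
      have hm0 : (0 : ℝ) < m := by exact_mod_cast (by omega : 0 < m)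
      have hpm1 : 1 < p * m := by nlinarith [h4.two_le]
      have hqm1 : 1 < q * m := by nlinarith [h5.two_le]
      have hpmx : p * m ≤ x := by
        refine le_trans ?_ h2
        rw [h3]
        calc p * m = p * 1 * m := by ring
          _ ≤ p * q * m := Nat.mul_le_mul_right _ (Nat.mul_le_mul_left _ hq1)
      have hpx : p ≤ x := le_trans (Nat.le_mul_of_pos_right p (by omega)) hpmx
      have hg : g ∈ (p - 1).divisors := by
        rw [Nat.mem_divisors]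
        have := h4.two_le
        exact ⟨h9, by omega⟩
      have hg1 := Nat.pos_of_mem_divisors hg
      have hgx := Nat.divisor_le hg
      rw [h3] at h1
      obtain ⟨c1, c2⟩ := hx1 x hxx1 p q m h1 h6 h8
      refine ⟨((p, g), m), ?_, h, ?_, q, ?_, h3.symm⟩
      · rw [hD, mem_filter, mem_product, mem_Icc, hA, mem_filter, mem_product, mem_Icc, mem_Icc]
        refine ⟨⟨⟨⟨⟨h4.one_lt.le, hpx⟩, ⟨hg1, ?_⟩⟩, ⟨h4, hpx, hg, h13⟩, h17, c1, h15⟩, h7, ?_⟩,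
          c2, hpmx⟩
        · show g ≤ x
          omega
        · show m ≤ U
          rw [hU]; exact Nat.le_floor h8
      · rw [mem_filter, Nat.mem_divisors]
        refine ⟨⟨h12, ?_⟩, le_trans ?_ h16⟩
        · show p * m - 1 ≠ 0
          omega
        · show ((x : ℝ) / (2 * (p * m))) ^ (1 / 2 - 1 / 100 : ℝ) ≤ _
          apply rpow_le_rpow (by positivity) _ (by norm_num)
          rw [div_le_iff₀ (by positivity)]
          push_cast at h1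
          linarith
      · rw [mem_filter, mem_Icc]
        refine ⟨⟨hq1, Nat.le_floor ?_⟩, ?_, ?_⟩
        · show (q : ℝ) ≤ (x : ℝ) / (p * m)
          rw [le_div_iff₀ (by positivity)]
          have : q * (p * m) ≤ x := by
            refine le_trans (le_of_eq ?_) h2
            rw [h3]; ring
          exact_mod_cast this
        · exact ((Nat.modEq_iff_dvd' hqm1.le).mpr h10).symm
        · exact ((Nat.modEq_iff_dvd' hq1).mpr h11).symm)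
  have hDm : ∀ a ∈ D, (1 ≤ a.1.1 ∧ a.1.1 ≤ x) ∧ (1 ≤ a.1.2 ∧ a.1.2 ≤ x) ∧ PG x a.1 ∧
      (a.1.2 : ℝ) ≤ (x : ℝ) ^ (47 / 100 : ℝ) ∧
      (x : ℝ) ^ (49 / 100 : ℝ) ≤ a.1.1 ∧ (a.1.1 : ℝ) ^ (1 / 2 - 1 / 100 : ℝ) ≤ a.1.2 ∧
      2 ≤ a.2 ∧ a.2 ≤ U ∧ (x : ℝ) / 2 < (a.1.1 : ℝ) * a.1.1 * a.2 ∧ a.1.1 * a.2 ≤ x := by
    intro a ha
    rw [hD, mem_filter, mem_product, mem_Icc, hA, mem_filter, mem_product, mem_Icc, mem_Icc] at ha
    obtain ⟨⟨⟨⟨a1, a2⟩, a3, a4, a5, a6⟩, a7, a8⟩, a9, a10⟩ := ha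
    exact ⟨a1, a2, a3, a4, a5, a6, a7, a8, a9, a10⟩
  have hE : ∀ a ∈ D, ∀ h ∈ (a.1.1 * a.2 - 1).divisors.filter
      (fun h : ℕ => ((x : ℝ) / (2 * (a.1.1 * a.2))) ^ (1 / 2 - 1 / 100 : ℝ) ≤ (h : ℝ)),
      (((Icc 1 ⌊(x : ℝ) / (a.1.1 * a.2)⌋₊).filter
      (fun q => q * a.2 ≡ 1 [MOD a.1.2] ∧ q ≡ 1 [MOD h])).card : ℝ) ≤
      5 * (x : ℝ) ^ (17 / 1000 : ℝ) := by
    intro a ha h hh
    obtain ⟨⟨a1, a1'⟩, ⟨a2, a2'⟩, a3, a4, a5, a6, a7, a8, a9, a10⟩ := hDm a ha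
    rw [mem_filter] at hh
    have hh1 := Nat.pos_of_mem_divisors hh.1
    have hp0 : (0 : ℝ) < a.1.1 := by exact_mod_cast a1
    have hg0 : (0 : ℝ) < a.1.2 := by exact_mod_cast a2
    have hm0 : (0 : ℝ) < a.2 := by exact_mod_cast (by omega : 0 < a.2)
    have hh0 : (0 : ℝ) < h := by exact_mod_cast hh1
    have h1 := two_cong (Y := ⌊(x : ℝ) / (a.1.1 * a.2)⌋₊) a2 hh1 a7
      ((Icc 1 ⌊(x : ℝ) / (a.1.1 * a.2)⌋₊).filter
      (fun q => q * a.2 ≡ 1 [MOD a.1.2] ∧ q ≡ 1 [MOD h])) (by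
      intro q hq
      rw [mem_filter, mem_Icc] at hq
      exact ⟨hq.1.1, hq.1.2, hq.2.1, hq.2.2⟩)
    refine h1.trans ?_
    obtain ⟨Q, hQ⟩ : ∃ Q : ℝ, Q = (x : ℝ) / (a.1.1 * a.2) := ⟨_, rfl⟩
    have hQ0 : 0 < Q := by rw [hQ]; positivity
    have hQ1 : 1 ≤ Q := by
      rw [hQ, one_le_div (by positivity)]
      exact_mod_cast a10
    rw [← hQ]
    have hQh : Q / h ≤ 2 * Q ^ (51 / 100 : ℝ) := by
      have e0 : (x : ℝ) / (2 * (a.1.1 * a.2)) = Q / 2 := by rw [hQ]; field_simp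
      rw [e0] at hh
      have e3 : Q ^ (1 / 2 - 1 / 100 : ℝ) / 2 ≤ h := by
        refine le_trans ?_ hh.2
        rw [div_rpow hQ0.le (by norm_num)]
        apply div_le_div_of_nonneg_left (by positivity) (by positivity)
        calc (2 : ℝ) ^ (1 / 2 - 1 / 100 : ℝ) ≤ (2 : ℝ) ^ (1 : ℝ) :=
              rpow_le_rpow_of_exponent_le (by norm_num) (by norm_num)
          _ = 2 := rpow_one _
      rw [div_le_iff₀ hh0]
      have e4 : Q = Q ^ (51 / 100 : ℝ) * Q ^ (1 / 2 - 1 / 100 : ℝ) := by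
        rw [← rpow_add hQ0]; norm_num
      calc Q = Q ^ (51 / 100 : ℝ) * Q ^ (1 / 2 - 1 / 100 : ℝ) := e4
        _ = 2 * Q ^ (51 / 100 : ℝ) * (Q ^ (1 / 2 - 1 / 100 : ℝ) / 2) := by ring
        _ ≤ _ := mul_le_mul_of_nonneg_left e3 (by positivity)
    -- `Q ≤ 2 √x`
    have hQs : Q ≤ 2 * (x : ℝ) ^ (1 / 2 : ℝ) := by
      obtain ⟨r, hr⟩ : ∃ r : ℝ, r = (x : ℝ) ^ (1 / 2 : ℝ) := ⟨_, rfl⟩
      have hr0 : 0 < r := by rw [hr]; positivity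
      have hrr : r * r = x := by rw [hr, ← rpow_add hxpos]; norm_num
      rw [← hr]
      have e1 : Q * (a.1.1 * a.2) = x := by rw [hQ]; field_simp
      by_contra hc
      push Not at hc
      have hm1 : (2 : ℝ) ≤ a.2 := by exact_mod_cast a7
      -- `Q > 2 r`, `Q * (p m) = x`, `p p m > x / 2`
      have e2 : (a.1.1 : ℝ) * a.2 < r / 2 := by
        by_contra hc2
        push Not at hc2
        nlinarith
      have e3 : (a.1.1 : ℝ) < r / 2 := by nlinarith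
      nlinarith
    have hQ51 : Q ^ (51 / 100 : ℝ) ≤ 2 * (x : ℝ) ^ (255 / 1000 : ℝ) := by
      calc Q ^ (51 / 100 : ℝ) ≤ (2 * (x : ℝ) ^ (1 / 2 : ℝ)) ^ (51 / 100 : ℝ) :=
            rpow_le_rpow hQ0.le hQs (by norm_num)
        _ = 2 ^ (51 / 100 : ℝ) * (x : ℝ) ^ (1 / 2 * (51 / 100) : ℝ) := by
            rw [mul_rpow (by norm_num) (by positivity), ← rpow_mul hxpos.le]
        _ ≤ 2 * (x : ℝ) ^ (255 / 1000 : ℝ) := by
            apply mul_le_mul _ _ (by positivity) (by norm_num)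
            · calc (2 : ℝ) ^ (51 / 100 : ℝ) ≤ (2 : ℝ) ^ (1 : ℝ) :=
                  rpow_le_rpow_of_exponent_le (by norm_num) (by norm_num)
                _ = 2 := rpow_one _
            · exact rpow_le_rpow_of_exponent_le hx1' (by norm_num)
    have hg : (x : ℝ) ^ (2401 / 10000 : ℝ) ≤ a.1.2 := by
      refine le_trans ?_ a6
      have := rpow_le_rpow (by positivity) a5 (show (0 : ℝ) ≤ 1 / 2 - 1 / 100 by norm_num)
      refine le_trans (le_of_eq ?_) this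
      rw [← rpow_mul hxpos.le]; norm_num
    have hmU : (a.2 : ℝ) ≤ (x : ℝ) ^ (1 / 600 : ℝ) := (Nat.cast_le.mpr a8).trans hUle
    have hfin : ((⌊Q⌋₊ : ℕ) : ℝ) * a.2 / (a.1.2 * h) ≤ 4 * (x : ℝ) ^ (17 / 1000 : ℝ) := by
      have e1 : ((⌊Q⌋₊ : ℕ) : ℝ) * a.2 / (a.1.2 * h) ≤ (Q / h) * a.2 / a.1.2 := by
        have : Q * a.2 / (a.1.2 * h) = (Q / h) * a.2 / a.1.2 := by field_simp
        rw [← this]
        apply div_le_div_of_nonneg_right _ (by positivity)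
        exact mul_le_mul_of_nonneg_right (Nat.floor_le hQ0.le) hm0.le
      refine e1.trans ?_
      rw [div_le_iff₀ hg0]
      have e2 : (Q / h) * a.2 ≤ (4 * (x : ℝ) ^ (255 / 1000 : ℝ)) * (x : ℝ) ^ (1 / 600 : ℝ) := by
        apply mul_le_mul _ hmU hm0.le (by positivity)
        linarith
      have e3 : (4 * (x : ℝ) ^ (255 / 1000 : ℝ)) * (x : ℝ) ^ (1 / 600 : ℝ) ≤
          4 * (x : ℝ) ^ (17 / 1000 : ℝ) * (x : ℝ) ^ (2401 / 10000 : ℝ) := by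
        rw [mul_assoc, mul_assoc, ← rpow_add hxpos, ← rpow_add hxpos]
        apply mul_le_mul_of_nonneg_left _ (by norm_num)
        exact rpow_le_rpow_of_exponent_le hx1' (by norm_num)
      refine (e2.trans e3).trans ?_
      exact mul_le_mul_of_nonneg_left hg (by positivity)
    have h1x : 1 ≤ (x : ℝ) ^ (17 / 1000 : ℝ) := one_le_rpow hx1' (by norm_num)
    linarith
  have h1 : ∀ a ∈ D, ∑ h ∈ (a.1.1 * a.2 - 1).divisors.filter
      (fun h : ℕ => ((x : ℝ) / (2 * (a.1.1 * a.2))) ^ (1 / 2 - 1 / 100 : ℝ) ≤ (h : ℝ)),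
      (((Icc 1 ⌊(x : ℝ) / (a.1.1 * a.2)⌋₊).filter
      (fun q => q * a.2 ≡ 1 [MOD a.1.2] ∧ q ≡ 1 [MOD h])).card : ℝ) ≤
      K3 * (x : ℝ) ^ (1 / 1000 : ℝ) * (5 * (x : ℝ) ^ (17 / 1000 : ℝ)) := by
    intro a ha
    refine (sum_le_sum (hE a ha)).trans ?_
    rw [sum_const, nsmul_eq_mul]
    obtain ⟨⟨a1, a1'⟩, ⟨a2, a2'⟩, a3, a4, a5, a6, a7, a8, a9, a10⟩ := hDm a ha
    apply mul_le_mul_of_nonneg_right _ (by positivity)
    have h3 : (((a.1.1 * a.2 - 1).divisors.filter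
      (fun h : ℕ => ((x : ℝ) / (2 * (a.1.1 * a.2))) ^ (1 / 2 - 1 / 100 : ℝ) ≤ (h : ℝ))).card : ℝ) ≤
        (a.1.1 * a.2 - 1).divisors.card := by exact_mod_cast card_filter_le _ _
    have h4 : 1 ≤ a.1.1 * a.2 - 1 := by
      have := Nat.mul_le_mul a1 a7
      omega
    refine h3.trans ((hdiv _ h4).trans ?_)
    apply mul_le_mul_of_nonneg_left _ hK3.le
    apply rpow_le_rpow (Nat.cast_nonneg _) _ (by norm_num)
    exact_mod_cast (by omega : a.1.1 * a.2 - 1 ≤ x)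
  have h2 := hcov.trans (sum_le_sum h1)
  rw [sum_const, nsmul_eq_mul] at h2
  refine h2.trans ?_
  have hAc : (A.card : ℝ) ≤ K2 * (x : ℝ) ^ (1 / 1000 : ℝ) * (x : ℝ) ^ (47 / 100 : ℝ) := by
    apply hx2 x hxx2 _ (one_le_rpow hx1' (by norm_num))
    · calc (x : ℝ) ^ (47 / 100 : ℝ) ≤ (x : ℝ) ^ (1 : ℝ) :=
            rpow_le_rpow_of_exponent_le hx1' (by norm_num)
        _ = x := rpow_one _
    · intro a ha
      rw [hA, mem_filter] at ha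
      exact ⟨ha.2.1, ha.2.2.1⟩
  have hDc : (D.card : ℝ) ≤ K2 * (x : ℝ) ^ (1 / 1000 : ℝ) * (x : ℝ) ^ (47 / 100 : ℝ) *
      (x : ℝ) ^ (1 / 600 : ℝ) := by
    have e1 : D.card ≤ A.card * U := by
      rw [hD]
      refine (card_filter_le _ _).trans ?_
      rw [card_product, Nat.card_Icc]
      exact Nat.mul_le_mul_left _ (by omega)
    have e2 : (D.card : ℝ) ≤ A.card * U := by exact_mod_cast e1
    exact e2.trans (mul_le_mul hAc hUle (Nat.cast_nonneg _) (by positivity))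
  calc (D.card : ℝ) * (K3 * (x : ℝ) ^ (1 / 1000 : ℝ) * (5 * (x : ℝ) ^ (17 / 1000 : ℝ))) ≤
      (K2 * (x : ℝ) ^ (1 / 1000 : ℝ) * (x : ℝ) ^ (47 / 100 : ℝ) * (x : ℝ) ^ (1 / 600 : ℝ)) *
      (K3 * (x : ℝ) ^ (1 / 1000 : ℝ) * (5 * (x : ℝ) ^ (17 / 1000 : ℝ))) :=
        mul_le_mul_of_nonneg_right hDc (by positivity)
    _ = K2 * (K3 * 5) * ((x : ℝ) ^ (1 / 1000 : ℝ) * (x : ℝ) ^ (47 / 100 : ℝ) *
        (x : ℝ) ^ (1 / 600 : ℝ) * (x : ℝ) ^ (1 / 1000 : ℝ) * (x : ℝ) ^ (17 / 1000 : ℝ)) := by ring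
    _ = K2 * (K3 * 5) * (x : ℝ) ^ (1 / 1000 + 47 / 100 + 1 / 600 + 1 / 1000 + 17 / 1000 : ℝ) := by
        rw [rpow_add hxpos, rpow_add hxpos, rpow_add hxpos, rpow_add hxpos]
    _ ≤ _ := by
        apply mul_le_mul_of_nonneg_left _ (by positivity)
        exact rpow_le_rpow_of_exponent_le hx1' (by norm_num)

lemma clsD2b : ∃ K : ℝ, 0 < K ∧ ∃ x0 : ℕ, ∀ x : ℕ, x0 ≤ x → ∀ S : Finset ℕ,
    (∀ n ∈ S, (x : ℝ) / 2 < n ∧ n ≤ x ∧ ∃ p q m g h : ℕ, n = p * q * m ∧ p.Prime ∧ q.Prime ∧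
      q < p ∧ 2 ≤ m ∧ (m : ℝ) ≤ (x : ℝ) ^ (1 / 600 : ℝ) ∧ g ∣ p - 1 ∧ g ∣ q * m - 1 ∧ h ∣ q - 1 ∧
      h ∣ p * m - 1 ∧ Lv x p g ∧ Lv x q h ∧ (p : ℝ) ^ (1 / 2 - 1 / 100 : ℝ) ≤ g ∧
      (q : ℝ) ^ (1 / 2 - 1 / 100 : ℝ) ≤ h ∧ (h : ℝ) ≤ (x : ℝ) ^ (47 / 100 : ℝ)) →
    (S.card : ℝ) ≤ K * (x : ℝ) ^ (1 / 2 - 1 / 1000 : ℝ) := by
  classical
  obtain ⟨x1, hx1⟩ := p_large
  obtain ⟨K2, hK2, x2, hx2⟩ := pair_count (1 / 1000) (by norm_num)
  obtain ⟨K4, hK4, x4, hx4⟩ := pair_sum (1 / 1000) (by norm_num)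
  obtain ⟨K3, hK3, hdiv⟩ := Helper112.divisor_bound (1 / 1000) (by norm_num)
  refine ⟨K3 * (2 * K4 + K2), by positivity, max (max x1 x2) (max x4 3), ?_⟩
  intro x hx S hS
  have hxx1 : x1 ≤ x := (le_max_left _ _).trans ((le_max_left _ _).trans hx)
  have hxx2 : x2 ≤ x := (le_max_right _ _).trans ((le_max_left _ _).trans hx)
  have hxx4 : x4 ≤ x := (le_max_left _ _).trans ((le_max_right _ _).trans hx)
  have hx3 : 3 ≤ x := (le_max_right _ _).trans ((le_max_right _ _).trans hx)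
  have hxpos : (0 : ℝ) < x := by exact_mod_cast (by omega : 0 < x)
  have hx1' : (1 : ℝ) ≤ x := by exact_mod_cast (by omega : 1 ≤ x)
  obtain ⟨U, hU⟩ : ∃ U : ℕ, U = ⌊(x : ℝ) ^ (1 / 600 : ℝ)⌋₊ := ⟨_, rfl⟩
  have hUle : (U : ℝ) ≤ (x : ℝ) ^ (1 / 600 : ℝ) := by
    rw [hU]; exact Nat.floor_le (by positivity)
  obtain ⟨A, hA⟩ : ∃ A : Finset (ℕ × ℕ), A = ((Icc 1 x) ×ˢ (Icc 1 x)).filter
      (fun a => PG x a ∧ (a.2 : ℝ) ≤ (x : ℝ) ^ (47 / 100 : ℝ) ∧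
        (x : ℝ) ^ (1 / 5 : ℝ) ≤ a.1) := ⟨_, rfl⟩
  have hAm : ∀ a ∈ A, (1 ≤ a.1 ∧ a.1 ≤ x) ∧ (1 ≤ a.2 ∧ a.2 ≤ x) ∧ PG x a ∧
      (a.2 : ℝ) ≤ (x : ℝ) ^ (47 / 100 : ℝ) ∧ (x : ℝ) ^ (1 / 5 : ℝ) ≤ a.1 := by
    intro a ha
    rw [hA, mem_filter, mem_product, mem_Icc, mem_Icc] at ha
    exact ⟨ha.1.1, ha.1.2, ha.2⟩
  have hcov := cover_count S (A ×ˢ (Icc 2 U))
    (fun a => (a.1.1 * a.2 - 1).divisors.filter
      (fun g : ℕ => ((x : ℝ) / (2 * (a.1.1 * a.2))) ^ (1 / 2 - 1 / 100 : ℝ) ≤ (g : ℝ)))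
    (fun a g => (Icc 1 ⌊(x : ℝ) / (a.1.1 * a.2)⌋₊).filter
      (fun p => p * a.2 ≡ 1 [MOD a.1.2] ∧ p ≡ 1 [MOD g]))
    (fun a _ p => p * a.1.1 * a.2) (by
      intro n hn
      obtain ⟨h1, h2, p, q, m, g, h, h3, h4, h5, h6, h7, h8, h9, h10, h11, h12, h13, h14, h15,
        h16, h17⟩ := hS n hn
      have hp0 : (0 : ℝ) < p := by exact_mod_cast h4.pos
      have hq1 := h5.one_lt.le
      have hp1 := h4.one_lt.le
      have hq0 : (0 : ℝ) < q := by exact_mod_cast h5.pos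
      have hm0 : (0 : ℝ) < m := by exact_mod_cast (by omega : 0 < m)
      have hpm1 : 1 < p * m := by nlinarith [h4.two_le]
      have hqm1 : 1 < q * m := by nlinarith [h5.two_le]
      have hqmx : q * m ≤ x := by
        refine le_trans ?_ h2
        rw [h3]
        calc q * m = 1 * q * m := by ring
          _ ≤ p * q * m := Nat.mul_le_mul_right _ (Nat.mul_le_mul_right _ hp1)
      have hqx : q ≤ x := le_trans (Nat.le_mul_of_pos_right q (by omega)) hqmx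
      have hh : h ∈ (q - 1).divisors := by
        rw [Nat.mem_divisors]
        have := h5.two_le
        exact ⟨h11, by omega⟩
      have hh1 := Nat.pos_of_mem_divisors hh
      have hhx := Nat.divisor_le hh
      rw [h3] at h1
      obtain ⟨c1, c2⟩ := hx1 x hxx1 p q m h1 h6 h8
      have hq5 : (x : ℝ) ^ (1 / 5 : ℝ) ≤ q := by
        have e1 : (x : ℝ) ^ (2401 / 10000 : ℝ) ≤ g := by
          refine le_trans ?_ h15
          have := rpow_le_rpow (by positivity) c1 (show (0 : ℝ) ≤ 1 / 2 - 1 / 100 by norm_num)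
          refine le_trans (le_of_eq ?_) this
          rw [← rpow_mul hxpos.le]; norm_num
        have e2 : (g : ℝ) ≤ q * m := by
          have := Nat.le_of_dvd (by omega) h10
          exact_mod_cast (by omega : g ≤ q * m)
        have e3 : (q : ℝ) * m ≤ q * (x : ℝ) ^ (1 / 600 : ℝ) :=
          mul_le_mul_of_nonneg_left h8 hq0.le
        have e4 : (x : ℝ) ^ (1 / 5 : ℝ) * (x : ℝ) ^ (1 / 600 : ℝ) ≤
            (x : ℝ) ^ (2401 / 10000 : ℝ) := by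
          rw [← rpow_add hxpos]
          exact rpow_le_rpow_of_exponent_le hx1' (by norm_num)
        have e5 : (x : ℝ) ^ (1 / 5 : ℝ) * (x : ℝ) ^ (1 / 600 : ℝ) ≤
            q * (x : ℝ) ^ (1 / 600 : ℝ) := by linarith
        exact le_of_mul_le_mul_right e5 (by positivity)
      refine ⟨((q, h), m), ?_, g, ?_, p, ?_, h3.symm⟩
      · rw [mem_product, mem_Icc, hA, mem_filter, mem_product, mem_Icc, mem_Icc]
        refine ⟨⟨⟨⟨h5.one_lt.le, hqx⟩, ⟨hh1, ?_⟩⟩, ⟨h5, hqx, hh, h14⟩, h17, hq5⟩, h7, ?_⟩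
        · show h ≤ x
          omega
        · show m ≤ U
          rw [hU]; exact Nat.le_floor h8
      · rw [mem_filter, Nat.mem_divisors]
        refine ⟨⟨h10, ?_⟩, le_trans ?_ h15⟩
        · show q * m - 1 ≠ 0
          omega
        · show ((x : ℝ) / (2 * (q * m))) ^ (1 / 2 - 1 / 100 : ℝ) ≤ _
          apply rpow_le_rpow (by positivity) _ (by norm_num)
          rw [div_le_iff₀ (by positivity)]
          push_cast at h1
          linarith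
      · rw [mem_filter, mem_Icc]
        refine ⟨⟨hp1, Nat.le_floor ?_⟩, ?_, ?_⟩
        · show (p : ℝ) ≤ (x : ℝ) / (q * m)
          rw [le_div_iff₀ (by positivity)]
          have : p * (q * m) ≤ x := by
            refine le_trans (le_of_eq ?_) h2
            rw [h3]; ring
          exact_mod_cast this
        · exact ((Nat.modEq_iff_dvd' hpm1.le).mpr h12).symm
        · exact ((Nat.modEq_iff_dvd' hp1).mpr h9).symm)
  have hE : ∀ a ∈ A ×ˢ (Icc 2 U), ∀ g ∈ (a.1.1 * a.2 - 1).divisors.filter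
      (fun g : ℕ => ((x : ℝ) / (2 * (a.1.1 * a.2))) ^ (1 / 2 - 1 / 100 : ℝ) ≤ (g : ℝ)),
      (((Icc 1 ⌊(x : ℝ) / (a.1.1 * a.2)⌋₊).filter
      (fun p => p * a.2 ≡ 1 [MOD a.1.2] ∧ p ≡ 1 [MOD g])).card : ℝ) ≤
      2 * (x : ℝ) ^ (411 / 1000 : ℝ) * (a.1.2 : ℝ) ^ (-(1001 / 1000) : ℝ) + 1 := by
    intro a ha g hg
    rw [mem_product, mem_Icc] at ha
    obtain ⟨⟨a1, a1'⟩, ⟨a2, a2'⟩, a3, a4, a5⟩ := hAm a.1 ha.1
    obtain ⟨a7, a8⟩ := ha.2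
    rw [mem_filter] at hg
    have hg1 := Nat.pos_of_mem_divisors hg.1
    have hq0 : (0 : ℝ) < a.1.1 := by exact_mod_cast a1
    have hh0 : (0 : ℝ) < a.1.2 := by exact_mod_cast a2
    have hm0 : (0 : ℝ) < a.2 := by exact_mod_cast (by omega : 0 < a.2)
    have hg0 : (0 : ℝ) < g := by exact_mod_cast hg1
    have h1 := two_cong (Y := ⌊(x : ℝ) / (a.1.1 * a.2)⌋₊) a2 hg1 a7
      ((Icc 1 ⌊(x : ℝ) / (a.1.1 * a.2)⌋₊).filter
      (fun p => p * a.2 ≡ 1 [MOD a.1.2] ∧ p ≡ 1 [MOD g])) (by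
      intro q hq
      rw [mem_filter, mem_Icc] at hq
      exact ⟨hq.1.1, hq.1.2, hq.2.1, hq.2.2⟩)
    refine h1.trans ?_
    obtain ⟨Q, hQ⟩ : ∃ Q : ℝ, Q = (x : ℝ) / (a.1.1 * a.2) := ⟨_, rfl⟩
    have hQ0 : 0 < Q := by rw [hQ]; positivity
    rw [← hQ]
    have hQh : Q / g ≤ 2 * Q ^ (51 / 100 : ℝ) := by
      have e0 : (x : ℝ) / (2 * (a.1.1 * a.2)) = Q / 2 := by rw [hQ]; field_simp
      rw [e0] at hg
      have e3 : Q ^ (1 / 2 - 1 / 100 : ℝ) / 2 ≤ g := by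
        refine le_trans ?_ hg.2
        rw [div_rpow hQ0.le (by norm_num)]
        apply div_le_div_of_nonneg_left (by positivity) (by positivity)
        calc (2 : ℝ) ^ (1 / 2 - 1 / 100 : ℝ) ≤ (2 : ℝ) ^ (1 : ℝ) :=
              rpow_le_rpow_of_exponent_le (by norm_num) (by norm_num)
          _ = 2 := rpow_one _
      rw [div_le_iff₀ hg0]
      have e4 : Q = Q ^ (51 / 100 : ℝ) * Q ^ (1 / 2 - 1 / 100 : ℝ) := by
        rw [← rpow_add hQ0]; norm_num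
      calc Q = Q ^ (51 / 100 : ℝ) * Q ^ (1 / 2 - 1 / 100 : ℝ) := e4
        _ = 2 * Q ^ (51 / 100 : ℝ) * (Q ^ (1 / 2 - 1 / 100 : ℝ) / 2) := by ring
        _ ≤ _ := mul_le_mul_of_nonneg_left e3 (by positivity)
    have hQs : Q ≤ (x : ℝ) ^ (4 / 5 : ℝ) := by
      rw [hQ, div_le_iff₀ (by positivity)]
      have e1 : (x : ℝ) = (x : ℝ) ^ (4 / 5 : ℝ) * (x : ℝ) ^ (1 / 5 : ℝ) := by
        rw [← rpow_add hxpos]; norm_num
      have hm1 : (1 : ℝ) ≤ a.2 := by exact_mod_cast (by omega : 1 ≤ a.2)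
      have e2 : (x : ℝ) ^ (1 / 5 : ℝ) ≤ a.1.1 * a.2 := by nlinarith
      calc (x : ℝ) = (x : ℝ) ^ (4 / 5 : ℝ) * (x : ℝ) ^ (1 / 5 : ℝ) := e1
        _ ≤ _ := mul_le_mul_of_nonneg_left e2 (by positivity)
    have hQ51 : Q ^ (51 / 100 : ℝ) ≤ (x : ℝ) ^ (408 / 1000 : ℝ) := by
      calc Q ^ (51 / 100 : ℝ) ≤ ((x : ℝ) ^ (4 / 5 : ℝ)) ^ (51 / 100 : ℝ) :=
            rpow_le_rpow hQ0.le hQs (by norm_num)
        _ = _ := by rw [← rpow_mul hxpos.le]; norm_num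
    have hmU : (a.2 : ℝ) ≤ (x : ℝ) ^ (1 / 600 : ℝ) := (Nat.cast_le.mpr a8).trans hUle
    have hfin : ((⌊Q⌋₊ : ℕ) : ℝ) * a.2 / (a.1.2 * g) ≤
        2 * (x : ℝ) ^ (411 / 1000 : ℝ) * (a.1.2 : ℝ) ^ (-(1001 / 1000) : ℝ) := by
      have e1 : ((⌊Q⌋₊ : ℕ) : ℝ) * a.2 / (a.1.2 * g) ≤ (Q / g) * a.2 * (a.1.2 : ℝ) ^ (-1 : ℝ) := by
        have : Q * a.2 / (a.1.2 * g) = (Q / g) * a.2 * (a.1.2 : ℝ) ^ (-1 : ℝ) := by
          rw [rpow_neg_one]; field_simp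
        rw [← this]
        apply div_le_div_of_nonneg_right _ (by positivity)
        exact mul_le_mul_of_nonneg_right (Nat.floor_le hQ0.le) hm0.le
      refine e1.trans ?_
      have e2 : (Q / g) * a.2 ≤ (2 * (x : ℝ) ^ (408 / 1000 : ℝ)) * (x : ℝ) ^ (1 / 600 : ℝ) := by
        apply mul_le_mul _ hmU hm0.le (by positivity)
        linarith
      have e3 : (a.1.2 : ℝ) ^ (-1 : ℝ) ≤ (x : ℝ) ^ (1 / 1000 : ℝ) *
          (a.1.2 : ℝ) ^ (-(1001 / 1000) : ℝ) := by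
        have e4 : (a.1.2 : ℝ) ^ (-1 : ℝ) = (a.1.2 : ℝ) ^ (1 / 1000 : ℝ) *
            (a.1.2 : ℝ) ^ (-(1001 / 1000) : ℝ) := by
          rw [← rpow_add hh0]; norm_num
        rw [e4]
        apply mul_le_mul_of_nonneg_right _ (by positivity)
        exact rpow_le_rpow hh0.le (by exact_mod_cast a2') (by norm_num)
      calc (Q / g) * a.2 * (a.1.2 : ℝ) ^ (-1 : ℝ) ≤
          ((2 * (x : ℝ) ^ (408 / 1000 : ℝ)) * (x : ℝ) ^ (1 / 600 : ℝ)) *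
          ((x : ℝ) ^ (1 / 1000 : ℝ) * (a.1.2 : ℝ) ^ (-(1001 / 1000) : ℝ)) :=
            mul_le_mul e2 e3 (by positivity) (by positivity)
        _ = 2 * ((x : ℝ) ^ (408 / 1000 : ℝ) * (x : ℝ) ^ (1 / 600 : ℝ) *
            (x : ℝ) ^ (1 / 1000 : ℝ)) * (a.1.2 : ℝ) ^ (-(1001 / 1000) : ℝ) := by ring
        _ ≤ _ := by
            apply mul_le_mul_of_nonneg_right _ (by positivity)
            apply mul_le_mul_of_nonneg_left _ (by norm_num)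
            rw [← rpow_add hxpos, ← rpow_add hxpos]
            exact rpow_le_rpow_of_exponent_le hx1' (by norm_num)
    linarith
  have h1 : ∀ a ∈ A ×ˢ (Icc 2 U), ∑ g ∈ (a.1.1 * a.2 - 1).divisors.filter
      (fun g : ℕ => ((x : ℝ) / (2 * (a.1.1 * a.2))) ^ (1 / 2 - 1 / 100 : ℝ) ≤ (g : ℝ)),
      (((Icc 1 ⌊(x : ℝ) / (a.1.1 * a.2)⌋₊).filter
      (fun p => p * a.2 ≡ 1 [MOD a.1.2] ∧ p ≡ 1 [MOD g])).card : ℝ) ≤
      K3 * (x : ℝ) ^ (2 / 1000 : ℝ) *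
        (2 * (x : ℝ) ^ (411 / 1000 : ℝ) * (a.1.2 : ℝ) ^ (-(1001 / 1000) : ℝ) + 1) := by
    intro a ha
    refine (sum_le_sum (hE a ha)).trans ?_
    rw [sum_const, nsmul_eq_mul]
    rw [mem_product, mem_Icc] at ha
    obtain ⟨⟨a1, a1'⟩, ⟨a2, a2'⟩, a3, a4, a5⟩ := hAm a.1 ha.1
    obtain ⟨a7, a8⟩ := ha.2
    apply mul_le_mul_of_nonneg_right _ (by positivity)
    have h3 : (((a.1.1 * a.2 - 1).divisors.filter
      (fun g : ℕ => ((x : ℝ) / (2 * (a.1.1 * a.2))) ^ (1 / 2 - 1 / 100 : ℝ) ≤ (g : ℝ))).card : ℝ) ≤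
        (a.1.1 * a.2 - 1).divisors.card := by exact_mod_cast card_filter_le _ _
    have h4 : 1 ≤ a.1.1 * a.2 - 1 := by
      have := Nat.mul_le_mul a1 a7
      omega
    refine h3.trans ((hdiv _ h4).trans ?_)
    apply mul_le_mul_of_nonneg_left _ hK3.le
    have hUx : U ≤ x := by
      have : (U : ℝ) ≤ x := by
        refine hUle.trans ?_
        calc (x : ℝ) ^ (1 / 600 : ℝ) ≤ (x : ℝ) ^ (1 : ℝ) :=
              rpow_le_rpow_of_exponent_le hx1' (by norm_num)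
          _ = x := rpow_one _
      exact_mod_cast this
    have h5 : a.1.1 * a.2 - 1 ≤ x ^ 2 := by
      have : a.1.1 * a.2 ≤ x * x := Nat.mul_le_mul a1' (a8.trans hUx)
      rw [sq]; omega
    calc (((a.1.1 * a.2 - 1 : ℕ)) : ℝ) ^ (1 / 1000 : ℝ) ≤ ((x : ℝ) ^ 2) ^ (1 / 1000 : ℝ) :=
          rpow_le_rpow (Nat.cast_nonneg _) (by exact_mod_cast h5) (by norm_num)
      _ = _ := by
          rw [← rpow_natCast, ← rpow_mul hxpos.le]; norm_num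
  have h2 := hcov.trans (sum_le_sum h1)
  rw [← mul_sum, sum_product] at h2
  simp only [sum_const, nsmul_eq_mul, Nat.card_Icc] at h2
  rw [← mul_sum, sum_add_distrib, ← mul_sum, sum_const, nsmul_eq_mul, mul_one] at h2
  refine h2.trans ?_
  have hAc : (A.card : ℝ) ≤ K2 * (x : ℝ) ^ (1 / 1000 : ℝ) * (x : ℝ) ^ (47 / 100 : ℝ) := by
    apply hx2 x hxx2 _ (one_le_rpow hx1' (by norm_num))
    · calc (x : ℝ) ^ (47 / 100 : ℝ) ≤ (x : ℝ) ^ (1 : ℝ) :=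
            rpow_le_rpow_of_exponent_le hx1' (by norm_num)
        _ = x := rpow_one _
    · intro a ha
      rw [hA, mem_filter] at ha
      exact ⟨ha.2.1, ha.2.2.1⟩
  have hAs := hx4 x hxx4 A (fun a ha => (hAm a ha).2.2.1)
  have hUc : ((U + 1 - 2 : ℕ) : ℝ) ≤ (x : ℝ) ^ (1 / 600 : ℝ) := by
    refine le_trans ?_ hUle
    exact_mod_cast (by omega : U + 1 - 2 ≤ U)
  obtain ⟨s, hs⟩ : ∃ s : ℝ, s = ∑ a ∈ A, (a.2 : ℝ) ^ (-(1001 / 1000) : ℝ) := ⟨_, rfl⟩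
  rw [← hs] at hAs ⊢
  have hs0 : 0 ≤ s := by rw [hs]; exact sum_nonneg fun a _ => by positivity
  calc K3 * (x : ℝ) ^ (2 / 1000 : ℝ) * (((U + 1 - 2 : ℕ) : ℝ) *
        (2 * (x : ℝ) ^ (411 / 1000 : ℝ) * s + A.card)) ≤
      K3 * (x : ℝ) ^ (2 / 1000 : ℝ) * ((x : ℝ) ^ (1 / 600 : ℝ) *
        (2 * (x : ℝ) ^ (411 / 1000 : ℝ) * (K4 * (x : ℝ) ^ (1 / 1000 : ℝ)) +
        K2 * (x : ℝ) ^ (1 / 1000 : ℝ) * (x : ℝ) ^ (47 / 100 : ℝ))) := by
        apply mul_le_mul_of_nonneg_left _ (by positivity)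
        apply mul_le_mul hUc _ (by positivity) (by positivity)
        apply add_le_add _ hAc
        exact mul_le_mul_of_nonneg_left hAs (by positivity)
    _ = 2 * K3 * K4 * ((x : ℝ) ^ (2 / 1000 : ℝ) * (x : ℝ) ^ (1 / 600 : ℝ) *
          (x : ℝ) ^ (411 / 1000 : ℝ) * (x : ℝ) ^ (1 / 1000 : ℝ)) +
        K3 * K2 * ((x : ℝ) ^ (2 / 1000 : ℝ) * (x : ℝ) ^ (1 / 600 : ℝ) *
          (x : ℝ) ^ (1 / 1000 : ℝ) * (x : ℝ) ^ (47 / 100 : ℝ)) := by ring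
    _ ≤ 2 * K3 * K4 * (x : ℝ) ^ (1 / 2 - 1 / 1000 : ℝ) +
        K3 * K2 * (x : ℝ) ^ (1 / 2 - 1 / 1000 : ℝ) := by
        apply add_le_add
        · apply mul_le_mul_of_nonneg_left _ (by positivity)
          rw [← rpow_add hxpos, ← rpow_add hxpos, ← rpow_add hxpos]
          exact rpow_le_rpow_of_exponent_le hx1' (by norm_num)
        · apply mul_le_mul_of_nonneg_left _ (by positivity)
          rw [← rpow_add hxpos, ← rpow_add hxpos, ← rpow_add hxpos]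
          exact rpow_le_rpow_of_exponent_le hx1' (by norm_num)
    _ = _ := by ring

/-- uniqueness of the solution of the linear system -/
lemma uniq {m s t a b g h g' h' : ℕ} (hm : 2 ≤ m) (hs : 1 ≤ s) (ht : 1 ≤ t)
    (hg : 1 ≤ g) (hh : 1 ≤ h) (e1 : g * a + 1 = m * (h * t + 1)) (e2 : h * b + 1 = m * (g * s + 1))
    (e3 : g' * a + 1 = m * (h' * t + 1)) (e4 : h' * b + 1 = m * (g' * s + 1)) :
    g = g' ∧ h = h' := by
  zify at e1 e2 e3 e4 hm hs ht hg hh ⊢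
  have f1 : (a : ℤ) * (g - g') = m * t * (h - h') := by linarith
  have f2 : (b : ℤ) * (h - h') = m * s * (g - g') := by linarith
  have hk : ((a : ℤ) * b - m * m * s * t) * (g - g') = 0 := by
    have : (a : ℤ) * b * (g - g') = b * (m * t * (h - h')) := by rw [← f1]; ring
    have h2 : (b : ℤ) * (m * t * (h - h')) = m * t * (m * s * (g - g')) := by rw [← f2]; ring
    linear_combination this + h2
  have hne : (a : ℤ) * b - m * m * s * t ≠ 0 := by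
    have g1 : (a : ℤ) * g = m * t * h + (m - 1) := by linarith
    have g2 : (b : ℤ) * h = m * s * g + (m - 1) := by linarith
    have hp1 : 0 < (m : ℤ) * t * h := by positivity
    have hp2 : 0 < (m : ℤ) * s * g := by positivity
    have g3 : ((a : ℤ) * g) * (b * h) > (m * t * h) * (m * s * g) := by
      rw [g1, g2]
      nlinarith
    intro h0
    have g4 : ((a : ℤ) * g) * (b * h) = (m * t * h) * (m * s * g) := by
      linear_combination (g * h : ℤ) * h0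
    linarith
  have hgg : (g : ℤ) - g' = 0 := by
    rcases mul_eq_zero.mp hk with h | h
    · exact absurd h hne
    · exact h
  have hmt : 0 < (m : ℤ) * t := by positivity
  have hhh : (h : ℤ) - h' = 0 := by
    rw [hgg, mul_zero] at f1
    rcases mul_eq_zero.mp f1.symm with h | h
    · exact absurd h hmt.ne'
    · exact h
  constructor <;> linarith

lemma clsD2c : ∃ K : ℝ, 0 < K ∧ ∃ x0 : ℕ, ∀ x : ℕ, x0 ≤ x → ∀ S : Finset ℕ,
    (∀ n ∈ S, (x : ℝ) / 2 < n ∧ n ≤ x ∧ ∃ p q m g h : ℕ, n = p * q * m ∧ p.Prime ∧ q.Prime ∧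
      q < p ∧ 2 ≤ m ∧ (m : ℝ) ≤ (x : ℝ) ^ (1 / 600 : ℝ) ∧ g ∣ p - 1 ∧ g ∣ q * m - 1 ∧ h ∣ q - 1 ∧
      h ∣ p * m - 1 ∧ (x : ℝ) ^ (47 / 100 : ℝ) < g ∧ (x : ℝ) ^ (47 / 100 : ℝ) < h) →
    (S.card : ℝ) ≤ K * (x : ℝ) ^ (1 / 2 - 1 / 1000 : ℝ) := by
  classical
  refine ⟨1, one_pos, 3, ?_⟩
  intro x hx3 S hS
  have hxpos : (0 : ℝ) < x := by exact_mod_cast (by omega : 0 < x)
  have hx1' : (1 : ℝ) ≤ x := by exact_mod_cast (by omega : 1 ≤ x)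
  obtain ⟨U, hU⟩ : ∃ U : ℕ, U = ⌊(x : ℝ) ^ (7 / 100 : ℝ)⌋₊ := ⟨_, rfl⟩
  have hUle : (U : ℝ) ≤ (x : ℝ) ^ (7 / 100 : ℝ) := by
    rw [hU]; exact Nat.floor_le (by positivity)
  have hmain : ∀ n ∈ S, ∃ f : ℕ × ℕ × ℕ × ℕ × ℕ,
      f ∈ (Icc 1 U) ×ˢ (Icc 1 U) ×ˢ (Icc 1 U) ×ˢ (Icc 1 U) ×ˢ (Icc 1 U) ∧
      ∃ g h : ℕ, 1 ≤ g ∧ 1 ≤ h ∧ 2 ≤ f.1 ∧ 1 ≤ f.2.1 ∧ 1 ≤ f.2.2.1 ∧
        g * f.2.2.2.1 + 1 = f.1 * (h * f.2.2.1 + 1) ∧
        h * f.2.2.2.2 + 1 = f.1 * (g * f.2.1 + 1) ∧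
        n = (g * f.2.1 + 1) * (h * f.2.2.1 + 1) * f.1 := by
    intro n hn
    obtain ⟨h1, h2, p, q, m, g, h, h3, h4, h5, h6, h7, h8, ⟨s, hs⟩, ⟨a, ha⟩, ⟨t, ht⟩, ⟨b, hb⟩,
      h13, h14⟩ := hS n hn
    have hp0 : (0 : ℝ) < p := by exact_mod_cast h4.pos
    have hq0 : (0 : ℝ) < q := by exact_mod_cast h5.pos
    have hm0 : (0 : ℝ) < m := by exact_mod_cast (by omega : 0 < m)
    have hg0 : (0 : ℝ) < g := lt_trans (by positivity) h13
    have hh0 : (0 : ℝ) < h := lt_trans (by positivity) h14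
    have hpm1 : 1 < p * m := by nlinarith [h4.two_le]
    have hqm1 : 1 < q * m := by nlinarith [h5.two_le]
    have hps : p = g * s + 1 := by have := h4.one_lt; omega
    have hqt : q = h * t + 1 := by have := h5.one_lt; omega
    have hqa : q * m = g * a + 1 := by omega
    have hpb : p * m = h * b + 1 := by omega
    have hs1 : 1 ≤ s := by
      rcases Nat.eq_zero_or_pos s with h | h
      · rw [h, mul_zero] at hps
        exact absurd hps h4.one_lt.ne'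
      · exact h
    have ht1 : 1 ≤ t := by
      rcases Nat.eq_zero_or_pos t with h | h
      · rw [h, mul_zero] at hqt
        exact absurd hqt h5.one_lt.ne'
      · exact h
    have ha1 : 1 ≤ a := by
      rcases Nat.eq_zero_or_pos a with h | h
      · rw [h, mul_zero] at hqa; omega
      · exact h
    have hb1 : 1 ≤ b := by
      rcases Nat.eq_zero_or_pos b with h | h
      · rw [h, mul_zero] at hpb; omega
      · exact h
    have hpqx : (p : ℝ) * q ≤ x := by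
      have : p * q ≤ x := by
        refine le_trans ?_ h2
        rw [h3]
        exact Nat.le_mul_of_pos_right _ (by omega)
      exact_mod_cast this
    have hhq : (h : ℝ) ≤ q := by
      have : h ≤ q := by rw [hqt]; nlinarith
      exact_mod_cast this
    have hp53 : (p : ℝ) ≤ (x : ℝ) ^ (53 / 100 : ℝ) := by
      have e1 : (x : ℝ) = (x : ℝ) ^ (53 / 100 : ℝ) * (x : ℝ) ^ (47 / 100 : ℝ) := by
        rw [← rpow_add hxpos]; norm_num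
      have e2 : (p : ℝ) * (x : ℝ) ^ (47 / 100 : ℝ) ≤
          (x : ℝ) ^ (53 / 100 : ℝ) * (x : ℝ) ^ (47 / 100 : ℝ) := by
        rw [← e1]
        refine le_trans ?_ hpqx
        exact mul_le_mul_of_nonneg_left (h14.le.trans hhq) hp0.le
      exact le_of_mul_le_mul_right e2 (by positivity)
    have hqp : (q : ℝ) ≤ p := by exact_mod_cast h6.le
    -- the bound for a cofactor
    have key : ∀ z w : ℝ, 0 ≤ z → z * (x : ℝ) ^ (47 / 100 : ℝ) ≤ w →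
        w ≤ (x : ℝ) ^ (53 / 100 + 1 / 600 : ℝ) → z ≤ (x : ℝ) ^ (7 / 100 : ℝ) := by
      intro z w hz0 hz hw
      have e1 : (x : ℝ) ^ (53 / 100 + 1 / 600 : ℝ) ≤
          (x : ℝ) ^ (7 / 100 : ℝ) * (x : ℝ) ^ (47 / 100 : ℝ) := by
        rw [← rpow_add hxpos]
        exact rpow_le_rpow_of_exponent_le hx1' (by norm_num)
      exact le_of_mul_le_mul_right ((hz.trans hw).trans e1) (by positivity)
    have hp53' : (p : ℝ) ≤ (x : ℝ) ^ (53 / 100 + 1 / 600 : ℝ) :=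
      hp53.trans (rpow_le_rpow_of_exponent_le hx1' (by norm_num))
    have hpm53 : (p : ℝ) * m ≤ (x : ℝ) ^ (53 / 100 + 1 / 600 : ℝ) := by
      rw [rpow_add hxpos]
      exact mul_le_mul hp53 h8 hm0.le (by positivity)
    have hsU : (s : ℝ) ≤ (x : ℝ) ^ (7 / 100 : ℝ) := by
      apply key s p (Nat.cast_nonneg _) _ hp53'
      have e1 : (g : ℝ) * s ≤ p := by
        have : g * s ≤ p := by omega
        exact_mod_cast this
      have := mul_le_mul_of_nonneg_left h13.le (Nat.cast_nonneg (α := ℝ) s)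
      linarith
    have htU : (t : ℝ) ≤ (x : ℝ) ^ (7 / 100 : ℝ) := by
      apply key t p (Nat.cast_nonneg _) _ hp53'
      have e1 : (h : ℝ) * t ≤ q := by
        have : h * t ≤ q := by omega
        exact_mod_cast this
      have := mul_le_mul_of_nonneg_left h14.le (Nat.cast_nonneg (α := ℝ) t)
      linarith
    have haU : (a : ℝ) ≤ (x : ℝ) ^ (7 / 100 : ℝ) := by
      apply key a (p * m) (Nat.cast_nonneg _) _ hpm53
      have e1 : (g : ℝ) * a ≤ q * m := by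
        have : g * a ≤ q * m := by omega
        exact_mod_cast this
      have e2 := mul_le_mul_of_nonneg_left h13.le (Nat.cast_nonneg (α := ℝ) a)
      have e3 := mul_le_mul_of_nonneg_right hqp hm0.le
      linarith
    have hbU : (b : ℝ) ≤ (x : ℝ) ^ (7 / 100 : ℝ) := by
      apply key b (p * m) (Nat.cast_nonneg _) _ hpm53
      have e1 : (h : ℝ) * b ≤ p * m := by
        have : h * b ≤ p * m := by omega
        exact_mod_cast this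
      have e2 := mul_le_mul_of_nonneg_left h14.le (Nat.cast_nonneg (α := ℝ) b)
      linarith
    have hmU : (m : ℝ) ≤ (x : ℝ) ^ (7 / 100 : ℝ) :=
      h8.trans (rpow_le_rpow_of_exponent_le hx1' (by norm_num))
    refine ⟨(m, s, t, a, b), ?_, g, h, by exact_mod_cast hg0, by exact_mod_cast hh0, h7, hs1, ht1,
      ?_, ?_, ?_⟩
    · simp only [mem_product, mem_Icc, hU]
      exact ⟨⟨by omega, Nat.le_floor hmU⟩, ⟨hs1, Nat.le_floor hsU⟩, ⟨ht1, Nat.le_floor htU⟩,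
        ⟨ha1, Nat.le_floor haU⟩, ⟨hb1, Nat.le_floor hbU⟩⟩
    · show g * a + 1 = m * (h * t + 1)
      rw [← hqt, ← hqa, mul_comm]
    · show h * b + 1 = m * (g * s + 1)
      rw [← hps, ← hpb, mul_comm]
    · show n = (g * s + 1) * (h * t + 1) * m
      rw [← hps, ← hqt]; exact h3
  choose! f hf1 hf2 using hmain
  have hcard : S.card ≤ ((Icc 1 U) ×ˢ (Icc 1 U) ×ˢ (Icc 1 U) ×ˢ (Icc 1 U) ×ˢ (Icc 1 U)).card := by
    apply card_le_card_of_injOn f (fun n hn => hf1 n hn)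
    intro n hn n' hn' hff
    obtain ⟨g, h, g1, g2, g3, g4, g5, g6, g7, g8⟩ := hf2 n hn
    obtain ⟨g', h', k1, k2, k3, k4, k5, k6, k7, k8⟩ := hf2 n' hn'
    rw [← hff] at k6 k7 k8
    obtain ⟨u1, u2⟩ := uniq g3 g4 g5 g1 g2 g6 g7 k6 k7
    rw [g8, k8, u1, u2]
  simp only [card_product, Nat.card_Icc, Nat.add_sub_cancel] at hcard
  have h2 : (S.card : ℝ) ≤ (U : ℝ) * (U * (U * (U * U))) := by exact_mod_cast hcard
  refine h2.trans ?_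
  rw [one_mul]
  have hU0 : (0 : ℝ) ≤ U := Nat.cast_nonneg _
  have h3 : (U : ℝ) * (U * (U * (U * U))) = (U : ℝ) ^ 5 := by ring
  rw [h3]
  calc (U : ℝ) ^ 5 ≤ ((x : ℝ) ^ (7 / 100 : ℝ)) ^ 5 := pow_le_pow_left₀ hU0 hUle 5
    _ = (x : ℝ) ^ (7 / 100 * ((5 : ℕ) : ℝ) : ℝ) := by rw [← rpow_natCast, ← rpow_mul hxpos.le]
    _ ≤ _ := rpow_le_rpow_of_exponent_le hx1' (by norm_num)

theorem clsD2 : ∃ K : ℝ, 0 < K ∧ ∃ x0 : ℕ, ∀ x : ℕ, x0 ≤ x → ∀ S : Finset ℕ,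
    (∀ n ∈ S, (x : ℝ) / 2 < n ∧ n ≤ x ∧ IsD2 x n) →
    (S.card : ℝ) ≤ K * (x : ℝ) ^ (1 / 2 - 1 / 1000 : ℝ) := by
  classical
  obtain ⟨K1, hK1, x1, hx1⟩ := clsD2a
  obtain ⟨K2, hK2, x2, hx2⟩ := clsD2b
  obtain ⟨K3, hK3, x3, hx3⟩ := clsD2c
  refine ⟨K1 + K2 + K3, by positivity, max (max x1 x2) x3, ?_⟩
  intro x hx S hS
  have hxx1 : x1 ≤ x := (le_max_left _ _).trans ((le_max_left _ _).trans hx)
  have hxx2 : x2 ≤ x := (le_max_right _ _).trans ((le_max_left _ _).trans hx)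
  have hxx3 : x3 ≤ x := (le_max_right _ _).trans hx
  obtain ⟨Qa, hQa⟩ : ∃ Q : ℕ → Prop, Q = fun n => ∃ p q m g h : ℕ, n = p * q * m ∧ p.Prime ∧
      q.Prime ∧
      q < p ∧ 2 ≤ m ∧ (m : ℝ) ≤ (x : ℝ) ^ (1 / 600 : ℝ) ∧ g ∣ p - 1 ∧ g ∣ q * m - 1 ∧ h ∣ q - 1 ∧
      h ∣ p * m - 1 ∧ Lv x p g ∧ Lv x q h ∧ (p : ℝ) ^ (1 / 2 - 1 / 100 : ℝ) ≤ g ∧
      (q : ℝ) ^ (1 / 2 - 1 / 100 : ℝ) ≤ h ∧ (g : ℝ) ≤ (x : ℝ) ^ (47 / 100 : ℝ) := ⟨_, rfl⟩
  obtain ⟨Qb, hQb⟩ : ∃ Q : ℕ → Prop, Q = fun n => ∃ p q m g h : ℕ, n = p * q * m ∧ p.Prime ∧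
      q.Prime ∧
      q < p ∧ 2 ≤ m ∧ (m : ℝ) ≤ (x : ℝ) ^ (1 / 600 : ℝ) ∧ g ∣ p - 1 ∧ g ∣ q * m - 1 ∧ h ∣ q - 1 ∧
      h ∣ p * m - 1 ∧ Lv x p g ∧ Lv x q h ∧ (p : ℝ) ^ (1 / 2 - 1 / 100 : ℝ) ≤ g ∧
      (q : ℝ) ^ (1 / 2 - 1 / 100 : ℝ) ≤ h ∧ (h : ℝ) ≤ (x : ℝ) ^ (47 / 100 : ℝ) := ⟨_, rfl⟩
  have h1 := hx1 x hxx1 (S.filter Qa) (by
    intro n hn
    rw [mem_filter] at hn
    obtain ⟨a1, a2, _⟩ := hS n hn.1
    have := hn.2
    rw [hQa] at this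
    exact ⟨a1, a2, this⟩)
  have h2 := hx2 x hxx2 (S.filter Qb) (by
    intro n hn
    rw [mem_filter] at hn
    obtain ⟨a1, a2, _⟩ := hS n hn.1
    have := hn.2
    rw [hQb] at this
    exact ⟨a1, a2, this⟩)
  have h3 := hx3 x hxx3 (S.filter (fun n => ¬ Qa n ∧ ¬ Qb n)) (by
    intro n hn
    rw [mem_filter] at hn
    obtain ⟨a1, a2, p, q, m, g, h, b1, b2, b3, b4, b5, b6, b7, b8, b9, b10, b11, b12, b13, b14⟩ :=
      hS n hn.1
    refine ⟨a1, a2, p, q, m, g, h, b1, b2, b3, b4, b5, b6, b7, b8, b9, b10, ?_, ?_⟩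
    · by_contra hc
      push Not at hc
      apply hn.2.1
      rw [hQa]
      exact ⟨p, q, m, g, h, b1, b2, b3, b4, b5, b6, b7, b8, b9, b10, b11, b12, b13, b14, hc⟩
    · by_contra hc
      push Not at hc
      apply hn.2.2
      rw [hQb]
      exact ⟨p, q, m, g, h, b1, b2, b3, b4, b5, b6, b7, b8, b9, b10, b11, b12, b13, b14, hc⟩)
  have hsplit : S ⊆ (S.filter Qa ∪ S.filter Qb) ∪ S.filter (fun n => ¬ Qa n ∧ ¬ Qb n) := by
    intro n hn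
    rw [mem_union, mem_union, mem_filter, mem_filter, mem_filter]
    by_cases ha : Qa n
    · exact Or.inl (Or.inl ⟨hn, ha⟩)
    · by_cases hb : Qb n
      · exact Or.inl (Or.inr ⟨hn, hb⟩)
      · exact Or.inr ⟨hn, ha, hb⟩
  have h4 := (card_le_card hsplit).trans (card_union_le _ _)
  have h5 := h4.trans (Nat.add_le_add_right (card_union_le _ _) _)
  have h6 : (S.card : ℝ) ≤ ((S.filter Qa).card : ℝ) + ((S.filter Qb).card : ℝ) +
      ((S.filter (fun n => ¬ Qa n ∧ ¬ Qb n)).card : ℝ) := by exact_mod_cast h5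
  linarith

end Pool.Agent.L0h54.EX
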