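import Pool.Agent.L0h54.EX.ClsAC

set_option autoImplicit false

/-! Smooth numbers, large modulus. -/

namespace Pool.Agent.L0h54.EX

open Finset Real Pool.Agent.W57.SW

/-- the numbers in the first smooth class -/
def IsS1 (x n : ℕ) : Prop := ∃ d e L : ℕ, n = d * e ∧ d ∈ Rx x (1 / 100000) (1 / 300) ∧ 2 ≤ d ∧
  (x : ℝ) ^ (1 / 100 : ℝ) ≤ e ∧ (e : ℝ) ≤ (x : ℝ) ^ (4 / 300 : ℝ) ∧ L ∈ (Nat.totient d).divisors ∧
  (x : ℝ) ^ (4 / 300 : ℝ) ≤ L ∧ d * e ≡ 1 [MOD L]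

lemma card_mod {L Y c : ℕ} (T : Finset ℕ) (hT : ∀ q ∈ T, q ≤ Y ∧ q ≡ c [MOD L]) :
    (T.card : ℝ) ≤ (Y : ℝ) / L + 1 := by
  have h1 : T.card ≤ Y / L + 1 := by
    have : T.card ≤ (range (Y / L + 1)).card := by
      apply card_le_card_of_injOn (fun q => q / L)
      · intro q hq
        rw [mem_coe] at hq
        rw [mem_coe, mem_range]
        exact Nat.lt_succ_of_le (Nat.div_le_div_right (hT q hq).1)
      · intro q hq q' hq' h
        rw [mem_coe] at hq hq'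
        have h2 : q % L = q' % L := (hT q hq).2.trans (hT q' hq').2.symm
        have h3 : q / L = q' / L := h
        rw [← Nat.mod_add_div q L, ← Nat.mod_add_div q' L, h2, h3]
    rwa [card_range] at this
  have h2 : (T.card : ℝ) ≤ ((Y / L + 1 : ℕ) : ℝ) := by exact_mod_cast h1
  push_cast at h2
  have h3 := Nat.cast_div_le (α := ℝ) (m := Y) (n := L)
  linarith

lemma modeq_cancel {d e e0 g : ℕ} (h : d * e ≡ 1 [MOD g]) (h0 : d * e0 ≡ 1 [MOD g]) :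
    e ≡ e0 [MOD g] := by
  have h1 : d * e ≡ d * e0 [MOD g] := h.trans h0.symm
  apply Nat.ModEq.cancel_left_of_coprime _ h1
  have h3 : Nat.gcd g (d * e0) = Nat.gcd g 1 := by
    rw [Nat.gcd_comm g, Nat.gcd_comm g]; exact h0.gcd_eq
  rw [Nat.gcd_one_right] at h3
  exact Nat.Coprime.coprime_mul_right_right h3

theorem clsS1 : ∃ K : ℝ, 0 < K ∧ ∃ x0 : ℕ, ∀ x : ℕ, x0 ≤ x → ∀ S : Finset ℕ,
    (∀ n ∈ S, (x : ℝ) / 2 < n ∧ n ≤ x ∧ IsS1 x n) →
    (S.card : ℝ) ≤ K * (x : ℝ) ^ (1 / 2 - 1 / 1000 : ℝ) := by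
  classical
  obtain ⟨K1, hK1, x1, hx1⟩ := rank_Rx (1 / 100000) (by norm_num) (by norm_num)
  obtain ⟨K2, hK2, hdiv⟩ := Helper112.divisor_bound (1 / 10000) (by norm_num)
  obtain ⟨K3, hK3⟩ : ∃ K3 : ℝ, K3 = 1 + 2 / (1 / 10000 : ℝ) := ⟨_, rfl⟩
  have hK30 : 0 < K3 := by rw [hK3]; norm_num
  refine ⟨(K1 * K3) * (3 * K2), by positivity, max x1 3, ?_⟩
  intro x hx S hS
  have hxx1 : x1 ≤ x := (le_max_left _ _).trans hx
  have hx3 : 3 ≤ x := (le_max_right _ _).trans hx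
  have hlogx : 1 ≤ log (x : ℝ) := one_le_log hx3
  have hxpos : (0 : ℝ) < x := by exact_mod_cast (by omega : 0 < x)
  have hx1' : (1 : ℝ) ≤ x := by exact_mod_cast (by omega : 1 ≤ x)
  obtain ⟨w, hw⟩ : ∃ w : ℝ, w = (x : ℝ) ^ (4 / 300 : ℝ) := ⟨_, rfl⟩
  have hw0 : 0 < w := by rw [hw]; positivity
  obtain ⟨D, hD⟩ : ∃ D : Finset ℕ, D = (Rx x (1 / 100000) (1 / 300)).filter
      (fun d : ℕ => 2 ≤ d ∧ (d : ℝ) * (x : ℝ) ^ (1 / 100 : ℝ) ≤ x ∧ (x : ℝ) ≤ 2 * w * d) :=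
    ⟨_, rfl⟩
  have hcov := cover_count S D (fun d => (Nat.totient d).divisors.filter
      (fun L : ℕ => w ≤ (L : ℝ)))
    (fun d L => (Icc 1 ⌊(x : ℝ) / d⌋₊).filter (fun e => d * e ≡ 1 [MOD L]))
    (fun d _ e => d * e) (by
      intro n hn
      obtain ⟨h1, h2, d, e, L, h3, h4, h5, h6, h7, h8, h9, h10⟩ := hS n hn
      have hd0 : (0 : ℝ) < d := by exact_mod_cast (by omega : 0 < d)
      have he1 : (0 : ℝ) < e := lt_of_lt_of_le (by positivity) h6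
      have he0 : 1 ≤ e := by exact_mod_cast he1
      have hde : (d : ℝ) * e ≤ x := by
        have : d * e ≤ x := by rw [← h3]; exact h2
        exact_mod_cast this
      rw [← hw] at h7 h9
      refine ⟨d, ?_, L, ?_, e, ?_, h3.symm⟩
      · rw [hD, mem_filter]
        refine ⟨h4, h5, ?_, ?_⟩
        · exact (mul_le_mul_of_nonneg_left h6 hd0.le).trans hde
        · rw [h3] at h1
          push_cast at h1
          have := mul_le_mul_of_nonneg_left h7 hd0.le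
          linarith
      · rw [mem_filter]
        exact ⟨h8, h9⟩
      · rw [mem_filter, mem_Icc]
        refine ⟨⟨he0, Nat.le_floor ?_⟩, h10⟩
        rw [le_div_iff₀ hd0]
        linarith)
  have hDm : ∀ d ∈ D, 2 ≤ d ∧ d ≤ x ∧ (d : ℝ) * (x : ℝ) ^ (1 / 100 : ℝ) ≤ x ∧
      d ∈ Rx x (1 / 100000) (1 / 300) ∧ (x : ℝ) ≤ 2 * w * d := by
    intro d hd
    rw [hD, mem_filter] at hd
    exact ⟨hd.2.1, (mem_Rx.mp hd.1).1.2, hd.2.2.1, hd.1, hd.2.2.2⟩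
  have hE : ∀ d ∈ D, ∀ L ∈ (Nat.totient d).divisors.filter (fun L : ℕ => w ≤ (L : ℝ)),
      (((Icc 1 ⌊(x : ℝ) / d⌋₊).filter (fun e => d * e ≡ 1 [MOD L])).card : ℝ) ≤ 3 := by
    intro d hd L hL
    obtain ⟨hd2, hdx, _, _, hd5⟩ := hDm d hd
    rw [mem_filter] at hL
    have hd0 : (0 : ℝ) < d := by exact_mod_cast (by omega : 0 < d)
    have hL0 : (0 : ℝ) < L := hw0.trans_le hL.2
    rcases ((Icc 1 ⌊(x : ℝ) / d⌋₊).filter
        (fun e => d * e ≡ 1 [MOD L])).eq_empty_or_nonempty with h0 | h0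
    · rw [h0]; simp
    · obtain ⟨e0, he0⟩ := h0
      rw [mem_filter] at he0
      have h1 := card_mod (L := L) (Y := ⌊(x : ℝ) / d⌋₊) (c := e0) ((Icc 1 ⌊(x : ℝ) / d⌋₊).filter
        (fun e => d * e ≡ 1 [MOD L])) (by
        intro q hq
        rw [mem_filter, mem_Icc] at hq
        exact ⟨hq.1.2, modeq_cancel hq.2 he0.2⟩)
      refine h1.trans ?_
      have h2 : ((⌊(x : ℝ) / d⌋₊ : ℕ) : ℝ) / L ≤ 2 := by
        rw [div_le_iff₀ hL0]
        calc ((⌊(x : ℝ) / d⌋₊ : ℕ) : ℝ) ≤ (x : ℝ) / d := Nat.floor_le (by positivity)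
          _ ≤ 2 * w := by rw [div_le_iff₀ hd0]; exact hd5
          _ ≤ 2 * L := by linarith [hL.2]
      linarith
  have h1 : ∀ d ∈ D, ∑ L ∈ (Nat.totient d).divisors.filter (fun L : ℕ => w ≤ (L : ℝ)),
      (((Icc 1 ⌊(x : ℝ) / d⌋₊).filter (fun e => d * e ≡ 1 [MOD L])).card : ℝ) ≤
      3 * K2 * (x : ℝ) ^ (1 / 10000 : ℝ) := by
    intro d hd
    refine (sum_le_sum (hE d hd)).trans ?_
    rw [sum_const, nsmul_eq_mul]
    obtain ⟨hd2, hdx, _, _, _⟩ := hDm d hd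
    have h2 : (((Nat.totient d).divisors.filter (fun L : ℕ => w ≤ (L : ℝ))).card : ℝ) ≤
        K2 * (x : ℝ) ^ (1 / 10000 : ℝ) := by
      have h3 : (((Nat.totient d).divisors.filter (fun L : ℕ => w ≤ (L : ℝ))).card : ℝ) ≤
          (Nat.totient d).divisors.card := by exact_mod_cast card_filter_le _ _
      refine h3.trans ((hdiv _ (Nat.totient_pos.mpr (by omega))).trans ?_)
      apply mul_le_mul_of_nonneg_left _ hK2.le
      apply rpow_le_rpow (Nat.cast_nonneg _) _ (by norm_num)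
      exact_mod_cast (Nat.totient_le d).trans hdx
    linarith
  have h2 := hcov.trans (sum_le_sum h1)
  rw [sum_const, nsmul_eq_mul] at h2
  -- the number of `d`
  obtain ⟨X, hX⟩ : ∃ X : ℕ, X = ⌊(x : ℝ) ^ (99 / 100 : ℝ)⌋₊ := ⟨_, rfl⟩
  have hX1 : 1 ≤ X := by
    rw [hX]; apply Nat.le_floor; rw [Nat.cast_one]; exact one_le_rpow hx1' (by norm_num)
  have h3 : (D.card : ℝ) ≤ K1 * log x * (x : ℝ) ^ (1 / 300 / 2 : ℝ) *
      (X : ℝ) ^ (1 / 2 + 2 * (1 / 100000) : ℝ) := by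
    refine le_trans ?_ (hx1 x hxx1 (1 / 300) (by norm_num) X hX1)
    have : D ⊆ (Rx x (1 / 100000) (1 / 300)).filter (fun d : ℕ => d ≤ X) := by
      intro d hd
      obtain ⟨a1, a2, a3, a4, a5⟩ := hDm d hd
      refine mem_filter.mpr ⟨a4, ?_⟩
      rw [hX]
      apply Nat.le_floor
      have e1 : (x : ℝ) = (x : ℝ) ^ (99 / 100 : ℝ) * (x : ℝ) ^ (1 / 100 : ℝ) := by
        rw [← rpow_add hxpos]; norm_num
      have e2 : 0 < (x : ℝ) ^ (1 / 100 : ℝ) := by positivity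
      have e3 : (d : ℝ) * (x : ℝ) ^ (1 / 100 : ℝ) ≤
          (x : ℝ) ^ (99 / 100 : ℝ) * (x : ℝ) ^ (1 / 100 : ℝ) := by rw [← e1]; exact a3
      exact le_of_mul_le_mul_right e3 e2
    exact_mod_cast card_le_card this
  have h4 : (X : ℝ) ^ (1 / 2 + 2 * (1 / 100000) : ℝ) ≤
      (x : ℝ) ^ (99 / 100 * (1 / 2 + 2 * (1 / 100000)) : ℝ) := by
    rw [rpow_mul hxpos.le]
    apply rpow_le_rpow (Nat.cast_nonneg _) _ (by norm_num)
    rw [hX]
    exact Nat.floor_le (by positivity)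
  have hLK : log (x : ℝ) ≤ K3 * (x : ℝ) ^ (1 / 10000 : ℝ) := by
    have := log_fac (1 / 10000) (by norm_num) hx1'
    rw [← hK3] at this
    linarith
  obtain ⟨a, ha⟩ : ∃ a : ℝ, a = (x : ℝ) ^ (1 / 10000 : ℝ) := ⟨_, rfl⟩
  obtain ⟨b, hb⟩ : ∃ b : ℝ, b = (x : ℝ) ^ (1 / 300 / 2 : ℝ) := ⟨_, rfl⟩
  obtain ⟨c, hc⟩ : ∃ c : ℝ, c = (x : ℝ) ^ (99 / 100 * (1 / 2 + 2 * (1 / 100000)) : ℝ) := ⟨_, rfl⟩
  rw [← ha] at h2 hLK
  rw [← hb] at h3
  rw [← hc] at h4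
  have ha0 : 0 < a := by rw [ha]; positivity
  have hb0 : 0 < b := by rw [hb]; positivity
  have hc0 : 0 < c := by rw [hc]; positivity
  have hfin : a * a * b * c ≤ (x : ℝ) ^ (1 / 2 - 1 / 1000 : ℝ) := by
    rw [ha, hb, hc, ← rpow_add hxpos, ← rpow_add hxpos, ← rpow_add hxpos]
    apply rpow_le_rpow_of_exponent_le hx1'
    norm_num
  calc (S.card : ℝ) ≤ D.card * (3 * K2 * a) := h2
    _ ≤ (K1 * (K3 * a) * b * c) * (3 * K2 * a) := by
        apply mul_le_mul_of_nonneg_right _ (by positivity)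
        refine h3.trans ?_
        apply mul_le_mul _ h4 (by positivity) (by positivity)
        apply mul_le_mul_of_nonneg_right _ hb0.le
        exact mul_le_mul_of_nonneg_left hLK hK1.le
    _ = (K1 * K3) * (3 * K2) * (a * a * b * c) := by ring
    _ ≤ _ := mul_le_mul_of_nonneg_left hfin (by positivity)

end Pool.Agent.L0h54.EX
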