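import Pool.Agent.L0h54.EX.PSum

set_option autoImplicit false

/-! Smooth numbers, small modulus. -/

namespace Pool.Agent.L0h54.EX

open Finset Real Pool.Agent.W57.SW

/-- the numbers in the second smooth class -/
def IsS2 (x n : ℕ) : Prop := Squarefree n ∧ ∃ L b : ℕ, 1 ≤ L ∧
  (L : ℝ) ≤ (x : ℝ) ^ (8 / 300 : ℝ) ∧ (b : ℝ) ≤ (x : ℝ) ^ (1 / 300 : ℝ) ∧ Nz x b ∧
  ∀ p : ℕ, p.Prime → p ∣ n → Odd p ∧ (Same x p 1 ∨ Same x p b) ∧
    (p : ℝ) ^ (1 / 2 - 1 / 100 : ℝ) ≤ Nat.gcd (p - 1) L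

/-- Rankin's bound -/
lemma rankin (σ C : ℝ) (hσ : 0 ≤ σ) {x : ℕ} (P : Finset ℕ)
    (hP : ∑ p ∈ P, (p : ℝ) ^ (-σ) ≤ C) (S : Finset ℕ)
    (hS : ∀ n ∈ S, 1 ≤ n ∧ n ≤ x ∧ Squarefree n ∧ n.primeFactors ⊆ P) :
    (S.card : ℝ) ≤ (x : ℝ) ^ σ * exp C := by
  classical
  have h1 : (S.card : ℝ) ≤ ∑ n ∈ S, (x : ℝ) ^ σ * ∏ p ∈ n.primeFactors, (p : ℝ) ^ (-σ) := by
    rw [← mul_one (S.card : ℝ), ← nsmul_eq_mul, ← sum_const]
    apply sum_le_sum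
    intro n hn
    obtain ⟨a1, a2, a3, a4⟩ := hS n hn
    have hn0 : (0 : ℝ) < n := by exact_mod_cast a1
    have e1 : ∏ p ∈ n.primeFactors, (p : ℝ) ^ (-σ) = (n : ℝ) ^ (-σ) := by
      rw [finsetProd_rpow _ _ (fun p _ => Nat.cast_nonneg p)]
      congr 1
      rw [← Nat.cast_prod, Nat.prod_primeFactors_of_squarefree a3]
    rw [e1, rpow_neg hn0.le, ← div_eq_mul_inv, ← div_rpow (Nat.cast_nonneg _) hn0.le]
    apply one_le_rpow _ hσ
    rw [one_le_div hn0]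
    exact_mod_cast a2
  refine h1.trans ?_
  rw [← mul_sum]
  apply mul_le_mul_of_nonneg_left _ (by positivity)
  have h2 : ∑ n ∈ S, ∏ p ∈ n.primeFactors, (p : ℝ) ^ (-σ) =
      ∑ T ∈ S.image Nat.primeFactors, ∏ p ∈ T, (p : ℝ) ^ (-σ) := by
    rw [sum_image]
    intro n hn m hm h
    rw [← Nat.prod_primeFactors_of_squarefree (hS n hn).2.2.1,
      ← Nat.prod_primeFactors_of_squarefree (hS m hm).2.2.1, h]
  rw [h2]
  have h3 : ∑ T ∈ S.image Nat.primeFactors, ∏ p ∈ T, (p : ℝ) ^ (-σ) ≤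
      ∑ T ∈ P.powerset, ∏ p ∈ T, (p : ℝ) ^ (-σ) := by
    apply sum_le_sum_of_subset_of_nonneg
    · intro T hT
      rw [mem_image] at hT
      obtain ⟨n, hn, rfl⟩ := hT
      exact mem_powerset.mpr (hS n hn).2.2.2
    · intro T _ _
      exact prod_nonneg fun p _ => by positivity
  refine h3.trans ?_
  rw [← prod_one_add]
  calc ∏ p ∈ P, (1 + (p : ℝ) ^ (-σ)) ≤ ∏ p ∈ P, exp ((p : ℝ) ^ (-σ)) := by
        apply prod_le_prod (fun p _ => by positivity)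
        intro p _
        rw [add_comm]
        exact add_one_le_exp _
    _ = exp (∑ p ∈ P, (p : ℝ) ^ (-σ)) := (exp_sum _ _).symm
    _ ≤ exp C := exp_le_exp.mpr hP

theorem clsS2 : ∃ K : ℝ, 0 < K ∧ ∃ x0 : ℕ, ∀ x : ℕ, x0 ≤ x → ∀ S : Finset ℕ,
    (∀ n ∈ S, (x : ℝ) / 2 < n ∧ n ≤ x ∧ IsS2 x n) →
    (S.card : ℝ) ≤ K * (x : ℝ) ^ (1 / 2 - 1 / 1000 : ℝ) := by
  classical
  obtain ⟨C, hC, x0, hx0⟩ := P_sum
  refine ⟨2 * exp C, by positivity, max x0 3, ?_⟩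
  intro x hx S hS
  have hxx0 : x0 ≤ x := (le_max_left _ _).trans hx
  have hx3 : 3 ≤ x := (le_max_right _ _).trans hx
  have hxpos : (0 : ℝ) < x := by exact_mod_cast (by omega : 0 < x)
  have hx1' : (1 : ℝ) ≤ x := by exact_mod_cast (by omega : 1 ≤ x)
  obtain ⟨A, hA⟩ : ∃ A : Finset ℕ, A = Icc 1 ⌊(x : ℝ) ^ (8 / 300 : ℝ)⌋₊ := ⟨_, rfl⟩
  obtain ⟨B, hB⟩ : ∃ B : Finset ℕ, B = range (⌊(x : ℝ) ^ (1 / 300 : ℝ)⌋₊ + 1) := ⟨_, rfl⟩
  set Q : ℕ → ℕ → ℕ → Prop := fun L b n => Nz x b ∧ ∀ p : ℕ, p.Prime → p ∣ n →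
    Odd p ∧ (Same x p 1 ∨ Same x p b) ∧
    (p : ℝ) ^ (1 / 2 - 1 / 100 : ℝ) ≤ Nat.gcd (p - 1) L with hQ
  have hSs : ∀ n ∈ S, 1 ≤ n ∧ n ≤ x ∧ Squarefree n := by
    intro n hn
    obtain ⟨h1, h2, h3, _⟩ := hS n hn
    refine ⟨?_, h2, h3⟩
    have : (0 : ℝ) < n := by linarith
    exact_mod_cast this
  have h1 : S ⊆ A.biUnion (fun L => B.biUnion (fun b => S.filter (fun n => Q L b n))) := by
    intro n hn
    obtain ⟨h1, h2, h3, L, b, h4, h5, h6, h7, h8⟩ := hS n hn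
    rw [mem_biUnion]
    refine ⟨L, ?_, ?_⟩
    · rw [hA, mem_Icc]
      exact ⟨h4, Nat.le_floor h5⟩
    · rw [mem_biUnion]
      refine ⟨b, ?_, ?_⟩
      · rw [hB, mem_range, Nat.lt_succ_iff]
        exact Nat.le_floor h6
      · rw [mem_filter]
        exact ⟨hn, h7, h8⟩
  have hone : ∀ L ∈ A, ∀ b ∈ B, ((S.filter (fun n => Q L b n)).card : ℝ) ≤
      (x : ℝ) ^ (46 / 100 : ℝ) * exp C := by
    intro L hL b hb
    by_cases hbz : Nz x b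
    · rw [hA, mem_Icc] at hL
      have hLx : L ≤ x := by
        refine hL.2.trans (Nat.floor_le_of_le ?_)
        calc (x : ℝ) ^ (8 / 300 : ℝ) ≤ (x : ℝ) ^ (1 : ℝ) :=
              rpow_le_rpow_of_exponent_le hx1' (by norm_num)
          _ = x := rpow_one _
      apply rankin (46 / 100) C (by norm_num) (x := x) ((Icc 1 x).filter (fun p => p.Prime ∧
        Odd p ∧ (Same x p 1 ∨ Same x p b) ∧
          (p : ℝ) ^ (1 / 2 - 1 / 100 : ℝ) ≤ Nat.gcd (p - 1) L))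
      · apply hx0 x hxx0 b L hbz hL.1 hLx
        intro p hp
        rw [mem_filter, mem_Icc] at hp
        exact ⟨hp.2.1, hp.2.2.1, hp.1.2, hp.2.2.2.1, hp.2.2.2.2⟩
      · intro n hn
        rw [mem_filter] at hn
        obtain ⟨a1, a2, a3⟩ := hSs n hn.1
        refine ⟨a1, a2, a3, ?_⟩
        intro p hp
        rw [Nat.mem_primeFactors] at hp
        obtain ⟨b1, b2, b3⟩ := hn.2.2 p hp.1 hp.2.1
        rw [mem_filter, mem_Icc]
        exact ⟨⟨hp.1.one_lt.le, (Nat.le_of_dvd (by omega) hp.2.1).trans a2⟩, hp.1, b1, b2, b3⟩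
    · have : S.filter (fun n => Q L b n) = ∅ := by
        rw [filter_eq_empty_iff]
        intro n _ h
        exact hbz h.1
      rw [this]
      simp only [card_empty, Nat.cast_zero]
      positivity
  have h2 := (card_le_card h1).trans card_biUnion_le
  have h3 : S.card ≤ ∑ L ∈ A, ∑ b ∈ B, (S.filter (fun n => Q L b n)).card :=
    h2.trans (sum_le_sum fun L _ => card_biUnion_le)
  have h4 : (S.card : ℝ) ≤ ∑ L ∈ A, ∑ b ∈ B, ((S.filter (fun n => Q L b n)).card : ℝ) := by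
    exact_mod_cast h3
  have h5 : ∑ L ∈ A, ∑ b ∈ B, ((S.filter (fun n => Q L b n)).card : ℝ) ≤
      A.card * (B.card * ((x : ℝ) ^ (46 / 100 : ℝ) * exp C)) := by
    rw [← nsmul_eq_mul, ← nsmul_eq_mul, ← sum_const, ← sum_const]
    exact sum_le_sum fun L hL => sum_le_sum fun b hb => hone L hL b hb
  refine (h4.trans h5).trans ?_
  have hAc : (A.card : ℝ) ≤ (x : ℝ) ^ (8 / 300 : ℝ) := by
    rw [hA, Nat.card_Icc, Nat.add_sub_cancel]
    exact Nat.floor_le (by positivity)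
  have hBc : (B.card : ℝ) ≤ 2 * (x : ℝ) ^ (1 / 300 : ℝ) := by
    rw [hB, card_range]
    push_cast
    have h6 := Nat.floor_le (show 0 ≤ (x : ℝ) ^ (1 / 300 : ℝ) by positivity)
    have h7 : 1 ≤ (x : ℝ) ^ (1 / 300 : ℝ) := one_le_rpow hx1' (by norm_num)
    linarith
  calc (A.card : ℝ) * (B.card * ((x : ℝ) ^ (46 / 100 : ℝ) * exp C)) ≤
      (x : ℝ) ^ (8 / 300 : ℝ) * ((2 * (x : ℝ) ^ (1 / 300 : ℝ)) * ((x : ℝ) ^ (46 / 100 : ℝ) * exp C)) := by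
        apply mul_le_mul hAc _ (by positivity) (by positivity)
        exact mul_le_mul_of_nonneg_right hBc (by positivity)
    _ = 2 * exp C * ((x : ℝ) ^ (8 / 300 : ℝ) * (x : ℝ) ^ (1 / 300 : ℝ) *
          (x : ℝ) ^ (46 / 100 : ℝ)) := by ring
    _ = 2 * exp C * (x : ℝ) ^ (8 / 300 + 1 / 300 + 46 / 100 : ℝ) := by
        rw [rpow_add hxpos, rpow_add hxpos]
    _ ≤ _ := by
        apply mul_le_mul_of_nonneg_left _ (by positivity)
        exact rpow_le_rpow_of_exponent_le hx1' (by norm_num)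

end Pool.Agent.L0h54.EX
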