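import Mathlib

set_option autoImplicit false

/-! Sums of negative powers over divisors. -/

namespace Pool.Agent.L0h54.EX

open Finset Real ArithmeticFunction
open scoped ArithmeticFunction.zeta

/-- the arithmetic function `n ↦ n^(-κ)` -/
noncomputable def pw (κ : ℝ) : ArithmeticFunction ℝ := ⟨fun n => if n = 0 then 0 else (n : ℝ) ^ (-κ), by simp⟩

lemma pw_apply (κ : ℝ) {n : ℕ} (hn : n ≠ 0) : pw κ n = (n : ℝ) ^ (-κ) := by
  show (if n = 0 then 0 else (n : ℝ) ^ (-κ)) = _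
  rw [if_neg hn]

lemma pw_mult (κ : ℝ) : (pw κ).IsMultiplicative := by
  rw [IsMultiplicative.iff_ne_zero]
  refine ⟨?_, ?_⟩
  · rw [pw_apply κ one_ne_zero]; simp
  · intro m n hm hn _
    rw [pw_apply κ hm, pw_apply κ hn, pw_apply κ (mul_ne_zero hm hn)]
    push_cast
    rw [mul_rpow (Nat.cast_nonneg _) (Nat.cast_nonneg _)]

lemma div_sum_le (κ : ℝ) (hκ : 0 < κ) {L : ℕ} (hL : L ≠ 0) :
    ∑ h ∈ L.divisors, (h : ℝ) ^ (-κ) ≤
      exp ((1 - (2 : ℝ) ^ (-κ))⁻¹ * ∑ p ∈ L.primeFactors, (p : ℝ) ^ (-κ)) := by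
  have hm : (pw κ * (ζ : ArithmeticFunction ℝ)).IsMultiplicative :=
    (pw_mult κ).mul isMultiplicative_zeta.natCast
  have e1 : ∀ n : ℕ, (pw κ * (ζ : ArithmeticFunction ℝ)) n = ∑ h ∈ n.divisors, (h : ℝ) ^ (-κ) := by
    intro n
    rw [coe_mul_zeta_apply]
    apply sum_congr rfl
    intro h hh
    exact pw_apply κ (Nat.pos_of_mem_divisors hh).ne'
  rw [← e1, hm.multiplicative_factorization _ hL, Finsupp.prod, Nat.support_factorization, mul_sum,
    exp_sum]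
  apply prod_le_prod
  · intro p _
    rw [e1]
    exact sum_nonneg fun h _ => by positivity
  · intro p hp
    have hpp := Nat.prime_of_mem_primeFactors hp
    have hp2 : (2 : ℝ) ≤ p := by exact_mod_cast hpp.two_le
    rw [e1, Nat.sum_divisors_prime_pow hpp]
    obtain ⟨z, hz⟩ : ∃ z : ℝ, z = (p : ℝ) ^ (-κ) := ⟨_, rfl⟩
    have hz0 : 0 < z := by rw [hz]; positivity
    have hz2 : z ≤ (2 : ℝ) ^ (-κ) := by
      rw [hz]; exact rpow_le_rpow_of_nonpos (by norm_num) hp2 (by linarith)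
    have h21 : (2 : ℝ) ^ (-κ) < 1 := rpow_lt_one_of_one_lt_of_neg (by norm_num) (by linarith)
    have hz1 : z < 1 := by linarith
    have e2 : ∀ i ∈ range (L.factorization p + 1), ((p ^ i : ℕ) : ℝ) ^ (-κ) = z ^ i := by
      intro i _
      push_cast
      rw [hz, ← rpow_natCast, ← rpow_mul (by positivity), ← rpow_natCast, ← rpow_mul (by positivity),
        mul_comm]
    rw [sum_congr rfl e2, ← hz]
    have h1 : ∑ i ∈ range (L.factorization p + 1), z ^ i ≤ (1 - z)⁻¹ := by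
      rw [← tsum_geometric_of_lt_one hz0.le hz1]
      exact (summable_geometric_of_lt_one hz0.le hz1).sum_le_tsum _ fun i _ => by positivity
    refine h1.trans ?_
    have h2 : (1 - z)⁻¹ = 1 + z * (1 - z)⁻¹ := by
      have : 1 - z ≠ 0 := by linarith
      field_simp
      ring
    rw [h2]
    have h3 : z * (1 - z)⁻¹ ≤ (1 - (2 : ℝ) ^ (-κ))⁻¹ * z := by
      rw [mul_comm]
      apply mul_le_mul_of_nonneg_right _ hz0.le
      apply inv_anti₀ (by linarith) (by linarith)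
    calc 1 + z * (1 - z)⁻¹ ≤ (1 - (2 : ℝ) ^ (-κ))⁻¹ * z + 1 := by linarith
      _ ≤ _ := add_one_le_exp _

lemma sum_neg_pow (κ : ℝ) (hκ : 0 < κ) (T : Finset ℕ) (hT : ∀ p ∈ T, 1 ≤ p) {y : ℝ} (hy : 1 ≤ y) :
    ∑ p ∈ T, (p : ℝ) ^ (-κ) ≤ y + T.card * y ^ (-κ) := by
  classical
  rw [← sum_filter_add_sum_filter_not T (fun p : ℕ => (p : ℝ) ≤ y)]
  apply add_le_add
  · have h1 : ∑ p ∈ T.filter (fun p : ℕ => (p : ℝ) ≤ y), (p : ℝ) ^ (-κ) ≤
        ∑ _p ∈ T.filter (fun p : ℕ => (p : ℝ) ≤ y), (1 : ℝ) := by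
      apply sum_le_sum
      intro p hp
      have h1 := hT p (mem_filter.mp hp).1
      exact rpow_le_one_of_one_le_of_nonpos (by exact_mod_cast h1) (by linarith)
    refine h1.trans ?_
    rw [sum_const, nsmul_eq_mul, mul_one]
    have h2 : T.filter (fun p : ℕ => (p : ℝ) ≤ y) ⊆ Icc 1 ⌊y⌋₊ := by
      intro p hp
      rw [mem_filter] at hp
      rw [mem_Icc]
      exact ⟨hT p hp.1, Nat.le_floor hp.2⟩
    have h3 := card_le_card h2
    rw [Nat.card_Icc, Nat.add_sub_cancel] at h3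
    have h4 : ((T.filter (fun p : ℕ => (p : ℝ) ≤ y)).card : ℝ) ≤ (⌊y⌋₊ : ℝ) := by exact_mod_cast h3
    exact h4.trans (Nat.floor_le (by linarith))
  · have h1 : ∑ p ∈ T.filter (fun p : ℕ => ¬ (p : ℝ) ≤ y), (p : ℝ) ^ (-κ) ≤
        ∑ _p ∈ T.filter (fun p : ℕ => ¬ (p : ℝ) ≤ y), y ^ (-κ) := by
      apply sum_le_sum
      intro p hp
      have h1 := (mem_filter.mp hp).2
      push Not at h1
      exact rpow_le_rpow_of_nonpos (by linarith) h1.le (by linarith)
    refine h1.trans ?_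
    rw [sum_const, nsmul_eq_mul]
    apply mul_le_mul_of_nonneg_right _ (by positivity)
    exact_mod_cast card_filter_le _ _

end Pool.Agent.L0h54.EX
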