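import Pool.Agent.L0h54.EX.Basic

set_option autoImplicit false

/-! Many products of `u` primes up to `(log x)^2` outside a small exceptional set. -/

namespace Pool.Agent.L0h54.EX

open Finset Real Pool.Agent.W57.SW

lemma ev_fam (η : ℝ) (hη : 0 < η) : ∀ᶠ t : ℝ in Filter.atTop,
    (t ^ (2 - η) + 7 * t) * (2 * log t) + log (t ^ (2 : ℝ) + 1) + 1 ≤ 0.69 * t ^ (2 : ℝ) := by
  have h1 : ∀ᶠ t : ℝ in Filter.atTop, t ^ (2 - η) * (2 * log t) ≤ 0.1 * t ^ (2 : ℝ) := by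
    have h := (isLittleO_log_rpow_atTop hη).def (show (0 : ℝ) < 0.1 / 2 by positivity)
    filter_upwards [h, Filter.eventually_ge_atTop 1] with t ht ht1
    have ht0 : 0 < t := by linarith
    rw [norm_of_nonneg (log_nonneg ht1), norm_of_nonneg (by positivity)] at ht
    have e : t ^ (2 : ℝ) = t ^ (2 - η) * t ^ η := by rw [← rpow_add ht0]; congr 1; ring
    rw [e]
    have h2 : 2 * log t ≤ 0.1 * t ^ η := by linarith
    calc t ^ (2 - η) * (2 * log t) ≤ t ^ (2 - η) * (0.1 * t ^ η) :=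
          mul_le_mul_of_nonneg_left h2 (by positivity)
      _ = _ := by ring
  have h2 : ∀ᶠ t : ℝ in Filter.atTop, 7 * t * (2 * log t) ≤ 0.1 * t ^ (2 : ℝ) := by
    have h := (isLittleO_log_id_atTop).def (show (0 : ℝ) < 0.1 / 14 by positivity)
    filter_upwards [h, Filter.eventually_ge_atTop 1] with t ht ht1
    have ht0 : 0 < t := by linarith
    rw [norm_of_nonneg (log_nonneg ht1), id, norm_of_nonneg (by positivity)] at ht
    rw [rpow_two]
    nlinarith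
  have h3 : ∀ᶠ t : ℝ in Filter.atTop, log (t ^ (2 : ℝ) + 1) ≤ 0.1 * t ^ (2 : ℝ) := by
    have h := (isLittleO_log_id_atTop).def (show (0 : ℝ) < 0.05 by norm_num)
    have h' := ((tendsto_rpow_atTop (show (0 : ℝ) < 2 by norm_num)).atTop_add
      (tendsto_const_nhds (x := (1 : ℝ)))).eventually h
    have h'' := (tendsto_rpow_atTop (show (0 : ℝ) < 2 by norm_num)).eventually
      (Filter.eventually_ge_atTop 1)
    filter_upwards [h', h''] with t ht ht1
    rw [norm_of_nonneg (log_nonneg (by linarith)), id, norm_of_nonneg (by linarith)] at ht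
    linarith
  have h4 : ∀ᶠ t : ℝ in Filter.atTop, (1 : ℝ) ≤ 0.1 * t ^ (2 : ℝ) := by
    have h := (tendsto_rpow_atTop (show (0 : ℝ) < 2 by norm_num)).eventually
      (Filter.eventually_ge_atTop 10)
    filter_upwards [h] with t ht
    linarith
  filter_upwards [h1, h2, h3, h4] with t a1 a2 a3 a4
  nlinarith

/-- the family -/
theorem fam (ε : ℝ) (hε : 0 < ε) : ∃ x0 : ℕ, ∀ x : ℕ, x0 ≤ x → ∀ B : Finset ℕ,
    (B.card : ℝ) ≤ 3 * log x → ∀ M : ℕ, 1 ≤ M → (M : ℝ) ≤ (x : ℝ) ^ 4 →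
    ∃ u : ℕ, (∀ s ∈ powersetCard u (W x \ B), ∏ q ∈ s, q ≤ M) ∧
      (M : ℝ) ^ (1 / 2 - ε) ≤ ((powersetCard u (W x \ B)).card : ℝ) * log x ∧
      (16 : ℝ) ^ u ≤ (M : ℝ) ^ ε := by
  obtain ⟨η, hη0, hη1, hη2⟩ : ∃ η : ℝ, 0 < η ∧ η ≤ ε ∧ η ≤ 1 / 4 :=
    ⟨min ε (1 / 4), lt_min hε (by norm_num), min_le_left _ _, min_le_right _ _⟩
  have hev1 := ev_fam η hη0
  have hev2 : ∀ᶠ t : ℝ in Filter.atTop, 4 ≤ t ^ η :=
    (tendsto_rpow_atTop hη0).eventually (Filter.eventually_ge_atTop 4)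
  have hev3 : ∀ᶠ t : ℝ in Filter.atTop, 16 ≤ t ^ ε :=
    (tendsto_rpow_atTop hε).eventually (Filter.eventually_ge_atTop 16)
  have hev5 : ∀ᶠ t : ℝ in Filter.atTop, 3 ≤ t := Filter.eventually_ge_atTop _
  obtain ⟨t0, ht0⟩ := Filter.eventually_atTop.mp (hev1.and (hev2.and (hev3.and hev5)))
  refine ⟨⌈exp t0⌉₊, fun x hx B hB M hM1 hM4 => ?_⟩
  have hx1 : exp t0 ≤ x := Nat.ceil_le.mp hx
  have hx0 : (0 : ℝ) < x := (exp_pos _).trans_le hx1
  obtain ⟨t, ht⟩ : ∃ t : ℝ, t = log x := ⟨_, rfl⟩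
  have htt0 : t0 ≤ t := by rw [ht, le_log_iff_exp_le hx0]; exact hx1
  obtain ⟨h1, h2, h3, h4⟩ := ht0 t htt0
  rw [← ht] at hB ⊢
  have htpos : 0 < t := by linarith
  have hM0 : (0 : ℝ) < M := by exact_mod_cast hM1
  have hlt : 0 < log t := log_pos (by linarith)
  obtain ⟨y, hy⟩ : ∃ y : ℕ, y = ⌊t ^ (2 : ℝ)⌋₊ := ⟨_, rfl⟩
  have hyle : (y : ℝ) ≤ t ^ (2 : ℝ) := by rw [hy]; exact Nat.floor_le (by positivity)
  have hylt : t ^ (2 : ℝ) < y + 1 := by rw [hy]; exact Nat.lt_floor_add_one _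
  have hyt : t ≤ y := by
    rw [rpow_two] at hylt; nlinarith
  have hy3 : (3 : ℝ) ≤ y := by linarith
  have hy3' : 3 ≤ y := by exact_mod_cast hy3
  have hy0 : (0 : ℝ) < y := by linarith
  obtain ⟨Y, hY⟩ : ∃ Y : ℝ, Y = log y := ⟨_, rfl⟩
  have hY1 : 1 ≤ Y := by
    rw [hY, le_log_iff_exp_le hy0]; linarith [exp_one_lt_d9]
  have hYle : Y ≤ 2 * log t := by
    have h6 := log_le_log hy0 hyle
    rw [log_rpow htpos] at h6
    rw [hY]; exact h6
  obtain ⟨u, hu⟩ : ∃ u : ℕ, u = Nat.log y M := ⟨_, rfl⟩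
  have huD : y ^ u ≤ M := by rw [hu]; exact Nat.pow_log_le_self y (by omega)
  have huD' : M < y ^ (u + 1) := by rw [hu]; exact Nat.lt_pow_succ_log_self (by omega) M
  have hut : u * Y ≤ 4 * t := by
    have h3 : ((y ^ u : ℕ) : ℝ) ≤ M := by exact_mod_cast huD
    push_cast at h3
    have h4 := log_le_log (by positivity) (h3.trans hM4)
    rw [log_pow, log_pow] at h4
    push_cast at h4
    rw [hY, ht]; exact h4
  have hu0' : (0 : ℝ) ≤ u := Nat.cast_nonneg u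
  have hut1 : (u : ℝ) ≤ 4 * t := by nlinarith
  have hWc : ((W x).card : ℝ) = Nat.primeCounting y - 1 := by
    rw [W, ← ht, ← hy]; exact card_opr (by omega)
  obtain ⟨N, hN⟩ : ∃ N : ℕ, N = (W x \ B).card := ⟨_, rfl⟩
  have hNW : ((W x).card : ℝ) - B.card ≤ N := by
    have h5 := le_card_sdiff B (W x)
    have h6 : (W x).card ≤ (W x \ B).card + B.card := by omega
    have h7 : ((W x).card : ℝ) ≤ (W x \ B).card + B.card := by exact_mod_cast h6
    rw [hN]; linarith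
  have hlow := primeCounting_low (y := y)
  have hNlow : t ^ (2 - η) ≤ (N : ℝ) + 1 - u := by
    have h6 : (0.69 : ℝ) * (t ^ (2 : ℝ) - 1) ≤ y * log 2 := by
      have h7 : (0.69 : ℝ) ≤ log 2 := by linarith [log_two_gt_d9]
      have h8 : t ^ (2 : ℝ) - 1 ≤ y := by linarith
      calc 0.69 * (t ^ (2 : ℝ) - 1) ≤ 0.69 * y := mul_le_mul_of_nonneg_left h8 (by norm_num)
        _ ≤ log 2 * y := mul_le_mul_of_nonneg_right h7 hy0.le
        _ = y * log 2 := mul_comm _ _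
    have h9 : log ((y : ℝ) + 1) ≤ log (t ^ (2 : ℝ) + 1) := log_le_log (by positivity) (by linarith)
    have h10 : (t ^ (2 - η) + 7 * t) * (2 * log t) ≤ Nat.primeCounting y * Y := by
      rw [hY]; nlinarith
    have h11 : (t ^ (2 - η) + 7 * t) * (2 * log t) ≤ Nat.primeCounting y * (2 * log t) := by
      refine h10.trans ?_
      exact mul_le_mul_of_nonneg_left hYle (Nat.cast_nonneg _)
    have h12 := le_of_mul_le_mul_right h11 (by positivity)
    linarith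
  have htA : 0 < t ^ (2 - η) := by positivity
  have hNu : u ≤ N := by
    have h6 : (u : ℝ) < ((N + 1 : ℕ) : ℝ) := by push_cast; linarith
    have h7 : u < N + 1 := by exact_mod_cast h6
    omega
  have hch : (t ^ (1 - 2 * η)) ^ u ≤ (N.choose u : ℝ) := by
    have h6 := Nat.pow_le_choose u N (α := ℝ)
    have h7 : ((N + 1 - u : ℕ) : ℝ) = N + 1 - u := by
      rw [Nat.cast_sub (by omega)]; push_cast; ring
    rw [h7] at h6
    have h8 : (u.factorial : ℝ) ≤ (4 * t) ^ u := by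
      have : (u.factorial : ℝ) ≤ (u : ℝ) ^ u := by exact_mod_cast Nat.factorial_le_pow u
      exact this.trans (pow_le_pow_left₀ hu0' hut1 u)
    have h9 : t ^ (1 - 2 * η) ≤ t ^ (2 - η) / (4 * t) := by
      rw [le_div_iff₀ (by positivity)]
      have e1 : t ^ (2 - η) = t ^ (1 - 2 * η) * t * t ^ η := by
        nth_rewrite 3 [← rpow_one t]
        rw [← rpow_add htpos, ← rpow_add htpos]; congr 1; ring
      rw [e1]
      have : 0 < t ^ (1 - 2 * η) * t := by positivity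
      nlinarith
    refine le_trans ?_ h6
    calc (t ^ (1 - 2 * η)) ^ u ≤ (t ^ (2 - η) / (4 * t)) ^ u :=
          pow_le_pow_left₀ (by positivity) h9 u
      _ = (t ^ (2 - η)) ^ u / (4 * t) ^ u := div_pow _ _ _
      _ ≤ _ := by
          apply div_le_div₀ (pow_nonneg (htA.le.trans hNlow) u)
          · exact pow_le_pow_left₀ htA.le hNlow u
          · positivity
          · exact h8
  refine ⟨u, ?_, ?_, ?_⟩
  · intro s hs
    rw [mem_powersetCard] at hs
    calc ∏ q ∈ s, q ≤ ∏ _q ∈ s, y := by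
          apply prod_le_prod' fun q hq => ?_
          have := hs.1 hq
          rw [mem_sdiff, W, mem_opr, ← ht, ← hy] at this
          exact this.1.2.1
      _ = y ^ u := by rw [prod_const, hs.2]
      _ ≤ M := huD
  · rw [card_powersetCard, ← hN]
    have h5 : (M : ℝ) ^ (1 / 2 : ℝ) ≤ t ^ (u + 1 : ℝ) := by
      have h6 : (M : ℝ) ≤ ((y ^ (u + 1) : ℕ) : ℝ) := by exact_mod_cast huD'.le
      push_cast at h6
      have h7 : (M : ℝ) ≤ (t ^ (2 : ℝ)) ^ (u + 1) :=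
        h6.trans (pow_le_pow_left₀ hy0.le hyle _)
      have h8 : (t ^ (2 : ℝ)) ^ (u + 1) = (t ^ (u + 1 : ℝ)) ^ (2 : ℝ) := by
        rw [← rpow_natCast, ← rpow_mul htpos.le, ← rpow_mul htpos.le]
        congr 1; push_cast; ring
      rw [h8] at h7
      have h9 := rpow_le_rpow hM0.le h7 (by norm_num : (0 : ℝ) ≤ 1 / 2)
      rwa [← rpow_mul (by positivity), show (2 : ℝ) * (1 / 2) = 1 by norm_num, rpow_one] at h9
    have h6 : (M : ℝ) ^ (1 / 2 - η) ≤ (t ^ (u + 1 : ℝ)) ^ (1 - 2 * η) := by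
      have h7 := rpow_le_rpow (by positivity) h5 (show 0 ≤ 1 - 2 * η by linarith)
      rw [← rpow_mul hM0.le] at h7
      rwa [show (1 / 2 : ℝ) * (1 - 2 * η) = 1 / 2 - η by ring] at h7
    have h7 : (t ^ (u + 1 : ℝ)) ^ (1 - 2 * η) ≤ (t ^ (1 - 2 * η)) ^ u * t := by
      have e1 : (t ^ (u + 1 : ℝ)) ^ (1 - 2 * η) = (t ^ (1 - 2 * η)) ^ u * t ^ (1 - 2 * η) := by
        rw [← rpow_mul htpos.le, ← rpow_natCast, ← rpow_mul htpos.le, ← rpow_add htpos]
        congr 1; ring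
      rw [e1]
      apply mul_le_mul_of_nonneg_left _ (by positivity)
      nth_rewrite 2 [← rpow_one t]
      exact rpow_le_rpow_of_exponent_le (by linarith) (by linarith)
    calc (M : ℝ) ^ (1 / 2 - ε) ≤ (M : ℝ) ^ (1 / 2 - η) :=
          rpow_le_rpow_of_exponent_le (by exact_mod_cast hM1) (by linarith)
      _ ≤ (t ^ (1 - 2 * η)) ^ u * t := h6.trans h7
      _ ≤ (N.choose u : ℝ) * t := mul_le_mul_of_nonneg_right hch htpos.le
  · have h5 : (16 : ℝ) ≤ (y : ℝ) ^ ε := h3.trans (rpow_le_rpow htpos.le hyt hε.le)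
    calc (16 : ℝ) ^ u ≤ ((y : ℝ) ^ ε) ^ u := pow_le_pow_left₀ (by norm_num) h5 u
      _ = ((y : ℝ) ^ u) ^ ε := by
          rw [← rpow_natCast, ← rpow_mul hy0.le, ← rpow_natCast, ← rpow_mul hy0.le, mul_comm]
      _ ≤ (M : ℝ) ^ ε := by
          apply rpow_le_rpow (by positivity) _ hε.le
          exact_mod_cast huD

end Pool.Agent.L0h54.EX
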