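import Pool.Agent.L0h54.EX.Cases

set_option autoImplicit false

/-! The count of the numbers without a small witness. -/

namespace Pool.Agent.L0h54.EX

open Finset Real Pool.Agent.H379R2.W Pool.Agent.W57.SW

/-- the exponent -/
noncomputable def al : ℝ := 1 / 2 - 1 / 20000000000

theorem cases_all : ∃ x0 : ℕ, ∀ x : ℕ, x0 ≤ x → ∀ n : ℕ, (x : ℝ) / 2 < n → n ≤ x → Bd 2 n →
    IsAC x n ∨ IsB x n ∨ IsD1 x n ∨ IsD2 x n ∨ IsS1 x n ∨ IsS2 x n := by
  classical
  obtain ⟨x1, hx1⟩ := dat_of_bad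
  obtain ⟨x2, hx2⟩ := cases_smooth
  obtain ⟨x3, hx3⟩ := cases_large
  refine ⟨max (max x1 x2) x3, ?_⟩
  intro x hx n h1 h2 hb
  have hxx1 : x1 ≤ x := (le_max_left _ _).trans ((le_max_left _ _).trans hx)
  have hxx2 : x2 ≤ x := (le_max_right _ _).trans ((le_max_left _ _).trans hx)
  have hxx3 : x3 ≤ x := (le_max_right _ _).trans hx
  obtain ⟨E, hE⟩ := hx1 x hxx1 n h1 h2 hb
  have hn2 := hb.1
  have hne : n.primeFactors.Nonempty := Nat.nonempty_primeFactors.mpr (by omega)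
  obtain ⟨p, hp, hmax⟩ := exists_max_image n.primeFactors id hne
  rw [Nat.mem_primeFactors] at hp
  have hmax' : ∀ q : ℕ, q.Prime → q ∣ n → q ≤ p := fun q hq hqn =>
    hmax q (Nat.mem_primeFactors.mpr ⟨hq, hqn, by omega⟩)
  rcases le_or_gt (p : ℝ) ((x : ℝ) ^ (1 / 300 : ℝ)) with h | h
  · rcases hx2 x hxx2 n E hE (fun q hq hqn =>
      (Nat.cast_le.mpr (hmax' q hq hqn)).trans h) with h3 | h3
    · exact Or.inr (Or.inr (Or.inr (Or.inr (Or.inl h3))))
    · exact Or.inr (Or.inr (Or.inr (Or.inr (Or.inr h3))))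
  · rcases hx3 x hxx3 n E hE p hp.1 hp.2.1 hmax' h with h3 | h3 | h3 | h3
    · exact Or.inl h3
    · exact Or.inr (Or.inl h3)
    · exact Or.inr (Or.inr (Or.inl h3))
    · exact Or.inr (Or.inr (Or.inr (Or.inl h3)))

open Classical in
theorem top : ∃ K : ℝ, 0 < K ∧ ∀ x : ℕ, 1 ≤ x →
    (((Icc 1 x).filter (fun n => Bd 2 n ∧ (x : ℝ) / 2 < n)).card : ℝ) ≤ K * (x : ℝ) ^ al := by
  obtain ⟨x0, hx0⟩ := cases_all
  obtain ⟨K1, hK1, x1, hx1⟩ := clsAC
  obtain ⟨K2, hK2, x2, hx2⟩ := clsB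
  obtain ⟨K3, hK3, x3, hx3⟩ := clsD1
  obtain ⟨K4, hK4, x4, hx4⟩ := clsD2
  obtain ⟨K5, hK5, x5, hx5⟩ := clsS1
  obtain ⟨K6, hK6, x6, hx6⟩ := clsS2
  obtain ⟨X, hX⟩ : ∃ X : ℕ, X = x0 + x1 + x2 + x3 + x4 + x5 + x6 := ⟨_, rfl⟩
  refine ⟨X + (K1 + K2 + K3 + K4 + K5 + K6), by positivity, ?_⟩
  intro x hx
  have hx1' : (1 : ℝ) ≤ x := by exact_mod_cast hx
  have hal : 0 ≤ al := by unfold al; norm_num
  have hpow1 : (1 : ℝ) ≤ (x : ℝ) ^ al := one_le_rpow hx1' hal
  obtain ⟨S, hS⟩ : ∃ S : Finset ℕ, S = (Icc 1 x).filter (fun n => Bd 2 n ∧ (x : ℝ) / 2 < n) :=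
    ⟨_, rfl⟩
  rw [← hS]
  rcases lt_or_ge x X with hsm | hlg
  · have h1 : S.card ≤ x := by
      rw [hS]
      refine (card_filter_le _ _).trans ?_
      rw [Nat.card_Icc]; omega
    have h2 : (S.card : ℝ) ≤ X := by exact_mod_cast h1.trans hsm.le
    calc (S.card : ℝ) ≤ (X + (K1 + K2 + K3 + K4 + K5 + K6)) * 1 := by linarith
      _ ≤ _ := mul_le_mul_of_nonneg_left hpow1 (by positivity)
  · have hmem : ∀ n ∈ S, (x : ℝ) / 2 < n ∧ n ≤ x ∧ Bd 2 n := by
      intro n hn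
      rw [hS, mem_filter, mem_Icc] at hn
      exact ⟨hn.2.2, hn.1.2, hn.2.1⟩
    have key : ∀ (P : ℕ → Prop) (K c : ℝ), 0 < K → c ≤ al →
        (∀ S : Finset ℕ, (∀ n ∈ S, (x : ℝ) / 2 < n ∧ n ≤ x ∧ P n) →
          (S.card : ℝ) ≤ K * (x : ℝ) ^ c) → ((S.filter P).card : ℝ) ≤ K * (x : ℝ) ^ al := by
      intro P K c hK hc h
      refine (h (S.filter P) ?_).trans ?_
      · intro n hn
        rw [mem_filter] at hn
        obtain ⟨a1, a2, _⟩ := hmem n hn.1
        exact ⟨a1, a2, hn.2⟩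
      · exact mul_le_mul_of_nonneg_left (rpow_le_rpow_of_exponent_le hx1' hc) hK.le
    have b1 := key (IsAC x) K1 _ hK1 (by unfold al; norm_num) (hx1 x (by omega))
    have b2 := key (IsB x) K2 _ hK2 (by unfold al; norm_num) (hx2 x (by omega))
    have b3 := key (IsD1 x) K3 _ hK3 (by unfold al; norm_num) (hx3 x (by omega))
    have b4 := key (IsD2 x) K4 _ hK4 (by unfold al; norm_num) (hx4 x (by omega))
    have b5 := key (IsS1 x) K5 _ hK5 (by unfold al; norm_num) (hx5 x (by omega))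
    have b6 := key (IsS2 x) K6 _ hK6 (by unfold al; norm_num) (hx6 x (by omega))
    have hcov : S ⊆ S.filter (IsAC x) ∪ (S.filter (IsB x) ∪ (S.filter (IsD1 x) ∪
        (S.filter (IsD2 x) ∪ (S.filter (IsS1 x) ∪ S.filter (IsS2 x))))) := by
      intro n hn
      obtain ⟨a1, a2, a3⟩ := hmem n hn
      simp only [mem_union, mem_filter]
      rcases hx0 x (by omega) n a1 a2 a3 with h | h | h | h | h | h <;> tauto
    have c1 := card_le_card hcov
    have c2 := card_union_le (S.filter (IsAC x)) (S.filter (IsB x) ∪ (S.filter (IsD1 x) ∪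
        (S.filter (IsD2 x) ∪ (S.filter (IsS1 x) ∪ S.filter (IsS2 x)))))
    have c3 := card_union_le (S.filter (IsB x)) (S.filter (IsD1 x) ∪
        (S.filter (IsD2 x) ∪ (S.filter (IsS1 x) ∪ S.filter (IsS2 x))))
    have c4 := card_union_le (S.filter (IsD1 x))
        (S.filter (IsD2 x) ∪ (S.filter (IsS1 x) ∪ S.filter (IsS2 x)))
    have c5 := card_union_le (S.filter (IsD2 x)) (S.filter (IsS1 x) ∪ S.filter (IsS2 x))
    have c6 := card_union_le (S.filter (IsS1 x)) (S.filter (IsS2 x))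
    have c7 : S.card ≤ (S.filter (IsAC x)).card + ((S.filter (IsB x)).card +
        ((S.filter (IsD1 x)).card + ((S.filter (IsD2 x)).card + ((S.filter (IsS1 x)).card +
        (S.filter (IsS2 x)).card)))) := by omega
    have c8 : (S.card : ℝ) ≤ ((S.filter (IsAC x)).card : ℝ) + (((S.filter (IsB x)).card : ℝ) +
        (((S.filter (IsD1 x)).card : ℝ) + (((S.filter (IsD2 x)).card : ℝ) +
        (((S.filter (IsS1 x)).card : ℝ) + ((S.filter (IsS2 x)).card : ℝ))))) := by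
      exact_mod_cast c7
    have hX0 : 0 ≤ (X : ℝ) * (x : ℝ) ^ al := by positivity
    linarith

open Classical in
/-- The main counting theorem. -/
theorem main : ∃ K : ℝ, 0 < K ∧ ∀ x : ℕ, 1 ≤ x →
    (((Icc 1 x).filter (Bd 2)).card : ℝ) ≤ K * (x : ℝ) ^ al := by
  obtain ⟨K, hK, htop⟩ := top
  refine ⟨4 * K, by positivity, ?_⟩
  intro x
  induction x using Nat.strong_induction_on with
  | _ x ih =>
  intro hx
  have hx1 : (1 : ℝ) ≤ x := by exact_mod_cast hx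
  have hxpos : (0 : ℝ) < x := by linarith
  have hal : 0 ≤ al := by unfold al; norm_num
  rcases eq_or_lt_of_le hx with h1 | h1
  · have h2 : (Icc 1 x).filter (Bd 2) = ∅ := by
      rw [filter_eq_empty_iff]
      intro n hn hb
      rw [mem_Icc] at hn
      have := hb.1
      omega
    rw [h2]
    simp only [card_empty, Nat.cast_zero]
    positivity
  · have hy1 : 1 ≤ x / 2 := by omega
    have hy2 : x / 2 < x := by omega
    have h3 := ih (x / 2) hy2 hy1
    have h4 := htop x hx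
    have hcov : (Icc 1 x).filter (Bd 2) ⊆
        (Icc 1 x).filter (fun n => Bd 2 n ∧ (x : ℝ) / 2 < n) ∪ (Icc 1 (x / 2)).filter (Bd 2) := by
      intro n hn
      rw [mem_filter, mem_Icc] at hn
      rw [mem_union, mem_filter, mem_filter, mem_Icc, mem_Icc]
      rcases lt_or_ge ((x : ℝ) / 2) n with h | h
      · exact Or.inl ⟨hn.1, hn.2, h⟩
      · right
        refine ⟨⟨hn.1.1, ?_⟩, hn.2⟩
        rw [Nat.le_div_iff_mul_le (by norm_num)]
        have : (n : ℝ) * 2 ≤ x := by linarith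
        exact_mod_cast this
    have h5 := (card_le_card hcov).trans (card_union_le _ _)
    have h6 : (((Icc 1 x).filter (Bd 2)).card : ℝ) ≤
        (((Icc 1 x).filter (fun n => Bd 2 n ∧ (x : ℝ) / 2 < n)).card : ℝ) +
        (((Icc 1 (x / 2)).filter (Bd 2)).card : ℝ) := by exact_mod_cast h5
    have h7 : ((x / 2 : ℕ) : ℝ) ^ al ≤ 3 / 4 * (x : ℝ) ^ al := by
      have e1 : ((x / 2 : ℕ) : ℝ) ≤ (x : ℝ) / 2 := Nat.cast_div_le
      have e2 : ((x / 2 : ℕ) : ℝ) ^ al ≤ ((x : ℝ) / 2) ^ al :=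
        rpow_le_rpow (Nat.cast_nonneg _) e1 hal
      rw [div_rpow hxpos.le (by norm_num)] at e2
      refine e2.trans ?_
      have e3 : (4 : ℝ) / 3 ≤ 2 ^ al := by
        have e4 : (2 : ℝ) ^ (9 / 20 : ℝ) ≤ 2 ^ al :=
          rpow_le_rpow_of_exponent_le (by norm_num) (by unfold al; norm_num)
        refine le_trans ?_ e4
        rw [show (4 : ℝ) / 3 = ((4 / 3 : ℝ) ^ (20 : ℝ)) ^ (1 / 20 : ℝ) by
          rw [← rpow_mul (by norm_num)]; norm_num, show (9 / 20 : ℝ) = 9 * (1 / 20) by norm_num,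
          rpow_mul (by norm_num)]
        apply rpow_le_rpow (by positivity) _ (by norm_num)
        rw [show (20 : ℝ) = ((20 : ℕ) : ℝ) by norm_num, show (9 : ℝ) = ((9 : ℕ) : ℝ) by norm_num,
          rpow_natCast, rpow_natCast]
        norm_num
      have e5 : 0 < (2 : ℝ) ^ al := by positivity
      have e6 : 0 < (x : ℝ) ^ al := by positivity
      rw [div_le_iff₀ e5]
      nlinarith
    have h8 : 4 * K * ((x / 2 : ℕ) : ℝ) ^ al ≤ 4 * K * (3 / 4 * (x : ℝ) ^ al) :=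
      mul_le_mul_of_nonneg_left h7 (by positivity)
    linarith

end Pool.Agent.L0h54.EX
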