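import Pool.Agent.L0h54.EX.Fam

set_option autoImplicit false

/-! The large sieve with the primes up to `(log x)^2`. -/

namespace Pool.Agent.L0h54.EX

open Finset Real Pool.Agent.W57.SW

/-- the sieve bound -/
theorem lsv (ε : ℝ) (hε : 0 < ε) (hε1 : ε ≤ 1 / 8) : ∃ x0 : ℕ, ∀ x : ℕ, x0 ≤ x →
    ∀ B : Finset ℕ, (B.card : ℝ) ≤ 3 * log x → ∀ V : ℕ, 1 ≤ V → V ≤ x ^ 2 →
    ∀ I : ℕ → Finset ℕ, (∀ ℓ ∈ W x \ B, I ℓ ⊆ range ℓ ∧ ℓ ≤ 4 * (I ℓ).card) →
    ∀ T : Finset ℕ, T ⊆ Icc 1 V → (∀ v ∈ T, ∀ ℓ ∈ W x \ B, v % ℓ ∉ I ℓ) →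
    (T.card : ℝ) ≤ 24 * log x * (V : ℝ) ^ (3 / 4 + ε) := by
  obtain ⟨x0, hx0⟩ := fam ε hε
  refine ⟨max x0 3, ?_⟩
  intro x hx B hB V hV1 hVx I hI T hTV hT
  have hx3 : 3 ≤ x := (le_max_right _ _).trans hx
  have hlogx : 1 ≤ log (x : ℝ) := one_le_log hx3
  obtain ⟨M, hM⟩ : ∃ M : ℕ, M = Nat.sqrt V := ⟨_, rfl⟩
  have hM1 : 1 ≤ M := by
    rw [hM]; exact Nat.sqrt_pos.mpr hV1
  have hMV : M * M ≤ V := by rw [hM]; exact Nat.sqrt_le V
  have hMV' : V < (M + 1) * (M + 1) := by rw [hM]; exact Nat.lt_succ_sqrt V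
  have hM0 : (0 : ℝ) < M := by exact_mod_cast hM1
  have hV0 : (0 : ℝ) < V := by exact_mod_cast hV1
  have hM4 : (M : ℝ) ≤ (x : ℝ) ^ 4 := by
    have h1 : M ≤ V := le_trans (Nat.le_mul_of_pos_left M hM1) hMV
    have h2 : M ≤ x ^ 4 := by
      calc M ≤ x ^ 2 := h1.trans hVx
        _ ≤ x ^ 4 := Nat.pow_le_pow_right (by omega) (by norm_num)
    exact_mod_cast h2
  obtain ⟨u, hu1, hu2, hu3⟩ := hx0 x ((le_max_left _ _).trans hx) B hB M hM1 hM4
  obtain ⟨S, hS⟩ : ∃ S : Finset (Finset ℕ), S = powersetCard u (W x \ B) := ⟨_, rfl⟩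
  rw [← hS] at hu1 hu2
  have hWp : ∀ ℓ ∈ W x \ B, ℓ.Prime := by
    intro ℓ hℓ
    rw [mem_sdiff, W, mem_opr] at hℓ
    exact hℓ.1.1
  have hLS := Pool.Agent.H174R3.D6LS.taskLS V M (W x \ B) I S (fun _ => 1) hWp
    (fun ℓ hℓ => (hI ℓ hℓ).1) (by
      intro s hs
      refine ⟨?_, hu1 s hs⟩
      rw [hS, mem_powersetCard] at hs
      exact hs.1)
  simp only [one_mul, one_pow] at hLS
  -- the densities
  have hα : ∀ ℓ ∈ W x \ B, (1 : ℝ) / 4 ≤ ((I ℓ).card : ℝ) / ℓ ∧ ((I ℓ).card : ℝ) / ℓ ≤ 1 := by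
    intro ℓ hℓ
    have h1 := hI ℓ hℓ
    have hℓ0 : (0 : ℝ) < ℓ := by exact_mod_cast (hWp ℓ hℓ).pos
    constructor
    · rw [div_le_div_iff₀ (by norm_num) hℓ0]
      have : (ℓ : ℝ) ≤ 4 * (I ℓ).card := by exact_mod_cast h1.2
      linarith
    · rw [div_le_one hℓ0]
      have := card_le_card h1.1
      rw [card_range] at this
      exact_mod_cast this
  have hR : ∑ s ∈ S, ∏ q ∈ s, ((I q).card : ℝ) / q ≤ S.card := by
    have : ∑ s ∈ S, ∏ q ∈ s, ((I q).card : ℝ) / q ≤ ∑ _s ∈ S, (1 : ℝ) := by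
      apply sum_le_sum
      intro s hs
      rw [hS, mem_powersetCard] at hs
      apply prod_le_one
      · intro q hq
        have := (hα q (hs.1 hq)).1
        linarith
      · intro q hq
        exact (hα q (hs.1 hq)).2
    simpa using this
  have hL : (T.card : ℝ) * ((S.card : ℝ) * (1 / 4) ^ u) ^ 2 ≤ ∑ n ∈ Icc 1 V,
      (∑ s ∈ S, ∏ q ∈ s, ((if n % q ∈ I q then (1 : ℝ) else 0) - ((I q).card : ℝ) / q)) ^ 2 := by
    rw [← nsmul_eq_mul, ← sum_const]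
    refine le_trans (sum_le_sum fun v hv => ?_)
      (sum_le_sum_of_subset_of_nonneg hTV fun _ _ _ => by positivity)
    have e1 : ∀ s ∈ S, ∏ q ∈ s, ((if v % q ∈ I q then (1 : ℝ) else 0) - ((I q).card : ℝ) / q) =
        (-1) ^ u * ∏ q ∈ s, ((I q).card : ℝ) / q := by
      intro s hs
      rw [hS, mem_powersetCard] at hs
      rw [← hs.2, ← prod_const, ← prod_mul_distrib]
      apply prod_congr rfl
      intro q hq
      rw [if_neg (hT v hv q (hs.1 hq))]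
      ring
    rw [sum_congr rfl e1, ← mul_sum]
    have e4 : ∀ z : ℝ, ((-1) ^ u * z) ^ 2 = z ^ 2 := by
      intro z
      rw [mul_pow, ← pow_mul, mul_comm u 2, pow_mul, neg_one_sq, one_pow, one_mul]
    rw [e4]
    have e2 : (S.card : ℝ) * (1 / 4) ^ u ≤ ∑ s ∈ S, ∏ q ∈ s, ((I q).card : ℝ) / q := by
      rw [← nsmul_eq_mul, ← sum_const]
      apply sum_le_sum
      intro s hs
      rw [hS, mem_powersetCard] at hs
      rw [← hs.2, ← prod_const]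
      apply prod_le_prod (fun _ _ => by norm_num)
      intro q hq
      exact (hα q (hs.1 hq)).1
    exact pow_le_pow_left₀ (by positivity) e2 2
  have hkey : (T.card : ℝ) * ((S.card : ℝ) * (1 / 4) ^ u) ^ 2 ≤ 12 * V * S.card := by
    refine hL.trans (hLS.trans ?_)
    have h1 : (M : ℝ) ^ 2 ≤ V := by
      have : M ^ 2 ≤ V := by rw [sq]; exact hMV
      exact_mod_cast this
    calc 6 * ((V : ℝ) + (M : ℝ) ^ 2) * ∑ s ∈ S, ∏ q ∈ s, ((I q).card : ℝ) / q ≤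
        6 * ((V : ℝ) + V) * S.card := by
          apply mul_le_mul _ hR _ (by positivity)
          · linarith
          · apply sum_nonneg; intro s _; apply prod_nonneg; intro q _; positivity
      _ = _ := by ring
  have hS0 : (0 : ℝ) < S.card := by
    by_contra hc
    have h0 : (S.card : ℝ) = 0 := le_antisymm (not_lt.mp hc) (Nat.cast_nonneg _)
    rw [h0, zero_mul] at hu2
    have : 0 < (M : ℝ) ^ (1 / 2 - ε) := by positivity
    linarith
  have hk2 : (T.card : ℝ) * S.card ≤ 12 * V * 16 ^ u := by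
    have e1 : (T.card : ℝ) * ((S.card : ℝ) * (1 / 4) ^ u) ^ 2 =
        ((T.card : ℝ) * S.card) * (S.card / 16 ^ u) := by
      have : ((1 : ℝ) / 4) ^ u * (1 / 4) ^ u = 1 / 16 ^ u := by
        rw [← mul_pow, show (1 : ℝ) / 4 * (1 / 4) = 1 / 16 by norm_num, div_pow, one_pow]
      calc (T.card : ℝ) * ((S.card : ℝ) * (1 / 4) ^ u) ^ 2 =
          (T.card : ℝ) * S.card * S.card * ((1 / 4) ^ u * (1 / 4) ^ u) := by ring
        _ = _ := by rw [this]; ring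
    rw [e1] at hkey
    have e2 : 12 * (V : ℝ) * S.card = (12 * V * 16 ^ u) * (S.card / 16 ^ u) := by
      field_simp
    rw [e2] at hkey
    exact le_of_mul_le_mul_right hkey (by positivity)
  have hk3 : (T.card : ℝ) * (M : ℝ) ^ (1 / 2 - ε) ≤ 12 * V * (M : ℝ) ^ ε * log x := by
    calc (T.card : ℝ) * (M : ℝ) ^ (1 / 2 - ε) ≤ T.card * (S.card * log x) :=
          mul_le_mul_of_nonneg_left hu2 (Nat.cast_nonneg _)
      _ = (T.card * S.card) * log x := by ring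
      _ ≤ (12 * V * 16 ^ u) * log x := mul_le_mul_of_nonneg_right hk2 (by linarith)
      _ ≤ (12 * V * (M : ℝ) ^ ε) * log x := by
          apply mul_le_mul_of_nonneg_right _ (by linarith)
          exact mul_le_mul_of_nonneg_left hu3 (by positivity)
  -- `M ≥ √V / 2`
  have hMs : (V : ℝ) ^ (1 / 2 : ℝ) / 2 ≤ M := by
    have h1 : (V : ℝ) ≤ (M + 1) * (M + 1) := by exact_mod_cast hMV'.le
    have h2 : (V : ℝ) ≤ (2 * M) ^ (2 : ℝ) := by
      rw [rpow_two]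
      have : (1 : ℝ) ≤ M := by exact_mod_cast hM1
      nlinarith
    have h3 := rpow_le_rpow hV0.le h2 (by norm_num : (0 : ℝ) ≤ 1 / 2)
    rw [← rpow_mul (by positivity), show (2 : ℝ) * (1 / 2) = 1 by norm_num, rpow_one] at h3
    linarith
  have hk4 : (T.card : ℝ) * (M : ℝ) ^ (1 / 2 - 2 * ε) ≤ 12 * V * log x := by
    have e1 : (M : ℝ) ^ (1 / 2 - ε) = (M : ℝ) ^ (1 / 2 - 2 * ε) * (M : ℝ) ^ ε := by
      rw [← rpow_add hM0]; congr 1; ring
    rw [e1] at hk3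
    have h2 : ((T.card : ℝ) * (M : ℝ) ^ (1 / 2 - 2 * ε)) * (M : ℝ) ^ ε ≤
        (12 * V * log x) * (M : ℝ) ^ ε := by linarith
    exact le_of_mul_le_mul_right h2 (by positivity)
  have hk5 : (V : ℝ) ^ (1 / 4 - ε) / 2 ≤ (M : ℝ) ^ (1 / 2 - 2 * ε) := by
    have h1 := rpow_le_rpow (by positivity) hMs (show 0 ≤ 1 / 2 - 2 * ε by linarith)
    refine le_trans ?_ h1
    rw [div_rpow (by positivity) (by norm_num), ← rpow_mul hV0.le,
      show (1 / 2 : ℝ) * (1 / 2 - 2 * ε) = 1 / 4 - ε by ring]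
    apply div_le_div_of_nonneg_left (by positivity) (by positivity)
    calc (2 : ℝ) ^ (1 / 2 - 2 * ε) ≤ (2 : ℝ) ^ (1 : ℝ) :=
          rpow_le_rpow_of_exponent_le (by norm_num) (by linarith)
      _ = 2 := rpow_one _
  have hk6 : (T.card : ℝ) * ((V : ℝ) ^ (1 / 4 - ε) / 2) ≤ 12 * V * log x :=
    (mul_le_mul_of_nonneg_left hk5 (Nat.cast_nonneg _)).trans hk4
  have e3 : (V : ℝ) = (V : ℝ) ^ (1 / 4 - ε) * (V : ℝ) ^ (3 / 4 + ε) := by
    rw [← rpow_add hV0]; norm_num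
  have hp : 0 < (V : ℝ) ^ (1 / 4 - ε) := by positivity
  have h7 : (V : ℝ) ^ (1 / 4 - ε) * T.card ≤
      (V : ℝ) ^ (1 / 4 - ε) * (24 * log x * (V : ℝ) ^ (3 / 4 + ε)) := by
    calc (V : ℝ) ^ (1 / 4 - ε) * T.card = 2 * (T.card * ((V : ℝ) ^ (1 / 4 - ε) / 2)) := by ring
      _ ≤ 2 * (12 * V * log x) := by linarith
      _ = 24 * log x * V := by ring
      _ = 24 * log x * ((V : ℝ) ^ (1 / 4 - ε) * (V : ℝ) ^ (3 / 4 + ε)) := by rw [← e3]
      _ = _ := by ring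
  exact le_of_mul_le_mul_left h7 hp

end Pool.Agent.L0h54.EX
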