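import Pool.Agent.L0h54.EX.Lin

set_option autoImplicit false

/-! Few primes modulo which the small primes generate a small group: Gallagher's larger sieve. -/

namespace Pool.Agent.L0h54.EX

open Finset Real Pool.Agent.W57.SW

/-- the orders of the primes of `W x` modulo `p` divide `g` -/
def Lv (x p g : ℕ) : Prop := ∀ ℓ ∈ W x, ((ℓ : ℕ) : ZMod p) ^ g = 1

lemma pairs_ge {κ : Type} [DecidableEq κ] (A : Finset ℕ) (f : ℕ → κ) (Z : Finset κ)
    (h : ∀ a ∈ A, f a ∈ Z) :
    A.card ^ 2 ≤ Z.card * ((A ×ˢ A).filter (fun q => f q.1 = f q.2)).card := by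
  classical
  have h1 : A.card = ∑ z ∈ Z, (A.filter (fun a => f a = z)).card := card_eq_sum_card_fiberwise h
  have h2 : ((A ×ˢ A).filter (fun q => f q.1 = f q.2)).card =
      ∑ z ∈ Z, (A.filter (fun a => f a = z)).card ^ 2 := by
    rw [card_eq_sum_card_fiberwise (f := fun q : ℕ × ℕ => f q.1) (t := Z)]
    · apply sum_congr rfl
      intro z _
      rw [sq, ← card_product]
      congr 1
      ext q
      simp only [mem_filter, mem_product]
      constructor
      · rintro ⟨⟨⟨a, b⟩, c⟩, d⟩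
        exact ⟨⟨a, d⟩, b, by rw [← c, d]⟩
      · rintro ⟨⟨a, b⟩, c, d⟩
        exact ⟨⟨⟨a, c⟩, by rw [b, d]⟩, b⟩
    · intro q hq
      rw [mem_coe, mem_filter, mem_product] at hq
      exact h q.1 hq.1.1
  rw [h1, h2]
  exact sq_sum_le_card_mul_sum_sq

/-- the larger sieve bound -/
theorem larger : ∃ x0 : ℕ, ∀ x : ℕ, x0 ≤ x → ∀ G : ℝ, 1 ≤ G → G ≤ x → ∀ P : Finset ℕ,
    (∀ p ∈ P, p.Prime ∧ ∃ g : ℕ, 1 ≤ g ∧ (g : ℝ) ≤ G ∧ Lv x p g) →
    (P.card : ℝ) ≤ 12 * G * log x := by
  classical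
  obtain ⟨x0, hx0⟩ := fam (1 / 8) (by norm_num)
  have hev : ∀ᶠ x : ℝ in Filter.atTop, 2 * log x ≤ x ^ (1 / 2 : ℝ) := by
    have h := (isLittleO_log_rpow_atTop (show (0 : ℝ) < 1 / 2 by norm_num)).def
      (show (0 : ℝ) < 1 / 2 by norm_num)
    filter_upwards [h, Filter.eventually_ge_atTop 1] with t ht ht1
    rw [norm_of_nonneg (log_nonneg ht1), norm_of_nonneg (by positivity)] at ht
    linarith
  obtain ⟨x1, hx1⟩ := Filter.eventually_atTop.mp hev
  refine ⟨max (max x0 3) ⌈x1⌉₊, ?_⟩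
  intro x hx G hG1 hGx P hP
  have hxx0 : x0 ≤ x := (le_max_left _ _).trans ((le_max_left _ _).trans hx)
  have hx3 : 3 ≤ x := (le_max_right _ _).trans ((le_max_left _ _).trans hx)
  have hxx1 : x1 ≤ x := Nat.ceil_le.mp ((le_max_right _ _).trans hx)
  have hlogx : 1 ≤ log (x : ℝ) := one_le_log hx3
  have hxpos : (0 : ℝ) < x := by exact_mod_cast (by omega : 0 < x)
  have hx1' : (1 : ℝ) ≤ x := by exact_mod_cast (by omega : 1 ≤ x)
  have hsq := hx1 x hxx1
  obtain ⟨u, hu1, hu2, _⟩ := hx0 x hxx0 ∅ (by simp; linarith) (x ^ 4) (Nat.pow_pos (by omega))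
    (by push_cast; exact le_rfl)
  rw [sdiff_empty] at hu1 hu2
  obtain ⟨A, hA⟩ : ∃ A : Finset ℕ, A = prods (W x) u := ⟨_, rfl⟩
  have hWp : ∀ p ∈ W x, p.Prime := fun p hp => (W_spec hp).1
  have hAc : A.card = (powersetCard u (W x)).card := by
    rw [hA, card_prods hWp, card_powersetCard]
  rw [← hAc] at hu2
  have hAs : ∀ a ∈ A, 1 ≤ a ∧ a ≤ x ^ 4 ∧ ∀ p g : ℕ, Lv x p g → ((a : ℕ) : ZMod p) ^ g = 1 := by
    intro a ha
    rw [hA, prods, mem_image] at ha
    obtain ⟨s, hs, rfl⟩ := ha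
    refine ⟨?_, hu1 s hs, ?_⟩
    · have : 0 < ∏ x ∈ s, x :=
        prod_pos fun q hq => (hWp q ((mem_powersetCard.mp hs).1 hq)).pos
      omega
    · intro p g hpg
      push_cast
      rw [← prod_pow]
      apply prod_eq_one
      intro q hq
      exact hpg q ((mem_powersetCard.mp hs).1 hq)
  have hAbig : 2 * G ≤ A.card := by
    have h1 : ((x ^ 4 : ℕ) : ℝ) ^ (1 / 2 - 1 / 8 : ℝ) = x * (x : ℝ) ^ (1 / 2 : ℝ) := by
      push_cast
      rw [← rpow_natCast, ← rpow_mul hxpos.le]
      nth_rewrite 2 [← rpow_one (x : ℝ)]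
      rw [← rpow_add hxpos]
      norm_num
    rw [h1] at hu2
    have h2 : 2 * G * log x ≤ A.card * log x := by
      calc 2 * G * log x ≤ 2 * x * log x := by nlinarith
        _ = x * (2 * log x) := by ring
        _ ≤ x * (x : ℝ) ^ (1 / 2 : ℝ) := mul_le_mul_of_nonneg_left hsq hxpos.le
        _ ≤ _ := hu2
    exact le_of_mul_le_mul_right h2 (by linarith)
  have hA0 : (0 : ℝ) < A.card := by linarith
  -- one prime
  have hone : ∀ p ∈ P, (A.card : ℝ) ^ 2 ≤
      G * ((A ×ˢ A).filter (fun q => (q.1 : ZMod p) = (q.2 : ZMod p))).card := by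
    intro p hp
    obtain ⟨hpp, g, hg1, hgG, hlv⟩ := hP p hp
    have := Fact.mk hpp
    have h1 := pairs_ge A (fun a : ℕ => (a : ZMod p)) (Polynomial.nthRoots g (1 : ZMod p)).toFinset
      (by
        intro a ha
        rw [Multiset.mem_toFinset, Polynomial.mem_nthRoots hg1]
        exact (hAs a ha).2.2 p g hlv)
    have h2 : (Polynomial.nthRoots g (1 : ZMod p)).toFinset.card ≤ g :=
      (Multiset.toFinset_card_le _).trans (Polynomial.card_nthRoots g 1)
    have h3 : A.card ^ 2 ≤ g * ((A ×ˢ A).filter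
        (fun q => (q.1 : ZMod p) = (q.2 : ZMod p))).card :=
      h1.trans (Nat.mul_le_mul_right _ h2)
    have h4 : (A.card : ℝ) ^ 2 ≤ g * ((A ×ˢ A).filter
        (fun q => (q.1 : ZMod p) = (q.2 : ZMod p))).card := by exact_mod_cast h3
    exact h4.trans (mul_le_mul_of_nonneg_right hgG (Nat.cast_nonneg _))
  have hsum : (P.card : ℝ) * (A.card : ℝ) ^ 2 ≤ G * ∑ p ∈ P,
      (((A ×ˢ A).filter (fun q => (q.1 : ZMod p) = (q.2 : ZMod p))).card : ℝ) := by
    rw [mul_sum, ← nsmul_eq_mul, ← sum_const]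
    exact sum_le_sum hone
  have hswap : ∑ p ∈ P,
      (((A ×ˢ A).filter (fun q => (q.1 : ZMod p) = (q.2 : ZMod p))).card : ℝ) =
      ∑ q ∈ A ×ˢ A, ((P.filter (fun p => (q.1 : ZMod p) = (q.2 : ZMod p))).card : ℝ) := by
    simp only [card_filter]
    push_cast
    rw [sum_comm]
  have hq : ∀ q ∈ A ×ˢ A, ((P.filter (fun p => (q.1 : ZMod p) = (q.2 : ZMod p))).card : ℝ) ≤
      (if q.1 = q.2 then (P.card : ℝ) else 0) + 5.8 * log x := by
    intro q hq
    rw [mem_product] at hq
    split_ifs with h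
    · have : ((P.filter (fun p => (q.1 : ZMod p) = (q.2 : ZMod p))).card : ℝ) ≤ P.card := by
        exact_mod_cast card_filter_le _ _
      linarith
    · obtain ⟨d, hd⟩ : ∃ d : ℕ, d = (q.1 - q.2) + (q.2 - q.1) := ⟨_, rfl⟩
      have hd1 : 1 ≤ d := by omega
      have hdx : d ≤ x ^ 4 := by
        have h1 := (hAs q.1 hq.1).2.1
        have h2 := (hAs q.2 hq.2).2.1
        omega
      have h1 : P.filter (fun p => (q.1 : ZMod p) = (q.2 : ZMod p)) ⊆ d.primeFactors := by
        intro p hp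
        rw [mem_filter] at hp
        rw [Nat.mem_primeFactors]
        refine ⟨(hP p hp.1).1, ?_, by omega⟩
        have h2 := (ZMod.natCast_eq_natCast_iff _ _ _).mp hp.2
        rcases le_total q.1 q.2 with hle | hle
        · have h3 := (Nat.modEq_iff_dvd' hle).mp h2
          have : d = q.2 - q.1 := by omega
          rw [this]; exact h3
        · have h3 := (Nat.modEq_iff_dvd' hle).mp h2.symm
          have : d = q.1 - q.2 := by omega
          rw [this]; exact h3
      have h2 : ((P.filter (fun p => (q.1 : ZMod p) = (q.2 : ZMod p))).card : ℝ) ≤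
          d.primeFactors.card := by exact_mod_cast card_le_card h1
      have h3 := card_pf_le hd1
      have h4 : log (d : ℝ) ≤ 4 * log x := by
        have : (d : ℝ) ≤ (x : ℝ) ^ 4 := by exact_mod_cast hdx
        have h5 := log_le_log (by exact_mod_cast hd1) this
        rw [log_pow] at h5
        push_cast at h5
        exact h5
      nlinarith
  have hsum2 : ∑ q ∈ A ×ˢ A, ((P.filter (fun p => (q.1 : ZMod p) = (q.2 : ZMod p))).card : ℝ) ≤
      A.card * P.card + (A.card : ℝ) ^ 2 * (5.8 * log x) := by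
    refine (sum_le_sum hq).trans ?_
    rw [sum_add_distrib, sum_const, card_product, nsmul_eq_mul, ← sum_filter, sum_const,
      nsmul_eq_mul]
    have h1 : ((A ×ˢ A).filter (fun q => q.1 = q.2)).card ≤ A.card := by
      apply card_le_card_of_injOn (fun q : ℕ × ℕ => q.1)
      · intro q hq
        rw [mem_coe, mem_filter, mem_product] at hq
        exact hq.1.1
      · intro q hq q' hq' h
        rw [mem_coe, mem_filter] at hq hq'
        have h' : q.1 = q'.1 := h
        exact Prod.ext h' (by rw [← hq.2, ← hq'.2, h'])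
    have h2 : (((A ×ˢ A).filter (fun q => q.1 = q.2)).card : ℝ) ≤ A.card := by exact_mod_cast h1
    have h3 := mul_le_mul_of_nonneg_right h2 (Nat.cast_nonneg (α := ℝ) P.card)
    push_cast
    linarith [sq (A.card : ℝ)]
  rw [hswap] at hsum
  have h1 := hsum.trans (mul_le_mul_of_nonneg_left hsum2 (by linarith : 0 ≤ G))
  -- G |A| |P| ≤ |A|^2 |P| / 2
  have h2 : G * (A.card * P.card) ≤ (A.card : ℝ) ^ 2 * P.card / 2 := by
    have h3 : (2 * G) * (A.card * P.card) ≤ A.card * (A.card * P.card) :=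
      mul_le_mul_of_nonneg_right hAbig (by positivity)
    linarith [sq (A.card : ℝ)]
  have h3 : (A.card : ℝ) ^ 2 * P.card ≤ (A.card : ℝ) ^ 2 * (12 * G * log x) := by
    have e : G * (A.card * P.card + (A.card : ℝ) ^ 2 * (5.8 * log x)) =
        G * (A.card * P.card) + (A.card : ℝ) ^ 2 * (5.8 * G * log x) := by ring
    rw [e] at h1
    have h4 : 0 ≤ (A.card : ℝ) ^ 2 * (G * log x) := by
      have : 0 ≤ G * log x := mul_nonneg (by linarith) (by linarith)
      positivity
    nlinarith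
  exact le_of_mul_le_mul_left h3 (by positivity)

end Pool.Agent.L0h54.EX
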