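import Pool.Agent.L0h54.EX.LSv

set_option autoImplicit false

/-! Sieve bounds for values of linear polynomials with prescribed symbols, and for pairs. -/

namespace Pool.Agent.L0h54.EX

open Finset Real Pool.Agent.W57.SW

/-- residues and nonresidues -/
lemma card_class (ℓ : ℕ) [Fact ℓ.Prime] (hℓ : ℓ ≠ 2) (e : ℤ) (he : e = 1 ∨ e = -1) :
    2 * ((univ : Finset (ZMod ℓ)).filter (fun z => quadraticChar (ZMod ℓ) z = e)).card = ℓ - 1 := by
  classical
  have h2 : ringChar (ZMod ℓ) ≠ 2 := by rw [ZMod.ringChar_zmod_n]; exact hℓ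
  have h0 := quadraticChar_sum_zero h2
  obtain ⟨P, hP⟩ : ∃ P, P = (univ : Finset (ZMod ℓ)).filter
      (fun z => quadraticChar (ZMod ℓ) z = 1) := ⟨_, rfl⟩
  obtain ⟨N, hN⟩ : ∃ N, N = (univ : Finset (ZMod ℓ)).filter
      (fun z => quadraticChar (ZMod ℓ) z = -1) := ⟨_, rfl⟩
  have hsum : ∑ a : ZMod ℓ, quadraticChar (ZMod ℓ) a = (P.card : ℤ) - N.card := by
    have h1 : ∀ a : ZMod ℓ, quadraticChar (ZMod ℓ) a =
        (if quadraticChar (ZMod ℓ) a = 1 then (1 : ℤ) else 0) -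
          (if quadraticChar (ZMod ℓ) a = -1 then (1 : ℤ) else 0) := by
      intro a
      by_cases ha : a = 0
      · rw [ha]; simp
      · rcases quadraticChar_dichotomy ha with h | h <;> rw [h] <;> norm_num
    rw [sum_congr rfl fun a _ => h1 a, sum_sub_distrib, sum_boole, sum_boole, hP, hN]
  have hcard : P.card + N.card + 1 = ℓ := by
    have h1 : (univ : Finset (ZMod ℓ)) = (P ∪ N) ∪ {0} := by
      ext a
      simp only [mem_univ, mem_union, hP, hN, mem_filter, true_and, mem_singleton, true_iff]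
      by_cases ha : a = 0
      · exact Or.inr ha
      · exact Or.inl (quadraticChar_dichotomy ha)
    have h2 : Disjoint P N := by
      rw [hP, hN, disjoint_filter]
      intro a _ h
      rw [h]; norm_num
    have h3 : Disjoint (P ∪ N) {0} := by
      rw [disjoint_singleton_right, mem_union, hP, hN, mem_filter, mem_filter]
      simp
    have h4 := congrArg card h1
    rw [card_union_of_disjoint h3, card_union_of_disjoint h2, card_univ, ZMod.card,
      card_singleton] at h4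
    exact h4.symm
  rw [h0] at hsum
  have hPN : P.card = N.card := by
    have : (P.card : ℤ) = N.card := by linarith
    exact_mod_cast this
  rcases he with rfl | rfl
  · rw [← hP]; omega
  · rw [← hN]; omega

lemma jac_quad (ℓ : ℕ) [Fact ℓ.Prime] (a : ℤ) :
    jacobiSym a ℓ = quadraticChar (ZMod ℓ) (a : ZMod ℓ) := by
  rw [← jacobiSym.legendreSym.to_jacobiSym, legendreSym]

/-- the forbidden classes of a linear polynomial -/
lemma lin_class (ℓ : ℕ) (hℓp : ℓ.Prime) (hℓ : ℓ ≠ 2) (c h : ℤ) (hh : ¬ (ℓ : ℤ) ∣ h) (e : ℤ)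
    (he : e = 1 ∨ e = -1) :
    ℓ ≤ 4 * ((range ℓ).filter (fun r : ℕ => jacobiSym (c + h * ((r : ℤ) - 1)) ℓ = e)).card := by
  classical
  have := Fact.mk hℓp
  have h1 := card_class ℓ hℓ e he
  have hh0 : (h : ZMod ℓ) ≠ 0 := by
    rw [Ne, ZMod.intCast_zmod_eq_zero_iff_dvd]; exact hh
  have h2 : ((univ : Finset (ZMod ℓ)).filter (fun z => quadraticChar (ZMod ℓ) z = e)).card ≤
      ((range ℓ).filter (fun r : ℕ => jacobiSym (c + h * ((r : ℤ) - 1)) ℓ = e)).card := by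
    apply card_le_card_of_injOn (fun z : ZMod ℓ => ((z - (c : ZMod ℓ)) / (h : ZMod ℓ) + 1).val)
    · intro z hz
      rw [mem_coe, mem_filter] at hz
      rw [mem_coe, mem_filter, mem_range]
      refine ⟨ZMod.val_lt _, ?_⟩
      rw [jac_quad]
      push_cast
      rw [ZMod.natCast_zmod_val]
      have : (c : ZMod ℓ) + h * ((z - c) / h + 1 - 1) = z := by
        field_simp
        ring
      rw [this]
      exact hz.2
    · intro z _ w _ hzw
      have e1 := ZMod.val_injective ℓ hzw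
      have e2 : (z - (c : ZMod ℓ)) / (h : ZMod ℓ) = (w - (c : ZMod ℓ)) / (h : ZMod ℓ) :=
        add_right_cancel e1
      rw [div_left_inj' hh0] at e2
      exact sub_left_injective e2
  have := hℓp.two_le
  have h3 : 3 ≤ ℓ := by omega
  omega

/-- the forbidden classes for a pair of linear polynomials -/
lemma quad_class (ℓ : ℕ) (hℓp : ℓ.Prime) (hℓ : 6 ≤ ℓ) (s t : ℤ) (hs : ¬ (ℓ : ℤ) ∣ s)
    (ht : ¬ (ℓ : ℤ) ∣ t) (hst : ¬ (ℓ : ℤ) ∣ t - s) (e : ℤ) (he : e = 1 ∨ e = -1) :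
    ℓ ≤ 4 * ((range ℓ).filter (fun r : ℕ =>
      jacobiSym (s * r + 1) ℓ * jacobiSym (t * r + 1) ℓ = e)).card := by
  classical
  have := Fact.mk hℓp
  have h1 := card_class ℓ (by omega) e he
  have hs0 : (s : ZMod ℓ) ≠ 0 := by
    rw [Ne, ZMod.intCast_zmod_eq_zero_iff_dvd]; exact hs
  have ht0 : (t : ZMod ℓ) ≠ 0 := by
    rw [Ne, ZMod.intCast_zmod_eq_zero_iff_dvd]; exact ht
  have hst0 : (t : ZMod ℓ) - s ≠ 0 := by
    have : ((t - s : ℤ) : ZMod ℓ) ≠ 0 := by
      rw [Ne, ZMod.intCast_zmod_eq_zero_iff_dvd]; exact hst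
    push_cast at this
    exact this
  obtain ⟨Z, hZ⟩ : ∃ Z, Z = ((univ : Finset (ZMod ℓ)).filter
    (fun z => quadraticChar (ZMod ℓ) z = e)).erase ((s : ZMod ℓ) / t) := ⟨_, rfl⟩
  have hZc : ((univ : Finset (ZMod ℓ)).filter (fun z => quadraticChar (ZMod ℓ) z = e)).card - 1 ≤
      Z.card := by
    rw [hZ]; exact pred_card_le_card_erase
  have hZm : ∀ z ∈ Z, quadraticChar (ZMod ℓ) z = e ∧ (t : ZMod ℓ) * z - s ≠ 0 := by
    intro z hz
    rw [hZ, mem_erase, mem_filter] at hz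
    refine ⟨hz.2.2, fun h0 => hz.1 ?_⟩
    rw [eq_div_iff ht0]
    linear_combination h0
  have hf1 : ∀ z ∈ Z, (s : ZMod ℓ) * ((1 - z) / (t * z - s)) + 1 = z * (t - s) / (t * z - s) := by
    intro z hz
    have := (hZm z hz).2
    rw [← mul_div_assoc, div_add_one this, div_left_inj' this]
    ring
  have hf2 : ∀ z ∈ Z, (t : ZMod ℓ) * ((1 - z) / (t * z - s)) + 1 = (t - s) / (t * z - s) := by
    intro z hz
    have := (hZm z hz).2
    rw [← mul_div_assoc, div_add_one this, div_left_inj' this]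
    ring
  have h2 : Z.card ≤ ((range ℓ).filter (fun r : ℕ =>
      jacobiSym (s * r + 1) ℓ * jacobiSym (t * r + 1) ℓ = e)).card := by
    apply card_le_card_of_injOn (fun z : ZMod ℓ => ((1 - z) / ((t : ZMod ℓ) * z - s)).val)
    · intro z hz
      rw [mem_coe] at hz
      rw [mem_coe, mem_filter, mem_range]
      refine ⟨ZMod.val_lt _, ?_⟩
      rw [jac_quad, jac_quad]
      push_cast
      rw [ZMod.natCast_zmod_val, hf1 z hz, hf2 z hz, ← map_mul]
      have e1 : z * ((t : ZMod ℓ) - s) / (t * z - s) * ((t - s) / (t * z - s)) =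
          z * ((t - s) / (t * z - s)) ^ 2 := by ring
      rw [e1, map_mul, map_pow, (hZm z hz).1]
      have e2 : ((t : ZMod ℓ) - s) / (t * z - s) ≠ 0 := div_ne_zero hst0 (hZm z hz).2
      rcases quadraticChar_dichotomy e2 with h | h <;> rw [h] <;> simp
    · intro z hz w hw hzw
      rw [mem_coe] at hz hw
      have e1 := ZMod.val_injective ℓ hzw
      have a1 := hf1 z hz
      have a2 := hf1 w hw
      have b1 := hf2 z hz
      have b2 := hf2 w hw
      rw [e1] at a1 b1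
      have e3 : (w : ZMod ℓ) * (t - s) / (t * w - s) = z * (t - s) / (t * z - s) := by
        rw [← a1, ← a2]
      have e4 : ((t : ZMod ℓ) - s) / (t * w - s) = (t - s) / (t * z - s) := by
        rw [← b1, ← b2]
      have e5 : (w : ZMod ℓ) * (((t : ZMod ℓ) - s) / (t * w - s)) =
          z * ((t - s) / (t * w - s)) := by
        rw [← mul_div_assoc, e3, mul_div_assoc, e4]
      exact (mul_right_cancel₀ (div_ne_zero hst0 (hZm w hw).2) e5).symm
  omega

lemma card_pf_le {h : ℕ} (hh : 1 ≤ h) : (h.primeFactors.card : ℝ) * 0.69 ≤ log h := by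
  have h1 : 2 ^ h.primeFactors.card ≤ h := by
    calc 2 ^ h.primeFactors.card ≤ ∏ p ∈ h.primeFactors, p := by
          apply pow_card_le_prod
          intro p hp
          exact (Nat.prime_of_mem_primeFactors hp).two_le
      _ ≤ h := Nat.le_of_dvd hh (Nat.prod_primeFactors_dvd h)
  have h2 : ((2 ^ h.primeFactors.card : ℕ) : ℝ) ≤ h := by exact_mod_cast h1
  push_cast at h2
  have h3 := log_le_log (by positivity) h2
  rw [log_pow] at h3
  have h4 : (0 : ℝ) ≤ h.primeFactors.card := Nat.cast_nonneg _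
  nlinarith [log_two_gt_d9]

lemma recip {ℓ a : ℕ} (hℓ : ℓ % 2 = 1) (ha : a % 2 = 1) :
    jacobiSym (ℓ : ℤ) a = (if ℓ % 4 = 3 ∧ a % 4 = 3 then -1 else 1) * jacobiSym (a : ℤ) ℓ := by
  rw [← jacobiSym.quadratic_reciprocity_if hℓ ha]
  split_ifs <;> ring

lemma W_spec {x ℓ : ℕ} (h : ℓ ∈ W x) : ℓ.Prime ∧ ℓ ≠ 2 ∧ ℓ % 2 = 1 := by
  rw [W, mem_opr] at h
  refine ⟨h.1, h.2.2, ?_⟩
  exact Nat.odd_iff.mp (h.1.odd_of_ne_two h.2.2)

lemma sign_cases (P : Prop) [Decidable P] : (if P then (-1 : ℤ) else 1) = 1 ∨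
    (if P then (-1 : ℤ) else 1) = -1 := by
  split_ifs <;> simp

/-- the linear sieve bound -/
theorem lin (ε : ℝ) (hε : 0 < ε) (hε1 : ε ≤ 1 / 8) : ∃ x0 : ℕ, ∀ x : ℕ, x0 ≤ x →
    ∀ h Y b c : ℕ, 1 ≤ h → h ≤ x → Y ≤ x → Nz x b → ∀ T : Finset ℕ,
    (∀ a ∈ T, a ≤ Y ∧ Odd a ∧ a ≡ c [MOD h] ∧ Same x a b) →
    (T.card : ℝ) ≤ 48 * log x * ((Y : ℝ) / h + 1) ^ (3 / 4 + ε) := by
  classical
  obtain ⟨x0, hx0⟩ := lsv ε hε hε1
  refine ⟨max x0 3, ?_⟩
  intro x hx h Y b c hh1 hhx hYx hb T hT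
  have hx3 : 3 ≤ x := (le_max_right _ _).trans hx
  have hlogx : 1 ≤ log (x : ℝ) := one_le_log hx3
  obtain ⟨V, hV⟩ : ∃ V : ℕ, V = Y / h + 1 := ⟨_, rfl⟩
  have hV1 : 1 ≤ V := by rw [hV]; exact Nat.le_add_left 1 _
  have hVx : V ≤ x ^ 2 := by
    have h1 : Y / h ≤ Y := Nat.div_le_self Y h
    have h2 : x + 1 ≤ x ^ 2 := by nlinarith
    rw [hV]
    exact (Nat.succ_le_succ (h1.trans hYx)).trans h2
  have hVY : (V : ℝ) ≤ (Y : ℝ) / h + 1 := by
    rw [hV]
    push_cast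
    have := Nat.cast_div_le (α := ℝ) (m := Y) (n := h)
    linarith
  have hB : ((h.primeFactors.card : ℕ) : ℝ) ≤ 3 * log x := by
    have h1 := card_pf_le hh1
    have h2 : log (h : ℝ) ≤ log x := log_le_log (by exact_mod_cast hh1) (by exact_mod_cast hhx)
    nlinarith
  obtain ⟨c0, hc0⟩ : ∃ c0 : ℕ, c0 = c % h := ⟨_, rfl⟩
  have hac : ∀ a ∈ T, a = c0 + h * (a / h) := by
    intro a ha
    have h1 := (hT a ha).2.2.1
    have h2 : a % h = c % h := h1
    rw [hc0, ← h2]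
    exact (Nat.mod_add_div a h).symm
  -- the bound for one class modulo four
  have hone : ∀ σ : ℕ, ((T.filter (fun a => a % 4 = σ)).card : ℝ) ≤
      24 * log x * (V : ℝ) ^ (3 / 4 + ε) := by
    intro σ
    set τ : ℕ → ℤ := fun ℓ => (if ℓ % 4 = 3 ∧ σ = 3 then -1 else 1) * jacobiSym (ℓ : ℤ) b with hτ
    have hτ1 : ∀ ℓ ∈ W x, τ ℓ = 1 ∨ τ ℓ = -1 := by
      intro ℓ hℓ
      have h1 := hb ℓ hℓ
      rcases sign_cases (ℓ % 4 = 3 ∧ σ = 3) with h2 | h2 <;>
      rcases jacobiSym.trichotomy (ℓ : ℤ) b with h3 | h3 | h3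
      all_goals first | exact absurd h3 h1 | (rw [hτ]; simp only [h2, h3]; norm_num)
    have hτa : ∀ a ∈ T.filter (fun a => a % 4 = σ), ∀ ℓ ∈ W x, jacobiSym (a : ℤ) ℓ = τ ℓ := by
      intro a ha ℓ hℓ
      rw [mem_filter] at ha
      obtain ⟨_, _, h3⟩ := W_spec hℓ
      obtain ⟨_, b2, _, b4⟩ := hT a ha.1
      have h4 := recip h3 (Nat.odd_iff.mp b2)
      have h5 := b4 ℓ hℓ
      rw [hτ]
      simp only
      rw [← h5, h4, ha.2, ← mul_assoc]
      rcases sign_cases (ℓ % 4 = 3 ∧ σ = 3) with h2 | h2 <;> rw [h2] <;> ring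
    set I : ℕ → Finset ℕ := fun ℓ => (range ℓ).filter
      (fun r : ℕ => jacobiSym ((c0 : ℤ) + (h : ℤ) * ((r : ℤ) - 1)) ℓ = - τ ℓ) with hI
    have hmain := hx0 x ((le_max_left _ _).trans hx) h.primeFactors hB V hV1 hVx I (by
      intro ℓ hℓ
      rw [mem_sdiff] at hℓ
      obtain ⟨h1, h2, h3⟩ := W_spec hℓ.1
      refine ⟨filter_subset _ _, ?_⟩
      apply lin_class ℓ h1 h2
      · intro hd
        apply hℓ.2
        rw [Nat.mem_primeFactors]
        exact ⟨h1, by exact_mod_cast hd, by omega⟩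
      · rcases hτ1 ℓ hℓ.1 with h4 | h4 <;> rw [h4] <;> simp)
      ((T.filter (fun a => a % 4 = σ)).image (fun a => a / h + 1)) (by
        intro v hv
        rw [mem_image] at hv
        obtain ⟨a, ha, rfl⟩ := hv
        rw [mem_filter] at ha
        rw [mem_Icc, hV]
        exact ⟨Nat.le_add_left 1 _, Nat.succ_le_succ (Nat.div_le_div_right (c := h) (hT a ha.1).1)⟩) (by
        intro v hv ℓ hℓ
        rw [mem_image] at hv
        obtain ⟨a, ha, rfl⟩ := hv
        rw [mem_sdiff] at hℓ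
        have h1 := hτa a ha ℓ hℓ.1
        have h2 := hτ1 ℓ hℓ.1
        obtain ⟨p1, p2, p3⟩ := W_spec hℓ.1
        have := Fact.mk p1
        intro hmem
        rw [hI, mem_filter] at hmem
        have h3 := hmem.2
        rw [jac_quad] at h1 h3
        rw [mem_filter] at ha
        have hav := hac a ha.1
        obtain ⟨v, hv⟩ : ∃ v, v = a / h := ⟨_, rfl⟩
        rw [← hv] at hav h3
        have h4 : (((c0 : ℤ) + (h : ℤ) * ((((v + 1) % ℓ : ℕ) : ℤ) - 1) : ℤ) : ZMod ℓ) =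
            ((a : ℤ) : ZMod ℓ) := by
          rw [hav]
          push_cast
          ring
        rw [h4, h1] at h3
        rcases h2 with h2 | h2 <;> rw [h2] at h3 <;> norm_num at h3)
    rw [card_image_of_injOn] at hmain
    · exact hmain
    · intro a ha a' ha' haa
      rw [mem_coe, mem_filter] at ha ha'
      have h1 : a / h = a' / h := by simpa using haa
      rw [hac a ha.1, hac a' ha'.1, h1]
  have hsplit : T ⊆ T.filter (fun a => a % 4 = 1) ∪ T.filter (fun a => a % 4 = 3) := by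
    intro a ha
    have h1 := (hT a ha).2.1
    rw [Nat.odd_iff] at h1
    rw [mem_union, mem_filter, mem_filter]
    have : a % 4 = 1 ∨ a % 4 = 3 := by omega
    rcases this with h | h
    · exact Or.inl ⟨ha, h⟩
    · exact Or.inr ⟨ha, h⟩
  have h1 := (card_le_card hsplit).trans (card_union_le _ _)
  have h2 : (T.card : ℝ) ≤ ((T.filter (fun a => a % 4 = 1)).card : ℝ) +
      ((T.filter (fun a => a % 4 = 3)).card : ℝ) := by exact_mod_cast h1
  have h3 := hone 1
  have h4 := hone 3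
  have h5 : (V : ℝ) ^ (3 / 4 + ε) ≤ ((Y : ℝ) / h + 1) ^ (3 / 4 + ε) :=
    rpow_le_rpow (Nat.cast_nonneg _) hVY (by linarith)
  have h6 : 24 * log x * (V : ℝ) ^ (3 / 4 + ε) ≤ 24 * log x * ((Y : ℝ) / h + 1) ^ (3 / 4 + ε) :=
    mul_le_mul_of_nonneg_left h5 (by linarith)
  linarith

/-- the sieve bound for pairs -/
theorem quad (ε : ℝ) (hε : 0 < ε) (hε1 : ε ≤ 1 / 8) : ∃ x0 : ℕ, ∀ x : ℕ, x0 ≤ x →
    ∀ s t V : ℕ, 1 ≤ s → 1 ≤ t → s ≠ t → s ^ 3 ≤ x → t ^ 3 ≤ x → 1 ≤ V → V ≤ x ^ 2 →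
    ∀ T : Finset ℕ, T ⊆ Icc 1 V → (∀ g ∈ T, Odd (s * g + 1) ∧ Odd (t * g + 1) ∧
      Same x (s * g + 1) (t * g + 1) ∧ Nz x (s * g + 1)) →
    (T.card : ℝ) ≤ 96 * log x * (V : ℝ) ^ (3 / 4 + ε) := by
  classical
  obtain ⟨x0, hx0⟩ := lsv ε hε hε1
  refine ⟨max x0 21, ?_⟩
  intro x hx s t V hs1 ht1 hst hs3 ht3 hV1 hVx T hTV hT
  have hx21 : 21 ≤ x := (le_max_right _ _).trans hx
  have hlogx : 2 ≤ log (x : ℝ) := by
    have h3 : (21 : ℝ) ≤ x := by exact_mod_cast hx21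
    rw [le_log_iff_exp_le (by linarith)]
    have h4 : exp 2 = exp 1 * exp 1 := by rw [← exp_add]; norm_num
    rw [h4]
    nlinarith [exp_one_lt_d9, exp_pos 1]
  obtain ⟨d, hd⟩ : ∃ d : ℕ, d = (t - s) + (s - t) := ⟨_, rfl⟩
  have hd1 : 1 ≤ d := by omega
  have hstd : s * t * d ≤ x := by
    rcases le_total s t with h | h
    · have : d ≤ t := by omega
      calc s * t * d ≤ t * t * t := Nat.mul_le_mul (Nat.mul_le_mul_right _ h) this
        _ = t ^ 3 := by ring
        _ ≤ x := ht3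
    · have : d ≤ s := by omega
      calc s * t * d ≤ s * s * s := Nat.mul_le_mul (Nat.mul_le_mul_left _ h) this
        _ = s ^ 3 := by ring
        _ ≤ x := hs3
  obtain ⟨B, hBdef⟩ : ∃ B : Finset ℕ, B = (s * t * d).primeFactors ∪ {3, 5} := ⟨_, rfl⟩
  have hstd1 : 1 ≤ s * t * d := Nat.mul_pos (Nat.mul_pos hs1 ht1) hd1
  have hB : (B.card : ℝ) ≤ 3 * log x := by
    have h1 := card_pf_le hstd1
    have h2 : log ((s * t * d : ℕ) : ℝ) ≤ log x :=
      log_le_log (by exact_mod_cast hstd1) (by exact_mod_cast hstd)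
    have h3 : B.card ≤ (s * t * d).primeFactors.card + 2 := by
      rw [hBdef]
      refine (card_union_le _ _).trans ?_
      have : ({3, 5} : Finset ℕ).card = 2 := by decide
      omega
    have h4 : (B.card : ℝ) ≤ (s * t * d).primeFactors.card + 2 := by exact_mod_cast h3
    nlinarith
  -- the bound for one class modulo four
  have hone : ∀ σ₁ σ₂ : ℕ,
      ((T.filter (fun g => (s * g + 1) % 4 = σ₁ ∧ (t * g + 1) % 4 = σ₂)).card : ℝ) ≤
      24 * log x * (V : ℝ) ^ (3 / 4 + ε) := by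
    intro σ₁ σ₂
    set τ : ℕ → ℤ := fun ℓ => (if ℓ % 4 = 3 ∧ σ₁ = 3 then -1 else 1) *
      (if ℓ % 4 = 3 ∧ σ₂ = 3 then -1 else 1) with hτ
    have hτ1 : ∀ ℓ, τ ℓ = 1 ∨ τ ℓ = -1 := by
      intro ℓ
      rcases sign_cases (ℓ % 4 = 3 ∧ σ₁ = 3) with h2 | h2 <;>
      rcases sign_cases (ℓ % 4 = 3 ∧ σ₂ = 3) with h3 | h3 <;>
      (rw [hτ]; simp only [h2, h3]; norm_num)
    have hτa : ∀ g ∈ T.filter (fun g => (s * g + 1) % 4 = σ₁ ∧ (t * g + 1) % 4 = σ₂),
        ∀ ℓ ∈ W x, jacobiSym ((s * g + 1 : ℕ) : ℤ) ℓ * jacobiSym ((t * g + 1 : ℕ) : ℤ) ℓ = τ ℓ := by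
      intro g hg ℓ hℓ
      rw [mem_filter] at hg
      obtain ⟨_, _, h3⟩ := W_spec hℓ
      obtain ⟨b1, b2, b3, b4⟩ := hT g hg.1
      have h4 := recip h3 (Nat.odd_iff.mp b1)
      have h5 := recip h3 (Nat.odd_iff.mp b2)
      have h6 := b3 ℓ hℓ
      have h7 := b4 ℓ hℓ
      rw [hg.2.1] at h4
      rw [hg.2.2] at h5
      rw [hτ]
      simp only
      have h8 : jacobiSym (ℓ : ℤ) (s * g + 1) * jacobiSym (ℓ : ℤ) (t * g + 1) = 1 := by
        rw [← h6]
        rcases jacobiSym.trichotomy (ℓ : ℤ) (s * g + 1) with h | h | h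
        · exact absurd h h7
        · rw [h]; norm_num
        · rw [h]; norm_num
      rw [h4, h5] at h8
      rcases sign_cases (ℓ % 4 = 3 ∧ σ₁ = 3) with h2 | h2 <;>
      rcases sign_cases (ℓ % 4 = 3 ∧ σ₂ = 3) with h3 | h3 <;>
      (rw [h2, h3] at h8 ⊢; linarith)
    set I : ℕ → Finset ℕ := fun ℓ => (range ℓ).filter
      (fun r : ℕ => jacobiSym ((s : ℤ) * r + 1) ℓ * jacobiSym ((t : ℤ) * r + 1) ℓ = - τ ℓ) with hI
    refine hx0 x ((le_max_left _ _).trans hx) B hB V hV1 hVx I (by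
      intro ℓ hℓ
      rw [mem_sdiff, hBdef, mem_union, Nat.mem_primeFactors, mem_insert, mem_singleton] at hℓ
      obtain ⟨hℓ1, hℓ2⟩ := hℓ
      obtain ⟨h1, h2, h3⟩ := W_spec hℓ1
      push Not at hℓ2
      obtain ⟨hℓ3, hℓ4, hℓ5⟩ := hℓ2
      have hnd : ¬ ℓ ∣ s * t * d := fun h => by
        have := hℓ3 h1 h
        omega
      have hℓ6 : 6 ≤ ℓ := by
        have := h1.two_le
        by_contra hc
        have : ℓ = 2 ∨ ℓ = 3 ∨ ℓ = 4 ∨ ℓ = 5 := by omega
        omega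
      refine ⟨filter_subset _ _, ?_⟩
      apply quad_class ℓ h1 hℓ6
      · intro hdv
        apply hnd
        have : ℓ ∣ s := by exact_mod_cast hdv
        exact (this.mul_right t).mul_right d
      · intro hdv
        apply hnd
        have : ℓ ∣ t := by exact_mod_cast hdv
        exact (this.mul_left s).mul_right d
      · intro hdv
        apply hnd
        have : (ℓ : ℤ) ∣ (d : ℤ) := by
          rcases le_total s t with h | h
          · have e : (d : ℤ) = t - s := by omega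
            rw [e]; exact hdv
          · have e : (d : ℤ) = - (t - s) := by omega
            rw [e]; exact (dvd_neg).mpr hdv
        have : ℓ ∣ d := by exact_mod_cast this
        exact this.mul_left _
      · rcases hτ1 ℓ with h4 | h4 <;> rw [h4] <;> simp) _
      ((filter_subset _ _).trans hTV) (by
        intro g hg ℓ hℓ
        rw [mem_sdiff] at hℓ
        have h1 := hτa g hg ℓ hℓ.1
        have h2 := hτ1 ℓ
        obtain ⟨p1, p2, p3⟩ := W_spec hℓ.1
        have := Fact.mk p1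
        intro hmem
        rw [hI, mem_filter] at hmem
        have h3 := hmem.2
        rw [jac_quad, jac_quad] at h1 h3
        push_cast at h1 h3
        rw [h1] at h3
        rcases h2 with h2 | h2 <;> rw [h2] at h3 <;> norm_num at h3)
  have hsplit : T ⊆ (T.filter (fun g => (s * g + 1) % 4 = 1 ∧ (t * g + 1) % 4 = 1) ∪
      T.filter (fun g => (s * g + 1) % 4 = 1 ∧ (t * g + 1) % 4 = 3)) ∪
      (T.filter (fun g => (s * g + 1) % 4 = 3 ∧ (t * g + 1) % 4 = 1) ∪
      T.filter (fun g => (s * g + 1) % 4 = 3 ∧ (t * g + 1) % 4 = 3)) := by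
    intro g hg
    obtain ⟨h1, h2, _⟩ := hT g hg
    rw [Nat.odd_iff] at h1 h2
    simp only [mem_union, mem_filter]
    have e1 : (s * g + 1) % 4 = 1 ∨ (s * g + 1) % 4 = 3 := by omega
    have e2 : (t * g + 1) % 4 = 1 ∨ (t * g + 1) % 4 = 3 := by omega
    rcases e1 with e1 | e1 <;> rcases e2 with e2 | e2 <;> tauto
  have h1 := (card_le_card hsplit).trans (card_union_le _ _)
  have h2 := h1.trans (Nat.add_le_add (card_union_le _ _) (card_union_le _ _))
  have h3 : (T.card : ℝ) ≤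
      (((T.filter (fun g => (s * g + 1) % 4 = 1 ∧ (t * g + 1) % 4 = 1)).card : ℝ) +
      ((T.filter (fun g => (s * g + 1) % 4 = 1 ∧ (t * g + 1) % 4 = 3)).card : ℝ)) +
      (((T.filter (fun g => (s * g + 1) % 4 = 3 ∧ (t * g + 1) % 4 = 1)).card : ℝ) +
      ((T.filter (fun g => (s * g + 1) % 4 = 3 ∧ (t * g + 1) % 4 = 3)).card : ℝ)) := by
    exact_mod_cast h2
  have a1 := hone 1 1
  have a2 := hone 1 3
  have a3 := hone 3 1
  have a4 := hone 3 3
  linarith

end Pool.Agent.L0h54.EX
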