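import Pool.Agent.L0h54.EX.ClsS1

set_option autoImplicit false

/-! Pairs of a prime and a modulus. -/

namespace Pool.Agent.L0h54.EX

open Finset Real Pool.Agent.W57.SW

/-- a prime `p` and a multiple `g` of all the orders of the small primes -/
def PG (x : ℕ) (a : ℕ × ℕ) : Prop := a.1.Prime ∧ a.1 ≤ x ∧ a.2 ∈ (a.1 - 1).divisors ∧ Lv x a.1 a.2

theorem pair_count (ε : ℝ) (hε : 0 < ε) : ∃ K : ℝ, 0 < K ∧ ∃ x0 : ℕ, ∀ x : ℕ, x0 ≤ x →
    ∀ y : ℝ, 1 ≤ y → y ≤ x → ∀ A : Finset (ℕ × ℕ), (∀ a ∈ A, PG x a ∧ (a.2 : ℝ) ≤ y) →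
    (A.card : ℝ) ≤ K * (x : ℝ) ^ ε * y := by
  classical
  obtain ⟨x1, hx1⟩ := larger
  obtain ⟨C, hC, hdiv⟩ := Helper112.divisor_bound (ε / 2) (by positivity)
  refine ⟨12 * (1 + 2 / (ε / 2)) * C, by positivity, max x1 3, ?_⟩
  intro x hx y hy1 hyx A hA
  have hxx1 : x1 ≤ x := (le_max_left _ _).trans hx
  have hx3 : 3 ≤ x := (le_max_right _ _).trans hx
  have hlogx : 1 ≤ log (x : ℝ) := one_le_log hx3
  have hxpos : (0 : ℝ) < x := by exact_mod_cast (by omega : 0 < x)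
  have hx1' : (1 : ℝ) ≤ x := by exact_mod_cast (by omega : 1 ≤ x)
  obtain ⟨P, hP⟩ : ∃ P : Finset ℕ, P = A.image Prod.fst := ⟨_, rfl⟩
  have h1 : (P.card : ℝ) ≤ 12 * y * log x := by
    apply hx1 x hxx1 y hy1 hyx
    intro p hp
    rw [hP, mem_image] at hp
    obtain ⟨a, ha, rfl⟩ := hp
    obtain ⟨⟨a1, a2, a3, a4⟩, a5⟩ := hA a ha
    exact ⟨a1, a.2, Nat.pos_of_mem_divisors a3, a5, a4⟩
  have h2 : A.card = ∑ p ∈ P, (A.filter (fun a => a.1 = p)).card := by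
    apply card_eq_sum_card_fiberwise
    intro a ha
    rw [mem_coe, hP]
    exact mem_image_of_mem _ ha
  have h3 : ∀ p ∈ P, ((A.filter (fun a => a.1 = p)).card : ℝ) ≤ C * (x : ℝ) ^ (ε / 2) := by
    intro p hp
    rw [hP, mem_image] at hp
    obtain ⟨a, ha, hap⟩ := hp
    obtain ⟨⟨a1, a2, _, _⟩, _⟩ := hA a ha
    rw [hap] at a1 a2
    have h4 : (A.filter (fun a => a.1 = p)).card ≤ (p - 1).divisors.card := by
      apply card_le_card_of_injOn Prod.snd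
      · intro b hb
        rw [mem_coe, mem_filter] at hb
        have := (hA b hb.1).1.2.2.1
        rw [hb.2] at this
        exact this
      · intro b hb c hc hbc
        rw [mem_coe, mem_filter] at hb hc
        exact Prod.ext (hb.2.trans hc.2.symm) hbc
    have h5 := hdiv (p - 1) (by have := a1.two_le; omega)
    have h6 : ((A.filter (fun a => a.1 = p)).card : ℝ) ≤ (p - 1).divisors.card := by
      exact_mod_cast h4
    refine (h6.trans h5).trans ?_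
    apply mul_le_mul_of_nonneg_left _ hC.le
    apply rpow_le_rpow (Nat.cast_nonneg _) _ (by positivity)
    exact_mod_cast (by omega : p - 1 ≤ x)
  have h4 : (A.card : ℝ) ≤ P.card * (C * (x : ℝ) ^ (ε / 2)) := by
    rw [h2]
    push_cast
    refine (sum_le_sum h3).trans ?_
    rw [sum_const, nsmul_eq_mul]
  have h5 : log (x : ℝ) ≤ (1 + 2 / (ε / 2)) * (x : ℝ) ^ (ε / 2) := by
    have := log_fac (ε / 2) (by positivity) hx1'
    linarith
  calc (A.card : ℝ) ≤ P.card * (C * (x : ℝ) ^ (ε / 2)) := h4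
    _ ≤ (12 * y * ((1 + 2 / (ε / 2)) * (x : ℝ) ^ (ε / 2))) * (C * (x : ℝ) ^ (ε / 2)) := by
        apply mul_le_mul_of_nonneg_right _ (by positivity)
        exact h1.trans (mul_le_mul_of_nonneg_left h5 (by linarith))
    _ = 12 * (1 + 2 / (ε / 2)) * C * ((x : ℝ) ^ (ε / 2) * (x : ℝ) ^ (ε / 2)) * y := by ring
    _ = 12 * (1 + 2 / (ε / 2)) * C * (x : ℝ) ^ ε * y := by
        rw [← rpow_add hxpos, add_halves]

theorem pair_sum (ε : ℝ) (hε : 0 < ε) : ∃ K : ℝ, 0 < K ∧ ∃ x0 : ℕ, ∀ x : ℕ, x0 ≤ x →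
    ∀ A : Finset (ℕ × ℕ), (∀ a ∈ A, PG x a) →
    ∑ a ∈ A, (a.2 : ℝ) ^ (-(1001 / 1000) : ℝ) ≤ K * (x : ℝ) ^ ε := by
  classical
  obtain ⟨K, hK, x0, hx0⟩ := pair_count ε hε
  obtain ⟨C, hC, hws⟩ := ws 1 (1001 / 1000) (by norm_num) (by norm_num)
  refine ⟨C * K, by positivity, max x0 3, ?_⟩
  intro x hx A hA
  have hxx0 : x0 ≤ x := (le_max_left _ _).trans hx
  have hx3 : 3 ≤ x := (le_max_right _ _).trans hx
  have hx1' : (1 : ℝ) ≤ x := by exact_mod_cast (by omega : 1 ≤ x)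
  have h1 := hws (ℕ × ℕ) A (fun a => (a.2 : ℝ)) (K * (x : ℝ) ^ ε) (by positivity) (by
    intro a ha
    exact_mod_cast Nat.pos_of_mem_divisors (hA a ha).2.2.1) (by
    intro y hy
    rw [rpow_one]
    have h2 := hx0 x hxx0 (min y x) (le_min hy hx1') (min_le_right _ _)
      (A.filter (fun a => (a.2 : ℝ) ≤ y)) (by
      intro a ha
      rw [mem_filter] at ha
      obtain ⟨a1, a2, a3, a4⟩ := hA a ha.1
      refine ⟨⟨a1, a2, a3, a4⟩, le_min ha.2 ?_⟩
      have := Nat.divisor_le a3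
      exact_mod_cast (by omega : a.2 ≤ x))
    refine h2.trans ?_
    apply mul_le_mul_of_nonneg_left (min_le_left _ _) (by positivity))
  linarith

end Pool.Agent.L0h54.EX
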