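import Pool.Agent.L0h54.EX.Larger
import Pool.Agent.L0h54.EX.HBp

set_option autoImplicit false

/-! The sparse set of the divisors which occur. -/

namespace Pool.Agent.L0h54.EX

open Finset Real Pool.Agent.W57.SW

open Classical in
/-- odd squarefree numbers `≤ x` with all symbols one -/
noncomputable def Dx (x : ℕ) : Finset ℕ :=
  (Icc 1 x).filter (fun m => Odd m ∧ Squarefree m ∧ Same x m 1)

open Classical in
lemma mem_Dx {x m : ℕ} : m ∈ Dx x ↔ (1 ≤ m ∧ m ≤ x) ∧ Odd m ∧ Squarefree m ∧ Same x m 1 := by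
  rw [Dx, mem_filter, mem_Icc]

/-- primes with a small group -/
def Sm (x : ℕ) (τ : ℝ) (q : ℕ) : Prop :=
  ∃ g : ℕ, 1 ≤ g ∧ (g : ℝ) ≤ (q : ℝ) ^ (1 / 2 + τ) ∧ Lv x q g

/-- the condition on the extra prime -/
def Ex (x : ℕ) (τ κ : ℝ) (m q : ℕ) : Prop :=
  (q : ℝ) ≤ (x : ℝ) ^ κ ∨ Sm x τ q ∨ ∃ q' : ℕ, q'.Prime ∧ q' ∣ m ∧ Same x q q'

open Classical in
/-- the sparse set -/
noncomputable def Rx (x : ℕ) (τ κ : ℝ) : Finset ℕ :=
  (Icc 1 x).filter (fun m => m ∈ Dx x ∨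
    ∃ q m' : ℕ, q.Prime ∧ Odd q ∧ m = q * m' ∧ m' ∈ Dx x ∧ Ex x τ κ m' q)

open Classical in
lemma mem_Rx {x m : ℕ} {τ κ : ℝ} : m ∈ Rx x τ κ ↔ (1 ≤ m ∧ m ≤ x) ∧ (m ∈ Dx x ∨
    ∃ q m' : ℕ, q.Prime ∧ Odd q ∧ m = q * m' ∧ m' ∈ Dx x ∧ Ex x τ κ m' q) := by
  rw [Rx, mem_filter, mem_Icc]

lemma nz_of_dvd {x m q : ℕ} (hm : m ∈ Dx x) (hq : q ∣ m) : Nz x q := by
  rw [mem_Dx] at hm
  obtain ⟨c, rfl⟩ := hq
  have h0 : q * c ≠ 0 := by omega
  have hq0 : NeZero q := ⟨fun h => h0 (by rw [h, zero_mul])⟩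
  have hc0 : NeZero c := ⟨fun h => h0 (by rw [h, mul_zero])⟩
  intro ℓ hℓ h
  have h1 := hm.2.2.2 ℓ hℓ
  rw [jacobiSym.mul_right, h, zero_mul, jacobiSym.one_right] at h1
  exact zero_ne_one h1

lemma rank_Dx (ε : ℝ) (hε : 0 < ε) : ∃ K : ℝ, 0 < K ∧ ∀ x X : ℕ, 1 ≤ X →
    (((Dx x).filter (fun d : ℕ => d ≤ X)).card : ℝ) ≤ K * (X : ℝ) ^ (1 / 2 + ε) := by
  obtain ⟨K, hK, h⟩ := same_count ε hε
  refine ⟨K, hK, fun x X hX => ?_⟩
  rcases Nat.eq_zero_or_pos x with h0 | h0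
  · have : Dx x = ∅ := by
      rw [eq_empty_iff_forall_notMem]
      intro m hm
      rw [mem_Dx] at hm
      omega
    rw [this]
    simp only [filter_empty, card_empty, Nat.cast_zero]
    positivity
  · obtain ⟨Y, hY⟩ : ∃ Y, Y = min X x := ⟨_, rfl⟩
    have h1 := h x Y 1 (by omega) (by omega) (nz_one x) ((Dx x).filter (fun d : ℕ => d ≤ X)) (by
      intro m hm
      rw [mem_filter, mem_Dx] at hm
      exact ⟨hm.1.1.1, by omega, hm.1.2⟩)
    refine h1.trans (mul_le_mul_of_nonneg_left ?_ hK.le)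
    apply rpow_le_rpow (Nat.cast_nonneg _) _ (by linarith)
    have : Y ≤ X := by omega
    exact_mod_cast this

/-- the extra primes are few -/
lemma ex_count (τ : ℝ) (hτ : 0 < τ) (hτ1 : τ ≤ 1 / 8) : ∃ K : ℝ, 0 < K ∧ ∃ x0 : ℕ, ∀ x : ℕ,
    x0 ≤ x → ∀ κ : ℝ, 0 ≤ κ → ∀ m Y : ℕ, m ∈ Dx x → 1 ≤ Y → Y ≤ x → ∀ T : Finset ℕ,
    (∀ q ∈ T, q ≤ Y ∧ q.Prime ∧ Odd q ∧ Ex x τ κ m q) →
    (T.card : ℝ) ≤ K * log x * (x : ℝ) ^ (κ / 2) * (Y : ℝ) ^ (1 / 2 + τ) := by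
  classical
  obtain ⟨K, hK, hsame⟩ := same_count τ hτ
  obtain ⟨x0, hx0⟩ := larger
  refine ⟨13 + 2 * K, by positivity, max x0 3, ?_⟩
  intro x hx κ hκ m Y hm hY1 hYx T hT
  have hx3 : 3 ≤ x := (le_max_right _ _).trans hx
  have hlogx : 1 ≤ log (x : ℝ) := one_le_log hx3
  have hxpos : (0 : ℝ) < x := by exact_mod_cast (by omega : 0 < x)
  have hx1' : (1 : ℝ) ≤ x := by exact_mod_cast (by omega : 1 ≤ x)
  have hY1' : (1 : ℝ) ≤ Y := by exact_mod_cast hY1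
  have hYx' : (Y : ℝ) ≤ x := by exact_mod_cast hYx
  have hYpos : (0 : ℝ) < Y := by linarith
  have hκ1 : (1 : ℝ) ≤ (x : ℝ) ^ (κ / 2) := one_le_rpow hx1' (by positivity)
  obtain ⟨Z, hZ⟩ : ∃ Z : ℝ, Z = (Y : ℝ) ^ (1 / 2 + τ) := ⟨_, rfl⟩
  have hZ1 : 1 ≤ Z := by rw [hZ]; exact one_le_rpow hY1' (by positivity)
  rw [← hZ]
  -- first kind
  have hT1 : ((T.filter (fun q : ℕ => (q : ℝ) ≤ (x : ℝ) ^ κ)).card : ℝ) ≤ (x : ℝ) ^ (κ / 2) * Z := by
    have h1 : (T.filter (fun q : ℕ => (q : ℝ) ≤ (x : ℝ) ^ κ)) ⊆ Icc 1 (min Y ⌊(x : ℝ) ^ κ⌋₊) := by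
      intro q hq
      rw [mem_filter] at hq
      obtain ⟨a1, a2, _⟩ := hT q hq.1
      rw [mem_Icc]
      exact ⟨a2.one_lt.le, le_min a1 (Nat.le_floor hq.2)⟩
    have h2 := card_le_card h1
    rw [Nat.card_Icc, Nat.add_sub_cancel] at h2
    have h3 : ((T.filter (fun q : ℕ => (q : ℝ) ≤ (x : ℝ) ^ κ)).card : ℝ) ≤
        ((min Y ⌊(x : ℝ) ^ κ⌋₊ : ℕ) : ℝ) := by exact_mod_cast h2
    refine h3.trans ?_
    obtain ⟨w, hw⟩ : ∃ w : ℝ, w = ((min Y ⌊(x : ℝ) ^ κ⌋₊ : ℕ) : ℝ) := ⟨_, rfl⟩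
    rw [← hw]
    have hw0 : 0 ≤ w := by rw [hw]; positivity
    have hw1 : w ≤ Y := by rw [hw]; exact_mod_cast min_le_left _ _
    have hw2 : w ≤ (x : ℝ) ^ κ := by
      rw [hw]
      refine le_trans ?_ (Nat.floor_le (by positivity))
      exact_mod_cast min_le_right _ _
    have e1 : w = w ^ (1 / 2 : ℝ) * w ^ (1 / 2 : ℝ) := by
      rw [← sqrt_eq_rpow, mul_self_sqrt hw0]
    rw [e1]
    apply mul_le_mul _ _ (by positivity) (by positivity)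
    · have := rpow_le_rpow hw0 hw2 (by norm_num : (0 : ℝ) ≤ 1 / 2)
      rwa [← rpow_mul hxpos.le, show κ * (1 / 2) = κ / 2 by ring] at this
    · refine (rpow_le_rpow hw0 hw1 (by norm_num : (0 : ℝ) ≤ 1 / 2)).trans ?_
      rw [hZ]
      exact rpow_le_rpow_of_exponent_le hY1' (by linarith)
  -- second kind
  have hT2 : ((T.filter (fun q => Sm x τ q)).card : ℝ) ≤ 12 * Z * log x := by
    apply hx0 x ((le_max_left _ _).trans hx) Z hZ1
    · calc Z ≤ (Y : ℝ) ^ (1 : ℝ) := by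
            rw [hZ]; exact rpow_le_rpow_of_exponent_le hY1' (by linarith)
        _ = Y := rpow_one _
        _ ≤ x := hYx'
    · intro q hq
      rw [mem_filter] at hq
      obtain ⟨a1, a2, _⟩ := hT q hq.1
      obtain ⟨g, g1, g2, g3⟩ := hq.2
      refine ⟨a2, g, g1, g2.trans ?_, g3⟩
      rw [hZ]
      exact rpow_le_rpow (Nat.cast_nonneg _) (by exact_mod_cast a1) (by linarith)
  -- third kind
  have hT3 : ((T.filter (fun q => ∃ q' : ℕ, q'.Prime ∧ q' ∣ m ∧ Same x q q')).card : ℝ) ≤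
      2 * log x * (K * Z) := by
    have hm' := mem_Dx.mp hm
    have h1 : T.filter (fun q => ∃ q' : ℕ, q'.Prime ∧ q' ∣ m ∧ Same x q q') ⊆
        m.primeFactors.biUnion (fun q' => T.filter (fun q => Same x q q')) := by
      intro q hq
      rw [mem_filter] at hq
      obtain ⟨hq1, q', p1, p2, p3⟩ := hq
      rw [mem_biUnion]
      exact ⟨q', Nat.mem_primeFactors.mpr ⟨p1, p2, by omega⟩, mem_filter.mpr ⟨hq1, p3⟩⟩
    have h2 := (card_le_card h1).trans card_biUnion_le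
    have h3 : ((T.filter (fun q => ∃ q' : ℕ, q'.Prime ∧ q' ∣ m ∧ Same x q q')).card : ℝ) ≤
        ∑ q' ∈ m.primeFactors, ((T.filter (fun q => Same x q q')).card : ℝ) := by
      exact_mod_cast h2
    have h4 : ∀ q' ∈ m.primeFactors, ((T.filter (fun q => Same x q q')).card : ℝ) ≤ K * Z := by
      intro q' hq'
      rw [Nat.mem_primeFactors] at hq'
      rw [hZ]
      apply hsame x Y q' hY1 hYx (nz_of_dvd hm hq'.2.1)
      intro q hq
      rw [mem_filter] at hq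
      obtain ⟨a1, a2, a3, _⟩ := hT q hq.1
      exact ⟨a2.one_lt.le, a1, a3, a2.squarefree, hq.2⟩
    have h5 := h3.trans (sum_le_sum h4)
    rw [sum_const, nsmul_eq_mul] at h5
    refine h5.trans (mul_le_mul_of_nonneg_right ?_ (by positivity))
    have h6 := card_pf_le (by omega : 1 ≤ m)
    have h7 : log (m : ℝ) ≤ log x :=
      log_le_log (by exact_mod_cast (by omega : 0 < m)) (by exact_mod_cast hm'.1.2)
    nlinarith
  have hsplit : T ⊆ T.filter (fun q : ℕ => (q : ℝ) ≤ (x : ℝ) ^ κ) ∪ (T.filter (fun q => Sm x τ q) ∪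
      T.filter (fun q => ∃ q' : ℕ, q'.Prime ∧ q' ∣ m ∧ Same x q q')) := by
    intro q hq
    obtain ⟨_, _, _, a4⟩ := hT q hq
    rw [mem_union, mem_union, mem_filter, mem_filter, mem_filter]
    rcases a4 with h | h | h
    · exact Or.inl ⟨hq, h⟩
    · exact Or.inr (Or.inl ⟨hq, h⟩)
    · exact Or.inr (Or.inr ⟨hq, h⟩)
  have h1 := (card_le_card hsplit).trans (card_union_le _ _)
  have h2 := h1.trans (Nat.add_le_add_left (card_union_le _ _) _)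
  have h3 : (T.card : ℝ) ≤ ((T.filter (fun q : ℕ => (q : ℝ) ≤ (x : ℝ) ^ κ)).card : ℝ) +
      (((T.filter (fun q => Sm x τ q)).card : ℝ) +
      ((T.filter (fun q => ∃ q' : ℕ, q'.Prime ∧ q' ∣ m ∧ Same x q q')).card : ℝ)) := by
    exact_mod_cast h2
  obtain ⟨k, hk⟩ : ∃ k : ℝ, k = (x : ℝ) ^ (κ / 2) := ⟨_, rfl⟩
  obtain ⟨L, hL⟩ : ∃ L : ℝ, L = log (x : ℝ) := ⟨_, rfl⟩
  rw [← hk] at hT1 hκ1 ⊢
  rw [← hL] at hT2 hT3 hlogx ⊢
  have e1 : k * Z ≤ L * k * Z := by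
    have : 0 ≤ k * Z := by positivity
    nlinarith
  have e2 : L * Z ≤ L * k * Z := by
    have : 0 ≤ L * Z := by positivity
    nlinarith
  have e3 : 0 ≤ K := hK.le
  calc (T.card : ℝ) ≤ k * Z + (12 * Z * L + 2 * L * (K * Z)) := by linarith
    _ = k * Z + 12 * (L * Z) + 2 * K * (L * Z) := by ring
    _ ≤ L * k * Z + 12 * (L * k * Z) + 2 * K * (L * k * Z) := by
        have := mul_le_mul_of_nonneg_left e2 (by positivity : 0 ≤ 2 * K)
        linarith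
    _ = (13 + 2 * K) * L * k * Z := by ring

/-- the rank of the sparse set -/
theorem rank_Rx (τ : ℝ) (hτ : 0 < τ) (hτ1 : τ ≤ 1 / 8) : ∃ K : ℝ, 0 < K ∧ ∃ x0 : ℕ, ∀ x : ℕ,
    x0 ≤ x → ∀ κ : ℝ, 0 ≤ κ → ∀ X : ℕ, 1 ≤ X →
    (((Rx x τ κ).filter (fun d : ℕ => d ≤ X)).card : ℝ) ≤
      K * log x * (x : ℝ) ^ (κ / 2) * (X : ℝ) ^ (1 / 2 + 2 * τ) := by
  classical
  obtain ⟨K1, hK1, hrank⟩ := rank_Dx τ hτ
  obtain ⟨K2, hK2, x0, hx0⟩ := ex_count τ hτ hτ1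
  obtain ⟨C, hC, hQ⟩ := Qsum (1 / 2 + τ) (1 / 2 + 2 * τ) (1 / 2 + 2 * τ) 0 (by positivity)
    (by linarith) le_rfl
  refine ⟨K1 + K2 * C * K1, by positivity, max x0 3, ?_⟩
  intro x hx κ hκ X0 hX01
  have hx3 : 3 ≤ x := (le_max_right _ _).trans hx
  have hlogx : 1 ≤ log (x : ℝ) := one_le_log hx3
  have hxpos : (0 : ℝ) < x := by exact_mod_cast (by omega : 0 < x)
  have hx1' : (1 : ℝ) ≤ x := by exact_mod_cast (by omega : 1 ≤ x)
  have hκ1 : (1 : ℝ) ≤ (x : ℝ) ^ (κ / 2) := one_le_rpow hx1' (by positivity)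
  -- reduce to `X ≤ x`
  obtain ⟨X, hX⟩ : ∃ X, X = min X0 x := ⟨_, rfl⟩
  have hX1 : 1 ≤ X := by omega
  have hXx : X ≤ x := by omega
  have hXX0 : X ≤ X0 := by omega
  have hX1' : (1 : ℝ) ≤ X := by exact_mod_cast hX1
  have hXpos : (0 : ℝ) < X := by linarith
  have hred : (((Rx x τ κ).filter (fun d : ℕ => d ≤ X0)).card : ℝ) ≤
      (((Rx x τ κ).filter (fun d : ℕ => d ≤ X)).card : ℝ) := by
    have : (Rx x τ κ).filter (fun d : ℕ => d ≤ X0) ⊆ (Rx x τ κ).filter (fun d : ℕ => d ≤ X) := by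
      intro d hd
      rw [mem_filter] at hd ⊢
      have h1 := hd.1
      rw [mem_Rx] at h1
      exact ⟨hd.1, by omega⟩
    exact_mod_cast card_le_card this
  refine hred.trans ?_
  have hfin : (((Rx x τ κ).filter (fun d : ℕ => d ≤ X)).card : ℝ) ≤
      (K1 + K2 * C * K1) * log x * (x : ℝ) ^ (κ / 2) * (X : ℝ) ^ (1 / 2 + 2 * τ) := by
    -- split
    obtain ⟨R1, hR1⟩ : ∃ R1, R1 = (Dx x).filter (fun d : ℕ => d ≤ X) := ⟨_, rfl⟩
    obtain ⟨S, hS⟩ : ∃ S : Finset ℕ, S = ((Rx x τ κ).filter (fun d : ℕ => d ≤ X)) \ R1 := ⟨_, rfl⟩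
    have hcov := cover_count S R1 (fun _ => ({()} : Finset Unit))
      (fun m _ => (Icc 1 ⌊(X : ℝ) / m⌋₊).filter (fun q => q.Prime ∧ Odd q ∧ Ex x τ κ m q))
      (fun m _ q => q * m) (by
        intro n hn
        rw [hS, mem_sdiff, mem_filter, hR1, mem_filter, mem_Rx] at hn
        obtain ⟨⟨⟨⟨n1, n2⟩, n3⟩, n4⟩, n5⟩ := hn
        rcases n3 with n3 | ⟨q, m', q1, q2, q3, q4, q5⟩
        · exact absurd ⟨n3, n4⟩ n5
        · have hm1 := (mem_Dx.mp q4).1.1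
          have hm0 : (0 : ℝ) < m' := by exact_mod_cast hm1
          refine ⟨m', ?_, (), by simp, q, ?_, q3.symm⟩
          · rw [hR1, mem_filter]
            refine ⟨q4, le_trans ?_ n4⟩
            rw [q3]
            exact Nat.le_mul_of_pos_left m' q1.pos
          · rw [mem_filter, mem_Icc]
            refine ⟨⟨q1.one_lt.le, Nat.le_floor ?_⟩, q1, q2, q5⟩
            rw [le_div_iff₀ hm0]
            have : q * m' ≤ X := by rw [← q3]; exact n4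
            exact_mod_cast this)
    simp only [sum_singleton] at hcov
    have hb : ∀ m ∈ R1, (((Icc 1 ⌊(X : ℝ) / m⌋₊).filter
        (fun q => q.Prime ∧ Odd q ∧ Ex x τ κ m q)).card : ℝ) ≤
        K2 * log x * (x : ℝ) ^ (κ / 2) * ((X : ℝ) / m) ^ (1 / 2 + 2 * τ) := by
      intro m hm
      rw [hR1, mem_filter] at hm
      obtain ⟨hm1, hm2⟩ := hm
      have hm3 := (mem_Dx.mp hm1).1.1
      have hm0 : (0 : ℝ) < m := by exact_mod_cast hm3
      have hmX : (m : ℝ) ≤ X := by exact_mod_cast hm2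
      have hY1 : 1 ≤ (X : ℝ) / m := by rw [one_le_div hm0]; exact hmX
      have hYx : ⌊(X : ℝ) / m⌋₊ ≤ x := by
        apply Nat.floor_le_of_le
        calc (X : ℝ) / m ≤ X := div_le_self hXpos.le (by exact_mod_cast hm3)
          _ ≤ x := by exact_mod_cast hXx
      have h1 := hx0 x ((le_max_left _ _).trans hx) κ hκ m ⌊(X : ℝ) / m⌋₊ hm1
        (Nat.le_floor (by exact_mod_cast hY1)) hYx
        ((Icc 1 ⌊(X : ℝ) / m⌋₊).filter (fun q => q.Prime ∧ Odd q ∧ Ex x τ κ m q)) (by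
          intro q hq
          rw [mem_filter, mem_Icc] at hq
          exact ⟨hq.1.2, hq.2⟩)
      refine h1.trans (mul_le_mul_of_nonneg_left ?_ (by positivity))
      calc ((⌊(X : ℝ) / m⌋₊ : ℕ) : ℝ) ^ (1 / 2 + τ) ≤ ((X : ℝ) / m) ^ (1 / 2 + τ) :=
            rpow_le_rpow (Nat.cast_nonneg _) (Nat.floor_le (by positivity)) (by linarith)
        _ ≤ _ := rpow_le_rpow_of_exponent_le hY1 (by linarith)
    have h1 := hcov.trans (sum_le_sum hb)
    rw [← mul_sum] at h1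
    have h2 := hQ X hX1' R1 K1 hK1.le (by
      intro d hd
      rw [hR1, mem_filter] at hd
      refine ⟨(mem_Dx.mp hd.1).1.1, ?_⟩
      rw [rpow_zero, mul_one]
      exact_mod_cast hd.2) (by
      intro Y hY
      refine le_trans ?_ (hrank x Y hY)
      have : R1.filter (fun d : ℕ => d ≤ Y) ⊆ (Dx x).filter (fun d : ℕ => d ≤ Y) := by
        intro d hd
        rw [hR1, mem_filter, mem_filter] at hd
        exact mem_filter.mpr ⟨hd.1.1, hd.2⟩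
      exact_mod_cast card_le_card this)
    rw [zero_mul, sub_zero] at h2
    have h3 := h1.trans (mul_le_mul_of_nonneg_left h2 (by positivity))
    have h4 : (R1.card : ℝ) ≤ K1 * (X : ℝ) ^ (1 / 2 + 2 * τ) := by
      rw [hR1]
      refine (hrank x X hX1).trans (mul_le_mul_of_nonneg_left ?_ hK1.le)
      exact rpow_le_rpow_of_exponent_le hX1' (by linarith)
    have h5 : (((Rx x τ κ).filter (fun d : ℕ => d ≤ X)).card : ℝ) ≤ S.card + R1.card := by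
      have : ((Rx x τ κ).filter (fun d : ℕ => d ≤ X)) ⊆ S ∪ R1 := by
        rw [hS, sdiff_union_self_eq_union]
        exact subset_union_left
      have h6 := (card_le_card this).trans (card_union_le _ _)
      exact_mod_cast h6
    obtain ⟨k, hk⟩ : ∃ k : ℝ, k = (x : ℝ) ^ (κ / 2) := ⟨_, rfl⟩
    obtain ⟨L, hL⟩ : ∃ L : ℝ, L = log (x : ℝ) := ⟨_, rfl⟩
    obtain ⟨Z, hZ⟩ : ∃ Z : ℝ, Z = (X : ℝ) ^ (1 / 2 + 2 * τ) := ⟨_, rfl⟩
    rw [← hk, ← hL, ← hZ] at h3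
    rw [← hk] at hκ1
    rw [← hL] at hlogx
    rw [← hZ] at h4
    rw [← hk, ← hL, ← hZ]
    have hZ0 : 0 ≤ Z := by rw [hZ]; positivity
    have h6 : 1 ≤ L * k := by nlinarith
    have h7 : K1 * Z ≤ K1 * Z * (L * k) := le_mul_of_one_le_right (by positivity) h6
    calc (((Rx x τ κ).filter (fun d : ℕ => d ≤ X)).card : ℝ) ≤ S.card + R1.card := h5
      _ ≤ K2 * L * k * (C * K1 * Z) + K1 * Z := by linarith
      _ ≤ K2 * L * k * (C * K1 * Z) + K1 * Z * (L * k) := by linarith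
      _ = _ := by ring
  refine hfin.trans (mul_le_mul_of_nonneg_left ?_ (by positivity))
  apply rpow_le_rpow hXpos.le _ (by linarith)
  exact_mod_cast hXX0

end Pool.Agent.L0h54.EX
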