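import Pool.Agent.L0h54.EX.ClsB
import Pool.Agent.L0h54.EX.ClsS2
import Pool.Agent.L0h54.EX.ClsD1
import Pool.Agent.L0h54.EX.ClsD2

set_option autoImplicit false

/-! The structure of the numbers without a small witness. -/

namespace Pool.Agent.L0h54.EX

open Finset Real Pool.Agent.H379R2.W Pool.Agent.W57.SW

/-- the properties of the numbers without a small witness which are used -/
structure Dat (x n : ℕ) (E : Finset ℕ) : Prop where
  sq : Squarefree n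
  odd : Odd n
  le : n ≤ x
  lt : (x : ℝ) / 2 < n
  E_sub : ∀ q ∈ E, q.Prime ∧ q ∣ n
  E_ne : E.Nonempty
  E_same : ∀ q ∈ E, ∀ q' ∈ E, Same x q q'
  out : ∀ q : ℕ, q.Prime → q ∣ n → q ∉ E → Same x q 1
  nz : ∀ q : ℕ, q.Prime → q ∣ n → Nz x q
  gp : ∀ q : ℕ, q.Prime → q ∣ n → (q : ℝ) ^ (1 / 2 - 1 / 100 : ℝ) ≤ Nat.gcd (q - 1) (n - 1)
  lv : ∀ q : ℕ, q.Prime → q ∣ n → Lv x q (Nat.gcd (q - 1) (n - 1))
  big : ∀ q m : ℕ, q.Prime → n = q * m → 2 ≤ m

theorem dat_of_bad : ∃ x0 : ℕ, ∀ x : ℕ, x0 ≤ x → ∀ n : ℕ, (x : ℝ) / 2 < n → n ≤ x → Bd 2 n →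
    ∃ E : Finset ℕ, Dat x n E := by
  classical
  obtain ⟨N1, hN1⟩ := bad_squarefree
  obtain ⟨N2, hN23, hN2⟩ := bd_gcd 2 (1 / 100) le_rfl (by norm_num)
  refine ⟨max (2 * max N1 N2) 100, ?_⟩
  intro x hx n hnx hnx' hb
  have hx1 : 2 * max N1 N2 ≤ x := (le_max_left _ _).trans hx
  have hx100 : 100 ≤ x := (le_max_right _ _).trans hx
  have hNn : max N1 N2 ≤ n := by
    have h1 : ((2 * max N1 N2 : ℕ) : ℝ) ≤ x := by exact_mod_cast hx1
    push_cast at h1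
    have h2 : ((max N1 N2 : ℕ) : ℝ) < n := by push_cast; linarith
    have h3 : max N1 N2 < n := by exact_mod_cast h2
    exact h3.le
  have hn3 : 3 ≤ n := hN23.trans ((le_max_right _ _).trans hNn)
  have hxpos : (0 : ℝ) < x := by exact_mod_cast (by omega : 0 < x)
  have hnpos : (0 : ℝ) < n := by exact_mod_cast (by omega : 0 < n)
  have hsqf : Squarefree n := hN1 n ((le_max_left _ _).trans hNn) (hb.bad le_rfl hn3)
  -- logarithms
  have hlx4 : 4 ≤ log (x : ℝ) := by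
    have h3 : (100 : ℝ) ≤ x := by exact_mod_cast hx100
    rw [le_log_iff_exp_le hxpos]
    have h4 : exp 4 = exp 1 * exp 1 * (exp 1 * exp 1) := by
      rw [← exp_add, ← exp_add]; norm_num
    rw [h4]
    have h5 := exp_one_lt_d9
    have h6 := exp_pos 1
    have h7 : exp 1 * exp 1 ≤ 7.4 := by nlinarith
    have h8 : 0 < exp 1 * exp 1 := by positivity
    nlinarith
  have hlogn : log (x : ℝ) - 0.7 ≤ log n := by
    have h1 := log_le_log (by positivity) hnx.le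
    rw [log_div hxpos.ne' (by norm_num)] at h1
    linarith [log_two_lt_d9]
  have hlog : (log (x : ℝ)) ^ (2 : ℝ) ≤ 2 * (log n) ^ (2 : ℝ) := by
    rw [rpow_two, rpow_two]
    nlinarith
  have hlog2 : 2 ≤ (log (x : ℝ)) ^ (2 : ℝ) := by
    rw [rpow_two]; nlinarith
  have hpf : ∀ q : ℕ, q.Prime → q ∣ n → (log (x : ℝ)) ^ (2 : ℝ) < q ∧ q ≠ 2 := by
    intro q hq hqn
    have h1 := bd_prime_large hb hq hqn
    have h2 : (log (x : ℝ)) ^ (2 : ℝ) < q := by linarith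
    refine ⟨h2, ?_⟩
    intro h
    rw [h] at h2
    norm_num at h2
    norm_num at hlog2
    linarith
  have hpass : ∀ ℓ ∈ W x, Passes n ℓ := by
    intro ℓ hℓ
    rw [W, mem_opr] at hℓ
    apply hb.2.2 ℓ hℓ.1.one_lt
    have h1 : (ℓ : ℝ) ≤ (⌊(log (x : ℝ)) ^ (2 : ℝ)⌋₊ : ℝ) := by exact_mod_cast hℓ.2.1
    have h2 := Nat.floor_le (rpow_nonneg (log_natCast_nonneg x) 2)
    linarith
  have hsym : ∀ q : ℕ, q.Prime → q ∣ n → ∀ ℓ ∈ W x,
      jacobiSym (ℓ : ℤ) q = 1 ∨ jacobiSym (ℓ : ℤ) q = -1 := by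
    intro q hq hqn ℓ hℓ
    exact symbol_ne (A := 2) hq (hpf q hq hqn).1 hℓ
  have hne : n.primeFactors.Nonempty := Nat.nonempty_primeFactors.mpr (by omega)
  obtain ⟨p, hp, hpmin⟩ := exists_min_image n.primeFactors v2 hne
  rw [Nat.mem_primeFactors] at hp
  have hgcd : ∀ q m : ℕ, q.Prime → n = q * m →
      Nat.gcd (q - 1) (n - 1) = Nat.gcd (q - 1) (m - 1) := by
    intro q m hq hm
    have hm0 : m ≠ 0 := by intro h; rw [h, mul_zero] at hm; omega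
    have e1 : n - 1 = (m - 1) + (q - 1) * m := by
      rw [hm]
      obtain ⟨q', rfl⟩ : ∃ q', q = q' + 1 := ⟨q - 1, by have := hq.two_le; omega⟩
      obtain ⟨m', rfl⟩ : ∃ m', m = m' + 1 := ⟨m - 1, by omega⟩
      simp only [Nat.add_sub_cancel]
      rw [show (q' + 1) * (m' + 1) = m' + q' * (m' + 1) + 1 by ring]
      omega
    rw [e1, Nat.gcd_add_mul_left_right]
  refine ⟨n.primeFactors.filter (fun q => v2 q = v2 p), ⟨hsqf, ?_, hnx', hnx, ?_, ?_, ?_, ?_, ?_,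
    ?_, ?_, ?_⟩⟩
  · rw [← Nat.not_even_iff_odd, even_iff_two_dvd]
    intro h
    exact (hpf 2 Nat.prime_two h).2 rfl
  · intro q hq
    rw [mem_filter, Nat.mem_primeFactors] at hq
    exact ⟨hq.1.1, hq.1.2.1⟩
  · exact ⟨p, mem_filter.mpr ⟨Nat.mem_primeFactors.mpr hp, rfl⟩⟩
  · intro q hq q' hq' ℓ hℓ
    rw [mem_filter, Nat.mem_primeFactors] at hq hq'
    exact same_symbol (hpass ℓ hℓ) hq.1.1 hq'.1.1 (hpf q hq.1.1 hq.1.2.1).2
      (hpf q' hq'.1.1 hq'.1.2.1).2 hq.1.2.1 hq'.1.2.1 (hq.2.trans hq'.2.symm)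
  · intro q hq hqn hqE ℓ hℓ
    have h1 : q ∈ n.primeFactors := Nat.mem_primeFactors.mpr ⟨hq, hqn, by omega⟩
    have h2 := hpmin q h1
    have h3 : v2 q ≠ v2 p := fun h => hqE (mem_filter.mpr ⟨h1, h⟩)
    rw [jacobiSym.one_right]
    exact symbol_one (hpass ℓ hℓ) hq hp.1 (hpf q hq hqn).2 (hpf p hp.1 hp.2.1).2 hqn hp.2.1
      (by omega)
  · intro q hq hqn ℓ hℓ
    rcases hsym q hq hqn ℓ hℓ with h | h <;> rw [h] <;> norm_num
  · intro q hq hqn
    obtain ⟨m, hm⟩ := hqn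
    have h1 := (hN2 n ((le_max_right _ _).trans hNn) hb q m hq hm).1
    rw [hgcd q m hq hm]
    rwa [show (1 : ℝ) - 1 / 2 - 1 / 100 = 1 / 2 - 1 / 100 by norm_num] at h1
  · intro q hq hqn ℓ hℓ
    have hF := Fact.mk hq
    apply pow_gcd_eq_one.mpr
    refine ⟨ZMod.pow_card_sub_one_eq_one ?_, pow_of_passes_dvd (hpass ℓ hℓ) hqn⟩
    intro h0
    rcases hsym q hq hqn ℓ hℓ with h | h
    all_goals
      rw [jac_quad] at h
      push_cast at h
      rw [h0] at h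
      simp at h
  · intro q m hq hm
    exact (hN2 n ((le_max_right _ _).trans hNn) hb q m hq hm).2

namespace Dat

variable {x n : ℕ} {E : Finset ℕ}

lemma pos (h : Dat x n E) : 1 ≤ n := Nat.pos_of_ne_zero h.sq.ne_zero

lemma dvd_facts (h : Dat x n E) {d : ℕ} (hd : d ∣ n) : 1 ≤ d ∧ d ≤ x ∧ Odd d ∧ Squarefree d :=
  ⟨Nat.pos_of_dvd_of_pos hd h.pos, (Nat.le_of_dvd h.pos hd).trans h.le,
    Odd.of_dvd_nat h.odd hd, h.sq.squarefree_of_dvd hd⟩

open Classical in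
/-- divisors with an even number of primes of minimal level -/
lemma even_mem (h : Dat x n E) {d : ℕ} (hd : d ∣ n)
    (hk : Even ((E.filter (fun q => q ∣ d)).card)) : d ∈ Dx x := by
  obtain ⟨h1, h2, h3, h4⟩ := h.dvd_facts hd
  rw [mem_Dx]
  refine ⟨⟨h1, h2⟩, h3, h4, ?_⟩
  intro ℓ hℓ
  obtain ⟨q0, hq0⟩ := h.E_ne
  rw [jacobiSym.one_right]
  have e1 : ∏ q ∈ d.primeFactors, q = d := Nat.prod_primeFactors_of_squarefree h4
  conv_lhs => rw [← e1]
  rw [jacobi_prod _ _ (fun q hq => (Nat.prime_of_mem_primeFactors hq).ne_zero)]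
  have e2 : ∀ q ∈ d.primeFactors, jacobiSym (ℓ : ℤ) q =
      if q ∈ E then jacobiSym (ℓ : ℤ) q0 else 1 := by
    intro q hq
    rw [Nat.mem_primeFactors] at hq
    split_ifs with hE
    · exact h.E_same q hE q0 hq0 ℓ hℓ
    · have := h.out q hq.1 (hq.2.1.trans hd) hE ℓ hℓ
      rwa [jacobiSym.one_right] at this
  rw [prod_congr rfl e2, ← prod_filter, prod_const]
  have e3 : d.primeFactors.filter (fun q => q ∈ E) = E.filter (fun q => q ∣ d) := by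
    ext q
    rw [mem_filter, mem_filter, Nat.mem_primeFactors]
    constructor
    · rintro ⟨⟨a, b, c⟩, e⟩; exact ⟨e, b⟩
    · rintro ⟨a, b⟩; exact ⟨⟨(h.E_sub q a).1, b, by omega⟩, a⟩
  rw [e3]
  have h5 := h.nz q0 (h.E_sub q0 hq0).1 (h.E_sub q0 hq0).2 ℓ hℓ
  rcases jacobiSym.trichotomy (ℓ : ℤ) q0 with h6 | h6 | h6
  · exact absurd h6 h5
  · rw [h6, one_pow]
  · rw [h6, hk.neg_one_pow]

lemma div_iff (h : Dat x n E) {d e : ℕ} (hde : n = d * e) {q : ℕ} (hq : q.Prime) (hqn : q ∣ n) :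
    q ∣ d ↔ ¬ q ∣ e := by
  constructor
  · intro h1 h2
    have h3 : q * q ∣ n := by rw [hde]; exact Nat.mul_dvd_mul h1 h2
    exact hq.one_lt.ne' (Nat.isUnit_iff.mp (h.sq q h3))
  · intro h1
    rw [hde] at hqn
    rcases hq.dvd_mul.mp hqn with h2 | h2
    · exact h2
    · exact absurd h2 h1

lemma filter_prime (h : Dat x n E) {p m : ℕ} (hp : p.Prime) (hn : n = p * m) :
    E.filter (fun q => q ∣ m) = E.erase p := by
  ext q
  rw [mem_filter, mem_erase]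
  constructor
  · rintro ⟨a, b⟩
    refine ⟨?_, a⟩
    rintro rfl
    have := (h.div_iff hn hp (Dvd.intro _ hn.symm)).mp dvd_rfl
    exact this b
  · rintro ⟨a, b⟩
    refine ⟨b, ?_⟩
    have hq := h.E_sub q b
    by_contra hc
    have h1 := (h.div_iff hn hq.1 hq.2).mpr hc
    exact a ((Nat.prime_dvd_prime_iff_eq hq.1 hp).mp h1)

lemma filter_two (h : Dat x n E) {p q m : ℕ} (hp : p.Prime) (hq : q.Prime)
    (hn : n = p * (q * m)) : E.filter (fun r => r ∣ m) = (E.erase p).erase q := by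
  have h1 := h.filter_prime hp hn
  ext r
  rw [mem_erase, ← h1, mem_filter, mem_filter]
  constructor
  · rintro ⟨a, b⟩
    refine ⟨?_, a, b.mul_left q⟩
    rintro rfl
    have h2 : r * r ∣ n := by
      rw [hn]
      exact (Nat.mul_dvd_mul dvd_rfl b).mul_left p
    exact hq.one_lt.ne' (Nat.isUnit_iff.mp (h.sq r h2))
  · rintro ⟨a, b, c⟩
    refine ⟨b, ?_⟩
    have hr := h.E_sub r b
    rcases hr.1.dvd_mul.mp c with h2 | h2
    · exact absurd ((Nat.prime_dvd_prime_iff_eq hr.1 hq).mp h2) a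
    · exact h2

lemma modeq (h : Dat x n E) {g : ℕ} (hg : g ∣ n - 1) : n ≡ 1 [MOD g] :=
  ((Nat.modEq_iff_dvd' h.pos).mpr hg).symm

lemma gp_pos (h : Dat x n E) {q : ℕ} (hq : q.Prime) (hqn : q ∣ n) :
    1 ≤ Nat.gcd (q - 1) (n - 1) := by
  have h1 := h.gp q hq hqn
  have h2 : (0 : ℝ) < (q : ℝ) ^ (1 / 2 - 1 / 100 : ℝ) := by
    have : (0 : ℝ) < q := by exact_mod_cast hq.pos
    positivity
  exact_mod_cast h2.trans_le h1

lemma gcd_cofactor (h : Dat x n E) {q m : ℕ} (hq : q.Prime) (hn : n = q * m) :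
    Nat.gcd (q - 1) (n - 1) ∣ m - 1 := by
  have hm := h.big q m hq hn
  have e1 : n - 1 = (m - 1) + (q - 1) * m := by
    rw [hn]
    obtain ⟨q', rfl⟩ : ∃ q', q = q' + 1 := ⟨q - 1, by have := hq.two_le; omega⟩
    obtain ⟨m', rfl⟩ : ∃ m', m = m' + 1 := ⟨m - 1, by omega⟩
    simp only [Nat.add_sub_cancel]
    rw [show (q' + 1) * (m' + 1) = m' + q' * (m' + 1) + 1 by ring]
    omega
  have h1 : Nat.gcd (q - 1) (n - 1) ∣ n - 1 := Nat.gcd_dvd_right _ _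
  have h2 : Nat.gcd (q - 1) (n - 1) ∣ (q - 1) * m := (Nat.gcd_dvd_left _ _).mul_right m
  rw [e1] at h1
  rw [← e1] at h1
  have h3 := (Nat.dvd_add_left h2).mp (by rw [← e1]; exact h1)
  exact h3

/-- the largest prime in the main class -/
lemma AC_A (h : Dat x n E) {p m b : ℕ} (hp : p.Prime) (hn : n = p * m)
    (hm : m ∈ Rx x (1 / 100000) (1 / 100000)) (hpx : (x : ℝ) ^ (1 / 700 : ℝ) ≤ p)
    (hs : Same x p b) (hb : Nz x b) (hbm : b = 1 ∨ b ∈ m.primeFactors) : IsAC x n := by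
  have hpn : p ∣ n := ⟨m, hn⟩
  have hm2 := h.big p m hp hn
  refine ⟨m, p, Nat.gcd (p - 1) (n - 1), b, by rw [hn, mul_comm], hm, hm2, hpx,
    (h.dvd_facts hpn).2.2.1, hs, hb, hbm, ?_, h.gp p hp hpn, ?_⟩
  · rw [mul_comm, ← hn]
    exact h.modeq (Nat.gcd_dvd_right _ _)
  · rw [Gm, mem_union]
    left
    rw [Nat.mem_divisors]
    exact ⟨h.gcd_cofactor hp hn, by omega⟩

/-- a divisor below the largest prime in the main class -/
lemma AC_C (h : Dat x n E) {p d e : ℕ} (hp : p.Prime) (hn : n = d * e) (hpd : p ∣ d)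
    (hd : d ∈ Rx x (1 / 100000) (1 / 100000)) (hex : (x : ℝ) ^ (1 / 700 : ℝ) ≤ e) (hep : e ≤ p)
    (hs : Same x e 1) : IsAC x n := by
  have hdn : d ∣ n := ⟨e, hn⟩
  have hen : e ∣ n := ⟨d, by rw [hn, mul_comm]⟩
  have hpn : p ∣ n := hpd.trans hdn
  have hd1 := (h.dvd_facts hdn).1
  have hd2 : 2 ≤ d := le_trans hp.two_le (Nat.le_of_dvd (by omega) hpd)
  refine ⟨d, e, Nat.gcd (p - 1) (n - 1), 1, hn, hd, hd2, hex, (h.dvd_facts hen).2.2.1, hs,
    nz_one x, Or.inl rfl, ?_, ?_, ?_⟩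
  · rw [← hn]
    exact h.modeq (Nat.gcd_dvd_right _ _)
  · refine le_trans ?_ (h.gp p hp hpn)
    exact rpow_le_rpow (Nat.cast_nonneg _) (by exact_mod_cast hep) (by norm_num)
  · rw [Gm, mem_union, mem_biUnion]
    right
    refine ⟨p, Nat.mem_primeFactors.mpr ⟨hp, hpd, by omega⟩, ?_⟩
    rw [Nat.mem_divisors]
    have := hp.two_le
    exact ⟨Nat.gcd_dvd_left _ _, by omega⟩

end Dat

end Pool.Agent.L0h54.EX
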